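import Pool.Agent.MP_bf7174_co.O.R2

/-!
# counting in a ball
-/

set_option autoImplicit false

open MeasureTheory Real
open scoped InnerProductSpace Pointwise Topology

namespace BccO

open BccCov BccCov.W2

/-- packing bound -/
theorem packing {F : Finset E3} {c : E3} {R s : ℝ} (hs : 0 < s) (hR : 0 ≤ R)
    (hF : ∀ x ∈ F, dist x c ≤ R) (hsep : ∀ x ∈ F, ∀ y ∈ F, x ≠ y → 2 * s ≤ dist x y) :
    (F.card : ℝ) * s ^ 3 ≤ (R + s) ^ 3 := by
  classical
  have hB : volume (Metric.ball (0 : E3) 1) ≠ 0 := (Metric.measure_ball_pos volume _ one_pos).ne'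
  have hBt : volume (Metric.ball (0 : E3) 1) ≠ ⊤ := measure_ball_lt_top.ne
  have e2 : ∀ (x : E3) (r : ℝ), 0 < r →
      volume (Metric.ball x r) = ENNReal.ofReal (r ^ 3) * volume (Metric.ball (0 : E3) 1) := by
    intro x r hr
    rw [Measure.addHaar_ball_of_pos volume x hr]
    simp
  have h1 : ∑ x ∈ F, volume (Metric.ball x s) ≤ volume (Metric.ball c (R + s)) := by
    rw [← measure_biUnion_finset]
    · apply measure_mono
      intro u hu
      rw [Set.mem_iUnion₂] at hu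
      obtain ⟨x, hx, hux⟩ := hu
      rw [Metric.mem_ball] at hux ⊢
      have := dist_triangle u x c
      linarith [hF x hx]
    · intro x hx y hy hne
      exact Metric.ball_disjoint_ball (by linarith [hsep x hx y hy hne])
    · exact fun x _ => measurableSet_ball
  simp only [e2 _ s hs, e2 c (R + s) (by linarith), Finset.sum_const, nsmul_eq_mul] at h1
  rw [← mul_assoc] at h1
  have h2 := (ENNReal.mul_le_mul_iff_left hB hBt).1 h1
  rw [← ENNReal.ofReal_natCast, ← ENNReal.ofReal_mul (by positivity),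
    ENNReal.ofReal_le_ofReal_iff (by positivity)] at h2
  exact h2

variable {X : Set E3} {D : Set (Finset E3)} {r : ℝ}

/-- bounded number of tetrahedra at a vertex -/
theorem star_bound (hT : IsTriangulation X D) (hI : ∀ t ∈ D, Inscribed t r) (hr : 0 ≤ r)
    (hfin : ∀ R : ℝ, (X ∩ Metric.closedBall (0 : E3) R).Finite) {s : ℝ} (hs : 0 < s)
    (hsep : ∀ x ∈ X, ∀ y ∈ X, x ≠ y → 2 * s ≤ dist x y) :
    ∃ M : ℕ, ∀ x ∈ X, {t | t ∈ D ∧ x ∈ t}.encard ≤ M := by
  classical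
  obtain ⟨hF1, -, -, -⟩ := finiteness hT hI hfin
  obtain ⟨K, hK⟩ := exists_nat_gt ((2 * r + s) ^ 3 / s ^ 3)
  refine ⟨2 ^ K, fun x hx => ?_⟩
  have hfb : (X ∩ Metric.closedBall x (2 * r)).Finite := by
    refine (hfin (2 * r + ‖x‖)).subset ?_
    rintro y ⟨hy, hyc⟩
    refine ⟨hy, ?_⟩
    rw [mem_closedBall_zero_iff]
    rw [Metric.mem_closedBall, dist_eq_norm] at hyc
    have := norm_add_le (y - x) x
    rw [sub_add_cancel] at this
    linarith
  set F := hfb.toFinset with hF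
  have hFm : ∀ y, y ∈ F ↔ y ∈ X ∧ dist y x ≤ 2 * r := by
    intro y
    rw [hF, Set.Finite.mem_toFinset, Set.mem_inter_iff, Metric.mem_closedBall]
  have hcard : F.card ≤ K := by
    have h1 := packing hs (by positivity : 0 ≤ 2 * r) (F := F) (c := x)
      (fun y hy => ((hFm y).1 hy).2)
      (fun y hy z hz hne => hsep y ((hFm y).1 hy).1 z ((hFm z).1 hz).1 hne)
    have h2 : (F.card : ℝ) ≤ (2 * r + s) ^ 3 / s ^ 3 := by
      rw [le_div_iff₀ (by positivity)]; exact h1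
    have h3 : (F.card : ℝ) < K := lt_of_le_of_lt h2 hK
    exact_mod_cast h3.le
  have hsub : {t | t ∈ D ∧ x ∈ t} ⊆ ((F.powerset : Finset (Finset E3)) : Set (Finset E3)) := by
    rintro t ⟨htD, hxt⟩
    rw [Finset.mem_coe, Finset.mem_powerset]
    intro y hy
    rw [hFm]
    exact ⟨hT.vertices t htD y hy, hF1 t htD y (subset_convexHull ℝ _ (Finset.mem_coe.2 hy)) x
      (subset_convexHull ℝ _ (Finset.mem_coe.2 hxt))⟩
  refine (Set.encard_le_encard hsub).trans ?_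
  rw [Set.encard_coe_eq_coe_finsetCard, Finset.card_powerset]
  exact_mod_cast Nat.pow_le_pow_right (by norm_num) hcard

/-- double counting of incidences -/
theorem inc_card_le (hT : IsTriangulation X D) {M : ℕ}
    (hM : ∀ x ∈ X, {t | t ∈ D ∧ x ∈ t}.encard ≤ M)
    (T : Finset (Finset E3)) (hTD : ∀ t ∈ T, t ∈ D) (Y : Finset E3) (hYX : ∀ x ∈ Y, x ∈ X)
    (hTY : ∀ t ∈ T, ∀ x ∈ t, x ∈ Y) : T.card ≤ M * Y.card := by
  classical
  have h1 : ∑ t ∈ T, t.card = ∑ x ∈ Y, (T.filter (fun t => x ∈ t)).card := by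
    simp only [Finset.card_eq_sum_ones]
    refine Finset.sum_comm' fun t x => ?_
    simp only [Finset.mem_filter]
    exact ⟨fun h => ⟨⟨h.1, h.2⟩, hTY t h.1 x h.2⟩, fun h => ⟨h.1.1, h.1.2⟩⟩
  have h2 : ∑ t ∈ T, t.card = 4 * T.card := by
    rw [Finset.sum_congr rfl (fun t ht => hT.card_eq t (hTD t ht)), Finset.sum_const, smul_eq_mul,
      mul_comm]
  have h3 : ∑ x ∈ Y, (T.filter (fun t => x ∈ t)).card ≤ ∑ x ∈ Y, M := by
    refine Finset.sum_le_sum fun x hx => ?_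
    have h4 : ((T.filter (fun t => x ∈ t) : Finset (Finset E3)) : Set (Finset E3)) ⊆
        {t | t ∈ D ∧ x ∈ t} := by
      intro t ht
      rw [Finset.mem_coe, Finset.mem_filter] at ht
      exact ⟨hTD t ht.1, ht.2⟩
    have h5 := (Set.encard_le_encard h4).trans (hM x (hYX x hx))
    rw [Set.encard_coe_eq_coe_finsetCard] at h5
    exact_mod_cast h5
  rw [Finset.sum_const, smul_eq_mul] at h3
  have h6 : 4 * T.card ≤ Y.card * M := by rw [← h2, h1]; exact h3
  rw [mul_comm M]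
  omega

/-- the three sums over the tetrahedra near a ball -/
theorem counting2 (hr : 0 < r) (hT : IsTriangulation X D)
    (hI : ∀ t ∈ D, Inscribed t r) (hfin : ∀ R : ℝ, (X ∩ Metric.closedBall (0 : E3) R).Finite)
    {M : ℕ} (hM : ∀ x ∈ X, {t | t ∈ D ∧ x ∈ t}.encard ≤ M)
    (C : ℝ) (hC : 0 ≤ C) (wt : Finset E3 → Finset E3 → ℝ) (hwC : ∀ t m, wt t m ≤ C)
    (hedge : ∀ (m : Finset E3) (s : Finset (Finset E3)), m.card = 2 → (∃ t ∈ D, m ⊆ t) →
      (∀ t, t ∈ s ↔ t ∈ D ∧ m ⊆ t) → ∑ t ∈ s, wt t m ≤ 0) (R : ℝ) :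
    ∃ T : Finset (Finset E3), (∀ t, t ∈ T ↔ t ∈ D ∧ ∃ x ∈ t, ‖x‖ ≤ R + 2 * r) ∧
      (volume (Metric.closedBall (0 : E3) R)).toReal ≤ ∑ t ∈ T, vol t ∧
      ∑ t ∈ T, tSS t ≤ 4 * π * NN X (R + 4 * r) ∧
      ∑ t ∈ T, ∑ m ∈ t.powersetCard 2, wt t m ≤ 6 * C * M * (NN X (R + 4 * r) - NN X R) := by
  classical
  obtain ⟨hF1, hF2, -, hF4⟩ := finiteness hT hI hfin
  -- the finite set of tetrahedra
  let T : Finset (Finset E3) := (hF2 (R + 2 * r)).toFinset
  have hTm : ∀ t, t ∈ T ↔ t ∈ D ∧ ∃ x ∈ t, ‖x‖ ≤ R + 2 * r := by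
    intro t
    simp only [T, Set.Finite.mem_toFinset, Set.mem_ofPred_eq]
  have hTD : ∀ t ∈ T, t ∈ D := fun t ht => ((hTm t).1 ht).1
  have hdist : ∀ t ∈ D, ∀ x ∈ t, ∀ y ∈ t, ‖x‖ ≤ ‖y‖ + 2 * r := by
    intro t ht x hx y hy
    have h1 := hF1 t ht x (subset_convexHull ℝ _ (Finset.mem_coe.2 hx)) y
      (subset_convexHull ℝ _ (Finset.mem_coe.2 hy))
    rw [dist_eq_norm] at h1
    have h2 : ‖x‖ ≤ ‖y‖ + ‖x - y‖ := by
      have := norm_add_le y (x - y)
      rwa [add_sub_cancel] at this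
    linarith
  -- point sets
  let Y1 : Finset E3 := (hfin (R + 4 * r)).toFinset
  let Y0 : Finset E3 := (hfin R).toFinset
  have hY1m : ∀ x, x ∈ Y1 ↔ x ∈ X ∧ ‖x‖ ≤ R + 4 * r := by
    intro x
    simp only [Y1, Set.Finite.mem_toFinset, Set.mem_inter_iff, mem_closedBall_zero_iff]
  have hY0m : ∀ x, x ∈ Y0 ↔ x ∈ X ∧ ‖x‖ ≤ R := by
    intro x
    simp only [Y0, Set.Finite.mem_toFinset, Set.mem_inter_iff, mem_closedBall_zero_iff]
  have hN1 : NN X (R + 4 * r) = Y1.card := Set.ncard_eq_toFinset_card _ (hfin (R + 4 * r))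
  have hN0 : NN X R = Y0.card := Set.ncard_eq_toFinset_card _ (hfin R)
  have hY01 : Y0 ⊆ Y1 := by
    intro x hx
    rw [hY0m] at hx
    rw [hY1m]
    exact ⟨hx.1, by linarith [hx.2]⟩
  have hTY1 : ∀ t ∈ T, ∀ x ∈ t, x ∈ Y1 := by
    intro t ht x hx
    obtain ⟨htD, y, hy, hyn⟩ := (hTm t).1 ht
    rw [hY1m]
    exact ⟨hT.vertices t htD x hx, by linarith [hdist t htD x hx y hy]⟩
  -- boundary tetrahedra
  let B : Finset (Finset E3) := T.filter (fun t => ∃ y ∈ t, R + 2 * r < ‖y‖)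
  have hBm : ∀ t, t ∈ B ↔ t ∈ T ∧ ∃ y ∈ t, R + 2 * r < ‖y‖ := by
    intro t
    simp only [B, Finset.mem_filter]
  have hcB : B.card ≤ M * (Y1 \ Y0).card := by
    refine inc_card_le hT hM B (fun t ht => hTD t ((hBm t).1 ht).1) (Y1 \ Y0)
      (fun x hx => ((hY1m x).1 (Finset.mem_sdiff.1 hx).1).1) ?_
    intro t ht x hx
    obtain ⟨htT, y, hy, hyn⟩ := (hBm t).1 ht
    rw [Finset.mem_sdiff]
    refine ⟨hTY1 t htT x hx, fun h0 => ?_⟩
    have h1 := ((hY0m x).1 h0).2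
    have h2 := hdist t (hTD t htT) y hy x hx
    linarith
  have hcY : (Y1 \ Y0).card + Y0.card = Y1.card := Finset.card_sdiff_add_card_eq_card hY01
  -- volume
  have hvfin : ∀ t : Finset E3, volume (convexHull ℝ (t : Set E3)) ≠ ⊤ := fun t =>
    (Set.Finite.isCompact_convexHull ℝ t.finite_toSet).measure_lt_top.ne
  have hV : (volume (Metric.closedBall (0 : E3) R)).toReal ≤ ∑ t ∈ T, vol t := by
    have h1 : Metric.closedBall (0 : E3) R ⊆ ⋃ t ∈ T, convexHull ℝ (t : Set E3) := by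
      intro z hz
      have h2 := hF4 R hz
      simp only [Set.mem_iUnion, exists_prop] at h2 ⊢
      obtain ⟨t, ht, hzt⟩ := h2
      exact ⟨t, (hTm t).2 ht, hzt⟩
    have h3 : volume (Metric.closedBall (0 : E3) R)
        ≤ ∑ t ∈ T, volume (convexHull ℝ (t : Set E3)) :=
      (measure_mono h1).trans (measure_biUnion_finset_le _ _)
    unfold vol
    rw [← ENNReal.toReal_sum fun t _ => hvfin t]
    exact ENNReal.toReal_mono (ENNReal.sum_ne_top.2 fun t _ => hvfin t) h3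
  -- solid angles
  have hS : ∑ t ∈ T, tSS t ≤ 4 * π * NN X (R + 4 * r) := by
    have h1 : ∑ t ∈ T, tSS t = ∑ t ∈ T, ∑ v ∈ t, tsol t v :=
      Finset.sum_congr rfl fun t ht => (sum_tsol (hT.card_eq t (hTD t ht))).symm
    have h2 : ∑ t ∈ T, ∑ v ∈ t, tsol t v = ∑ v ∈ Y1, ∑ t ∈ T.filter (fun t => v ∈ t), tsol t v := by
      refine Finset.sum_comm' fun t v => ?_
      simp only [Finset.mem_filter]
      exact ⟨fun h => ⟨⟨h.1, h.2⟩, hTY1 t h.1 v h.2⟩, fun h => ⟨h.1.1, h.1.2⟩⟩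
    rw [h1, h2, hN1]
    have h3 : ∀ v ∈ Y1, ∑ t ∈ T.filter (fun t => v ∈ t), tsol t v ≤ 4 * π := by
      intro v _
      apply vertex_sum hT v
      intro t ht
      rw [Finset.mem_filter] at ht
      exact ⟨hTD t ht.1, ht.2⟩
    refine (Finset.sum_le_sum h3).trans (le_of_eq ?_)
    rw [Finset.sum_const, nsmul_eq_mul]
    ring
  -- splitting
  let Q : Finset E3 → Prop := fun m => ∀ x ∈ m, ‖x‖ ≤ R + 2 * r
  have hsplit : ∑ t ∈ T, ∑ m ∈ t.powersetCard 2, wt t m =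
      ∑ t ∈ T, ∑ m ∈ (t.powersetCard 2).filter Q, wt t m +
      ∑ t ∈ T, ∑ m ∈ (t.powersetCard 2).filter (fun m => ¬ Q m), wt t m := by
    rw [← Finset.sum_add_distrib]
    refine Finset.sum_congr rfl fun t _ => ?_
    rw [Finset.sum_filter_add_sum_filter_not]
  -- inner pairs
  have hin : ∑ t ∈ T, ∑ m ∈ (t.powersetCard 2).filter Q, wt t m ≤ 0 := by
    rw [Finset.sum_comm' (s' := fun m => T.filter (fun t => m ⊆ t))
      (t' := T.biUnion (fun t => (t.powersetCard 2).filter Q)) ?_]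
    · refine Finset.sum_nonpos fun m hm => ?_
      rw [Finset.mem_biUnion] at hm
      obtain ⟨t0, ht0, hm0⟩ := hm
      rw [Finset.mem_filter, Finset.mem_powersetCard] at hm0
      obtain ⟨⟨hmt0, hmc⟩, hmQ⟩ := hm0
      refine hedge m _ hmc ⟨t0, hTD t0 ht0, hmt0⟩ fun t => ?_
      rw [Finset.mem_filter]
      refine ⟨fun h => ⟨hTD t h.1, h.2⟩, fun h => ⟨(hTm t).2 ⟨h.1, ?_⟩, h.2⟩⟩
      have hne : m.Nonempty := by
        rw [← Finset.card_pos]; omega
      obtain ⟨x, hx⟩ := hne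
      exact ⟨x, h.2 hx, hmQ x hx⟩
    · intro t m
      simp only [Finset.mem_filter, Finset.mem_powersetCard, Finset.mem_biUnion]
      constructor
      · rintro ⟨h1, ⟨h2, h3⟩, h4⟩
        exact ⟨⟨h1, h2⟩, t, h1, ⟨h2, h3⟩, h4⟩
      · rintro ⟨⟨h1, h2⟩, t', h3, ⟨h4, h5⟩, h6⟩
        exact ⟨h1, ⟨h2, h5⟩, h6⟩
  -- boundary pairs
  have hout : ∑ t ∈ T, ∑ m ∈ (t.powersetCard 2).filter (fun m => ¬ Q m), wt t m
      ≤ B.card * (6 * C) := by
    have h1 : ∀ t ∈ T, ∑ m ∈ (t.powersetCard 2).filter (fun m => ¬ Q m), wt t m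
        ≤ if (∃ y ∈ t, R + 2 * r < ‖y‖) then 6 * C else 0 := by
      intro t ht
      split_ifs with hy
      · have h2 : ∑ m ∈ (t.powersetCard 2).filter (fun m => ¬ Q m), wt t m
            ≤ ∑ m ∈ (t.powersetCard 2).filter (fun m => ¬ Q m), C :=
          Finset.sum_le_sum fun m _ => hwC t m
        refine h2.trans ?_
        rw [Finset.sum_const, nsmul_eq_mul]
        refine mul_le_mul_of_nonneg_right ?_ hC
        have h3 : ((t.powersetCard 2).filter (fun m => ¬ Q m)).card ≤ 6 := by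
          refine (Finset.card_filter_le _ _).trans ?_
          rw [Finset.card_powersetCard, hT.card_eq t (hTD t ht)]
          decide
        exact_mod_cast h3
      · rw [Finset.sum_eq_zero]
        intro m hm
        exfalso
        rw [Finset.mem_filter, Finset.mem_powersetCard] at hm
        apply hm.2
        intro x hx
        by_contra hc
        push Not at hc
        exact hy ⟨x, hm.1.1 hx, hc⟩
    refine (Finset.sum_le_sum h1).trans ?_
    rw [← Finset.sum_filter, Finset.sum_const, nsmul_eq_mul]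
  refine ⟨T, hTm, hV, hS, ?_⟩
  have e2 : (B.card : ℝ) ≤ M * (NN X (R + 4 * r) - NN X R) := by
    rw [hN1, hN0]
    have h1 : (B.card : ℝ) ≤ M * ((Y1 \ Y0).card : ℝ) := by exact_mod_cast hcB
    have h2 : ((Y1 \ Y0).card : ℝ) + Y0.card = Y1.card := by exact_mod_cast hcY
    have h3 : ((Y1 \ Y0).card : ℝ) = Y1.card - Y0.card := by linarith
    rw [h3] at h1
    exact h1
  have e4 := mul_le_mul_of_nonneg_right e2 (by positivity : 0 ≤ 6 * C)
  rw [hsplit]
  linarith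

end BccO
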