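import Pool.Agent.MP_bf7174_co.O.Q2

/-!
# generic perturbation of a sequence of points
-/

set_option autoImplicit false

open MeasureTheory Real
open scoped InnerProductSpace Pointwise Topology

namespace BccO

open BccCov

lemma null_hyp {u : E3} (hu : u ≠ 0) (x : E3) : volume {w : E3 | ⟪u, w - x⟫_ℝ = 0} = 0 := by
  have h1 : volume ((LinearMap.ker (innerSL ℝ u : E3 →ₗ[ℝ] ℝ) : Submodule ℝ E3) : Set E3) = 0 := by
    apply Measure.addHaar_submodule
    intro htop
    have h2 : u ∈ LinearMap.ker (innerSL ℝ u : E3 →ₗ[ℝ] ℝ) := by rw [htop]; trivial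
    rw [LinearMap.mem_ker] at h2
    have h3 : ⟪u, u⟫_ℝ = 0 := h2
    exact hu (inner_self_eq_zero.1 h3)
  have h2 : {w : E3 | ⟪u, w - x⟫_ℝ = 0} =
      (fun w => w + (-x)) ⁻¹' ((LinearMap.ker (innerSL ℝ u : E3 →ₗ[ℝ] ℝ) : Submodule ℝ E3) : Set E3) := by
    ext w
    simp only [Set.mem_preimage, SetLike.mem_coe, LinearMap.mem_ker]
    rw [← sub_eq_add_neg]
    rfl
  rw [h2, measure_preimage_add_right, h1]

/-- points to be avoided -/
def Bad (A : Finset E3) : Set E3 :=
  ((A : Set E3) ∪ (⋃ x ∈ A, ⋃ y ∈ A, {z | x ≠ y ∧ nrmv x y z = 0})) ∪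
    ((⋃ x ∈ A, ⋃ y ∈ A, ⋃ z ∈ A, {w | nrmv x y z ≠ 0 ∧ det3 x y z w = 0}) ∪
    (⋃ x ∈ A, ⋃ y ∈ A, ⋃ z ∈ A, ⋃ w ∈ A, {v | det3 x y z w ≠ 0 ∧ ∃ (o : E3) (ρ : ℝ),
      dist x o = ρ ∧ dist y o = ρ ∧ dist z o = ρ ∧ dist w o = ρ ∧ dist v o = ρ}))

lemma null_fin (A : Finset E3) (f : E3 → Set E3) (h : ∀ x ∈ A, volume (f x) = 0) :
    volume (⋃ x ∈ A, f x) = 0 := by
  exact (measure_biUnion_null_iff A.countable_toSet).2 h

lemma null_line (x y : E3) : volume {z : E3 | x ≠ y ∧ nrmv x y z = 0} = 0 := by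
  by_cases hxy : x = y
  · have : {z : E3 | x ≠ y ∧ nrmv x y z = 0} = ∅ := by
      ext z; simp [hxy]
    rw [this, measure_empty]
  · -- choose a nonzero orthogonal vector
    obtain ⟨u, hu, hu1, -⟩ := exists_orth (y - x) 0
    refine measure_mono_null ?_ (null_hyp hu x)
    rintro z ⟨-, hz⟩
    show ⟪u, z - x⟫_ℝ = 0
    -- `z - x` is a multiple of `y - x`
    have c0 : (y 1 - x 1) * (z 2 - x 2) - (y 2 - x 2) * (z 1 - x 1) = 0 := by
      have := congrArg (fun v : E3 => v 0) hz
      simpa [nrmv] using this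
    have c1 : (y 2 - x 2) * (z 0 - x 0) - (y 0 - x 0) * (z 2 - x 2) = 0 := by
      have := congrArg (fun v : E3 => v 1) hz
      simpa [nrmv] using this
    have c2 : (y 0 - x 0) * (z 1 - x 1) - (y 1 - x 1) * (z 0 - x 0) = 0 := by
      have := congrArg (fun v : E3 => v 2) hz
      simpa [nrmv] using this
    rw [inner3] at hu1 ⊢
    simp only [PiLp.sub_apply] at hu1 ⊢
    have hne : (y 0 - x 0) ≠ 0 ∨ (y 1 - x 1) ≠ 0 ∨ (y 2 - x 2) ≠ 0 := by
      by_contra hcon
      push Not at hcon
      apply hxy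
      ext i
      fin_cases i
      · simpa using (sub_eq_zero.1 hcon.1).symm
      · simpa using (sub_eq_zero.1 hcon.2.1).symm
      · simpa using (sub_eq_zero.1 hcon.2.2).symm
    rcases hne with h | h | h
    · apply mul_left_cancel₀ h
      rw [mul_zero]
      linear_combination (z 0 - x 0) * hu1 + u 1 * c2 - u 2 * c1
    · apply mul_left_cancel₀ h
      rw [mul_zero]
      linear_combination (z 1 - x 1) * hu1 + u 2 * c0 - u 0 * c2
    · apply mul_left_cancel₀ h
      rw [mul_zero]
      linear_combination (z 2 - x 2) * hu1 + u 0 * c1 - u 1 * c0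

lemma null_plane3 (x y z : E3) : volume {w : E3 | nrmv x y z ≠ 0 ∧ det3 x y z w = 0} = 0 := by
  by_cases h : nrmv x y z = 0
  · have : {w : E3 | nrmv x y z ≠ 0 ∧ det3 x y z w = 0} = ∅ := by
      ext z; simp [h]
    rw [this, measure_empty]
  · refine measure_mono_null ?_ (null_hyp h x)
    rintro w ⟨-, hw⟩
    show ⟪nrmv x y z, w - x⟫_ℝ = 0
    rw [nrmv_det, hw]

lemma null_sphere (x y z w : E3) : volume {v : E3 | det3 x y z w ≠ 0 ∧ ∃ (o : E3) (ρ : ℝ),
      dist x o = ρ ∧ dist y o = ρ ∧ dist z o = ρ ∧ dist w o = ρ ∧ dist v o = ρ} = 0 := by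
  refine measure_mono_null ?_ (Measure.addHaar_sphere volume (BccCov.LP.cc ![x, y, z, w])
    (dist x (BccCov.LP.cc ![x, y, z, w])))
  rintro v ⟨hd, o, ρ, h1, h2, h3, h4, h5⟩
  have h6 : BccCov.LP.cc ![x, y, z, w] = o := by
    apply BccCov.LP.cc_eq ![x, y, z, w] o ρ _ hd
    intro j
    fin_cases j
    · exact h1
    · exact h2
    · exact h3
    · exact h4
  rw [Metric.mem_sphere, h6, h5, h1]

lemma null_Bad (A : Finset E3) : volume (Bad A) = 0 := by
  unfold Bad
  refine measure_union_null (measure_union_null (A.finite_toSet.measure_zero volume) ?_)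
    (measure_union_null ?_ ?_)
  · exact null_fin A _ fun x _ => null_fin A _ fun y _ => null_line x y
  · exact null_fin A _ fun x _ => null_fin A _ fun y _ => null_fin A _ fun z _ => null_plane3 x y z
  · exact null_fin A _ fun x _ => null_fin A _ fun y _ => null_fin A _ fun z _ =>
      null_fin A _ fun w _ => null_sphere x y z w

lemma exists_good (A : Finset E3) (c : E3) {δ : ℝ} (hδ : 0 < δ) :
    ∃ v : E3, dist v c ≤ δ ∧ v ∉ Bad A := by
  by_contra hcon
  push Not at hcon
  have h1 : Metric.ball c δ ⊆ Bad A := fun v hv => hcon v (Metric.mem_ball.1 hv).le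
  have h2 := measure_mono_null h1 (null_Bad A)
  exact (Metric.measure_ball_pos volume c hδ).ne' h2

/-- **generic perturbation** of a sequence -/
theorem exists_seq (p : ℕ → E3) {δ : ℝ} (hδ : 0 < δ) : ∃ (q : ℕ → E3) (A : ℕ → Finset E3),
    (∀ n, dist (q n) (p n) ≤ δ) ∧ (∀ n, q n ∉ Bad (A n)) ∧ ∀ m n, m < n → q m ∈ A n := by
  classical
  have hex : ∀ (A : Finset E3) (n : ℕ), ∃ v : E3, dist v (p n) ≤ δ ∧ v ∉ Bad A := fun A n =>
    exists_good A (p n) hδ
  choose g hg1 hg2 using hex
  let A : ℕ → Finset E3 := fun n => Nat.rec ∅ (fun n B => insert (g B n) B) n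
  have hA : ∀ n, A (n + 1) = insert (g (A n) n) (A n) := fun n => rfl
  have hmono : ∀ m n, m ≤ n → A m ⊆ A n := by
    intro m n hmn
    induction n, hmn using Nat.le_induction with
    | base => exact subset_rfl
    | succ n _ ih => exact ih.trans (by rw [hA]; exact Finset.subset_insert _ _)
  refine ⟨fun n => g (A n) n, A, fun n => hg1 _ _, fun n => hg2 _ _, ?_⟩
  intro m n hmn
  apply hmono (m + 1) n hmn
  rw [hA]
  exact Finset.mem_insert_self _ _

lemma cycl (x y z w : E3) : det3 x y z w = 0 → det3 y x z w = 0 := by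
  intro h
  have : det3 y x z w = -det3 x y z w := by unfold det3; ring
  rw [this, h, neg_zero]

theorem exists_gen (p : ℕ → E3) {δ : ℝ} (hδ : 0 < δ) : ∃ q : ℕ → E3,
    (∀ n, dist (q n) (p n) ≤ δ) ∧ Function.Injective q ∧ Gen (Set.range q) := by
  classical
  obtain ⟨q, A, h1, h2, h3⟩ := exists_seq p hδ
  have bad : ∀ n v, v = q n → v ∉ Bad (A n) := by
    rintro n v rfl; exact h2 n
  have P2 : ∀ i j, i < j → q i ≠ q j := by
    intro i j hij he
    apply h2 j
    left; left
    rw [← he]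
    exact h3 i j hij
  have hinj : Function.Injective q := by
    intro i j he
    rcases lt_trichotomy i j with h | h | h
    · exact absurd he (P2 i j h)
    · exact h
    · exact absurd he.symm (P2 j i h)
  have P3 : ∀ i j k, i < j → j < k → nrmv (q i) (q j) (q k) ≠ 0 := by
    intro i j k hij hjk he
    apply h2 k
    left; right
    simp only [Set.mem_iUnion]
    exact ⟨q i, h3 i k (hij.trans hjk), q j, h3 j k hjk, P2 i j hij, he⟩
  have P4 : ∀ i j k l, i < j → j < k → k < l → det3 (q i) (q j) (q k) (q l) ≠ 0 := by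
    intro i j k l hij hjk hkl he
    apply h2 l
    right; left
    simp only [Set.mem_iUnion]
    exact ⟨q i, h3 i l (by omega), q j, h3 j l (by omega), q k, h3 k l hkl, P3 i j k hij hjk, he⟩
  have P5 : ∀ i j k l m, i < j → j < k → k < l → l < m → ∀ (o : E3) (ρ : ℝ), dist (q i) o = ρ →
      dist (q j) o = ρ → dist (q k) o = ρ → dist (q l) o = ρ → dist (q m) o = ρ → False := by
    intro i j k l m hij hjk hkl hlm o ρ e1 e2 e3 e4 e5
    apply h2 m
    right; right
    simp only [Set.mem_iUnion]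
    exact ⟨q i, h3 i m (by omega), q j, h3 j m (by omega), q k, h3 k m (by omega), q l,
      h3 l m hlm, P4 i j k l hij hjk hkl, o, ρ, e1, e2, e3, e4, e5⟩
  refine ⟨q, h1, hinj, ?_, ?_⟩
  · rintro _ ⟨i, rfl⟩ _ ⟨j, rfl⟩ _ ⟨k, rfl⟩ _ ⟨l, rfl⟩ hxy hxz hxw hyz hyw hzw
    have nij : i ≠ j := fun h => hxy (h ▸ rfl)
    have nik : i ≠ k := fun h => hxz (h ▸ rfl)
    have nil : i ≠ l := fun h => hxw (h ▸ rfl)
    have njk : j ≠ k := fun h => hyz (h ▸ rfl)
    have njl : j ≠ l := fun h => hyw (h ▸ rfl)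
    have nkl : k ≠ l := fun h => hzw (h ▸ rfl)
    set I : Finset ℕ := {i, j, k, l} with hI
    have hIc : I.card = 4 := by
      rw [hI, Finset.card_insert_of_notMem (by simp [nij, nik, nil]),
        Finset.card_insert_of_notMem (by simp [njk, njl]), Finset.card_pair nkl]
    set e := I.orderEmbOfFin hIc with he
    have hdet := P4 (e 0) (e 1) (e 2) (e 3) (e.strictMono (by decide)) (e.strictMono (by decide))
      (e.strictMono (by decide))
    set t : Finset E3 := I.image q with ht
    have htc : t.card = 4 := by rw [ht, Finset.card_image_of_injective _ hinj, hIc]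
    have hr : Set.range e = (I : Set ℕ) := Finset.range_orderEmbOfFin I hIc
    have hind := affInd_image (fun a => q (e a)) hdet t (by
      rw [ht, Finset.coe_image, ← hr, ← Set.range_comp]; rfl)
    refine BccCov.S.det3_ne_zero (q i) (q j) (q k) (q l) t htc ?_ hind
    rw [ht, hI]
    ext v
    simp
  · intro o ρ s hsX hso
    by_contra hcon
    push Not at hcon
    obtain ⟨s', hs', hs'c⟩ := Finset.exists_subset_card_eq (show 5 ≤ s.card by omega)
    set I : Finset ℕ := s'.preimage q hinj.injOn with hI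
    have himg : I.image q = s' := by
      ext v
      rw [Finset.mem_image]
      constructor
      · rintro ⟨a, ha, rfl⟩
        rw [hI, Finset.mem_preimage] at ha
        exact ha
      · intro hv
        obtain ⟨a, rfl⟩ := hsX v (hs' hv)
        exact ⟨a, by rw [hI, Finset.mem_preimage]; exact hv, rfl⟩
    have hIc : I.card = 5 := by
      rw [← hs'c, ← himg, Finset.card_image_of_injective _ hinj]
    set e := I.orderEmbOfFin hIc with he
    have hmem : ∀ a, dist (q (e a)) o = ρ := by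
      intro a
      apply hso
      apply hs'
      rw [← himg]
      exact Finset.mem_image_of_mem _ (Finset.orderEmbOfFin_mem I hIc a)
    exact P5 (e 0) (e 1) (e 2) (e 3) (e 4) (e.strictMono (by decide)) (e.strictMono (by decide))
      (e.strictMono (by decide)) (e.strictMono (by decide)) o ρ (hmem 0) (hmem 1) (hmem 2) (hmem 3)
      (hmem 4)

end BccO
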