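import Pool.Agent.MP_bf7174_co.O.R3
import Pool.Agent.MP_bf7174_co.O.Q3

/-!
# thinning, perturbation and the main counting inequality
-/

set_option autoImplicit false

open MeasureTheory Real
open scoped InnerProductSpace Pointwise Topology

namespace BccO

open BccCov BccCov.W2

/-- a maximal separated subset -/
theorem exists_sep (X : Set E3) : ∃ Y ⊆ X, (∀ x ∈ Y, ∀ y ∈ Y, x ≠ y → 0.02 ≤ dist x y) ∧
    ∀ x ∈ X, ∃ y ∈ Y, dist x y < 0.02 := by
  obtain ⟨Y, hY⟩ := zorn_subset {Y : Set E3 | Y ⊆ X ∧ ∀ x ∈ Y, ∀ y ∈ Y, x ≠ y → 0.02 ≤ dist x y} (by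
    intro c hc hchain
    refine ⟨⋃₀ c, ⟨?_, ?_⟩, fun s hs => Set.subset_sUnion_of_mem hs⟩
    · exact Set.sUnion_subset fun s hs => (hc hs).1
    · rintro x ⟨s, hs, hxs⟩ y ⟨s', hs', hys'⟩ hne
      rcases hchain.total hs hs' with h | h
      · exact (hc hs').2 x (h hxs) y hys' hne
      · exact (hc hs).2 x hxs y (h hys') hne)
  refine ⟨Y, hY.prop.1, hY.prop.2, fun x hx => ?_⟩
  by_contra hcon
  push Not at hcon
  have hxY : x ∉ Y := fun h => by
    have := hcon x h
    rw [dist_self] at this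
    norm_num at this
  have h1 : insert x Y ∈ {Y : Set E3 | Y ⊆ X ∧ ∀ x ∈ Y, ∀ y ∈ Y, x ≠ y → 0.02 ≤ dist x y} := by
    refine ⟨Set.insert_subset hx hY.prop.1, ?_⟩
    rintro a (rfl | ha) b (rfl | hb) hne
    · exact absurd rfl hne
    · exact hcon b hb
    · rw [dist_comm]; exact hcon a ha
    · exact hY.prop.2 a ha b hb hne
  have h2 := hY.le_of_ge h1 (Set.subset_insert _ _)
  exact hxY (h2 (Set.mem_insert _ _))

/-- enumeration of an infinite locally finite set -/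
theorem exists_enum {Y : Set E3} (hfin : ∀ R : ℝ, (Y ∩ Metric.closedBall (0 : E3) R).Finite) {R0 : ℝ}
    (hcov : ∀ p : E3, ∃ x ∈ Y, dist p x ≤ R0) : ∃ p : ℕ → E3, Function.Injective p ∧ Set.range p = Y := by
  have hinf : Y.Infinite := by
    intro hY
    obtain ⟨C, hC⟩ := hY.isBounded.exists_norm_le
    obtain ⟨x, hx, hd⟩ := hcov (EuclideanSpace.single 0 (|C| + |R0| + 1))
    have h1 := hC x hx
    have h2 : ‖(EuclideanSpace.single 0 (|C| + |R0| + 1) : E3)‖ = |C| + |R0| + 1 := by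
      rw [EuclideanSpace.norm_single, norm_eq_abs, abs_of_pos (by positivity)]
    have h3 := dist_triangle (EuclideanSpace.single 0 (|C| + |R0| + 1) : E3) x 0
    rw [dist_zero_right, dist_zero_right, h2] at h3
    have h4 := le_abs_self C
    have h5 := le_abs_self R0
    linarith
  have hcount : Y.Countable := by
    have : Y = ⋃ n : ℕ, Y ∩ Metric.closedBall (0 : E3) n := by
      ext y
      simp only [Set.mem_iUnion, Set.mem_inter_iff, mem_closedBall_zero_iff]
      constructor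
      · intro hy
        obtain ⟨n, hn⟩ := exists_nat_ge ‖y‖
        exact ⟨n, hy, hn⟩
      · rintro ⟨n, hy, _⟩
        exact hy
    rw [this]
    exact Set.countable_iUnion fun n => (hfin n).countable
  have := hcount.to_subtype
  have := hinf.to_subtype
  obtain ⟨e⟩ : Nonempty (ℕ ≃ Y) := nonempty_equiv_of_countable
  refine ⟨fun n => (e n : E3), fun a b h => e.injective (Subtype.ext h), ?_⟩
  ext y
  constructor
  · rintro ⟨n, rfl⟩
    exact (e n).2
  · intro hy
    exact ⟨e.symm ⟨y, hy⟩, by simp⟩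

/-- volume of tetrahedra with a common nearby point -/
lemma vol_near {X : Set E3} {D : Set (Finset E3)} (hT : IsTriangulation X D) (x : E3)
    (s : Finset (Finset E3)) (hs : ∀ t ∈ s, t ∈ D ∧ ∀ y ∈ t, dist y x ≤ 2.02) :
    ∑ t ∈ s, vol t ≤ 4 / 3 * π * 2.02 ^ 3 := by
  classical
  have hvfin : ∀ t : Finset E3, volume (convexHull ℝ (t : Set E3)) ≠ ⊤ := fun t =>
    (Set.Finite.isCompact_convexHull ℝ t.finite_toSet).measure_lt_top.ne
  unfold vol
  rw [← ENNReal.toReal_sum fun t _ => hvfin t]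
  have h1 : ∑ t ∈ s, volume (convexHull ℝ (t : Set E3)) ≤ volume (Metric.closedBall x 2.02) := by
    rw [← measure_biUnion_finset₀]
    · apply measure_mono
      refine Set.iUnion₂_subset fun t ht => ?_
      refine convexHull_min ?_ (convex_closedBall x _)
      intro y hy
      exact Metric.mem_closedBall.2 ((hs t ht).2 y hy)
    · intro t ht t' ht' hne
      exact null_inter hT t t' (hs t ht).1 (hs t' ht').1 hne
    · intro t _
      exact (Set.Finite.isCompact_convexHull ℝ t.finite_toSet).isClosed.measurableSet.nullMeasurableSet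
  have h2 : volume (Metric.closedBall x 2.02) = ENNReal.ofReal (4 / 3 * π * 2.02 ^ 3) := by
    rw [EuclideanSpace.volume_closedBall_fin_three, ← ENNReal.ofReal_pow (by norm_num),
      ← ENNReal.ofReal_mul (by norm_num)]
    congr 1
    ring
  rw [h2] at h1
  have h3 := ENNReal.toReal_mono ENNReal.ofReal_ne_top h1
  rwa [ENNReal.toReal_ofReal (by positivity)] at h3

theorem main_count {X : Set E3} (hfin : ∀ R : ℝ, (X ∩ Metric.closedBall (0 : E3) R).Finite)
    (hcov : ∀ p : E3, ∃ x ∈ X, dist p x ≤ 0.999999) : ∃ B : ℝ, 0 ≤ B ∧ ∀ R : ℝ, 0 ≤ R →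
      4 / 3 * π * R ^ 3 ≤ 4 * π * kap / (1 + eps) * NN X (R + 6) +
        B * (NN X (R + 6) - NN X R) := by
  classical
  have hpi := pi_pos
  have he0 := eps_lb
  have hk := kap_lb
  have hom := om_pos
  obtain ⟨Y, hYX, hYsep, hYcov⟩ := exists_sep X
  have hYfin : ∀ R : ℝ, (Y ∩ Metric.closedBall (0 : E3) R).Finite := fun R =>
    (hfin R).subset (Set.inter_subset_inter_left _ hYX)
  have hYcov' : ∀ p : E3, ∃ x ∈ Y, dist p x ≤ 1.019999 := by
    intro p
    obtain ⟨x, hx, hpx⟩ := hcov p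
    obtain ⟨y, hy, hxy⟩ := hYcov x hx
    refine ⟨y, hy, ?_⟩
    have := dist_triangle p x y
    linarith
  obtain ⟨p, hpinj, hpr⟩ := exists_enum hYfin hYcov'
  obtain ⟨q, hqp, hqinj, hG⟩ := exists_gen p (δ := 0.000001) (by norm_num)
  have hpY : ∀ n, p n ∈ Y := fun n => by rw [← hpr]; exact ⟨n, rfl⟩
  set Z := Set.range q with hZ
  -- norms
  have hnorm : ∀ n, |‖q n‖ - ‖p n‖| ≤ 0.000001 := fun n => by
    have h1 := abs_norm_sub_norm_le (q n) (p n)
    rw [← dist_eq_norm] at h1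
    exact h1.trans (hqp n)
  have hZfin : ∀ R : ℝ, (Z ∩ Metric.closedBall (0 : E3) R).Finite := by
    intro R
    have h1 : (p ⁻¹' (Y ∩ Metric.closedBall (0 : E3) (R + 1))).Finite :=
      (hYfin (R + 1)).preimage hpinj.injOn
    refine (h1.image q).subset ?_
    rintro _ ⟨⟨n, rfl⟩, hn⟩
    refine ⟨n, ⟨hpY n, ?_⟩, rfl⟩
    rw [mem_closedBall_zero_iff] at hn ⊢
    have := (abs_le.1 (hnorm n)).1
    linarith
  have hZcov : ∀ c : E3, ∃ x ∈ Z, dist c x ≤ 1.02 := by
    intro c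
    obtain ⟨y, hy, hcy⟩ := hYcov' c
    rw [← hpr] at hy
    obtain ⟨n, rfl⟩ := hy
    refine ⟨q n, ⟨n, rfl⟩, ?_⟩
    have h1 := dist_triangle c (p n) (q n)
    have h2 := hqp n
    rw [dist_comm] at h2
    linarith
  have hZsep : ∀ x ∈ Z, ∀ y ∈ Z, x ≠ y → 0.0195 ≤ dist x y := by
    rintro _ ⟨m, rfl⟩ _ ⟨n, rfl⟩ hne
    have hmn : p m ≠ p n := fun h => hne (by rw [hpinj h])
    have h1 := hYsep _ (hpY m) _ (hpY n) hmn
    have h2 := dist_triangle (p m) (q m) (p n)
    have h3 := dist_triangle (q m) (q n) (p n)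
    have h4 := hqp m
    have h5 := hqp n
    rw [dist_comm] at h4
    linarith
  -- the triangulation
  obtain ⟨hT, hsph⟩ := Del_tri hG hZfin hZcov
  have hI : ∀ t ∈ Del Z, Inscribed t 1.02 := by
    intro t ht
    obtain ⟨o, ρ, h1, h2, -⟩ := hsph t ht
    exact ⟨o, ρ, h1, h2⟩
  obtain ⟨M, hM⟩ := star_bound hT hI (by norm_num) hZfin (s := 0.00975) (by norm_num) (by
    intro x hx y hy hne
    have := hZsep x hx y hy hne
    linarith)
  -- chosen spheres
  have hch : ∀ t : Finset E3, ∃ (o : E3) (ρ : ℝ), t ∈ Del Z → ρ ≤ 1.02 ∧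
      (∀ x ∈ t, dist x o = ρ) ∧ ∀ x ∈ Z, x ∉ t → ρ < dist x o := by
    intro t
    by_cases ht : t ∈ Del Z
    · obtain ⟨o, ρ, h⟩ := hsph t ht
      exact ⟨o, ρ, fun _ => h⟩
    · exact ⟨0, 0, fun h => absurd h ht⟩
  choose o ρ hoρ using hch
  -- charged points
  have hchx : ∀ t : Finset E3, ∃ x : E3, t ∈ Del Z → 1 < ρ t → x ∈ X ∧ x ∉ Y ∧ dist x (o t) ≤ 1 := by
    intro t
    by_cases ht : t ∈ Del Z ∧ 1 < ρ t
    · obtain ⟨x, hx, hxo⟩ := hcov (o t)
      rw [dist_comm] at hxo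
      refine ⟨x, fun _ _ => ⟨hx, fun hxY => ?_, by linarith⟩⟩
      rw [← hpr] at hxY
      obtain ⟨n, rfl⟩ := hxY
      have h1 : ρ t ≤ dist (q n) (o t) := by
        by_cases hq : q n ∈ t
        · exact ((hoρ t ht.1).2.1 _ hq).ge
        · exact ((hoρ t ht.1).2.2 _ ⟨n, rfl⟩ hq).le
      have h2 := dist_triangle (q n) (p n) (o t)
      have h3 := hqp n
      have h4 := ht.2
      linarith
    · exact ⟨0, fun h1 h2 => absurd ⟨h1, h2⟩ ht⟩
  choose ch hchs using hchx
  refine ⟨al * (6 * om * M) / (1 + eps), by unfold al; positivity, fun R hR => ?_⟩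
  obtain ⟨T, hTm, hV, hS, hE⟩ := counting2 (by norm_num : (0 : ℝ) < 1.02) hT hI hZfin hM om hom.le wtt
    (fun _ _ => wtt_le) (fun m s hm hmD hs => wtt_edge hT hI hZfin m s hm hmD hs) (R + 1)
  have hTD : ∀ t ∈ T, t ∈ Del Z := fun t ht => ((hTm t).1 ht).1
  -- point sets
  have hfX := hfin (R + 6)
  set X1 : Finset E3 := (hfin (R + 6)).toFinset with hX1
  set X0 : Finset E3 := (hfin R).toFinset with hX0
  have hX1m : ∀ x, x ∈ X1 ↔ x ∈ X ∧ ‖x‖ ≤ R + 6 := by
    intro x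
    simp only [X1, Set.Finite.mem_toFinset, Set.mem_inter_iff, mem_closedBall_zero_iff]
  have hX0m : ∀ x, x ∈ X0 ↔ x ∈ X ∧ ‖x‖ ≤ R := by
    intro x
    simp only [X0, Set.Finite.mem_toFinset, Set.mem_inter_iff, mem_closedBall_zero_iff]
  have hN1 : NN X (R + 6) = X1.card := Set.ncard_eq_toFinset_card _ (hfin (R + 6))
  have hN0 : NN X R = X0.card := Set.ncard_eq_toFinset_card _ (hfin R)
  have hX01 : X0 ⊆ X1 := by
    intro x hx
    rw [hX0m] at hx
    rw [hX1m]
    exact ⟨hx.1, by linarith [hx.2]⟩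
  have hcX : (X1 \ X0).card + X0.card = X1.card := Finset.card_sdiff_add_card_eq_card hX01
  set Z1 : Finset E3 := (hZfin (R + 1 + 4 * 1.02)).toFinset with hZ1
  set Z0 : Finset E3 := (hZfin (R + 1)).toFinset with hZ0
  have hZ1m : ∀ x, x ∈ Z1 ↔ x ∈ Z ∧ ‖x‖ ≤ R + 1 + 4 * 1.02 := by
    intro x
    simp only [Z1, Set.Finite.mem_toFinset, Set.mem_inter_iff, mem_closedBall_zero_iff]
  have hZ0m : ∀ x, x ∈ Z0 ↔ x ∈ Z ∧ ‖x‖ ≤ R + 1 := by
    intro x
    simp only [Z0, Set.Finite.mem_toFinset, Set.mem_inter_iff, mem_closedBall_zero_iff]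
  have hM1 : NN Z (R + 1 + 4 * 1.02) = Z1.card := Set.ncard_eq_toFinset_card _ (hZfin _)
  have hM0 : NN Z (R + 1) = Z0.card := Set.ncard_eq_toFinset_card _ (hZfin _)
  have hZ01 : Z0 ⊆ Z1 := by
    intro x hx
    rw [hZ0m] at hx
    rw [hZ1m]
    exact ⟨hx.1, by linarith [hx.2]⟩
  have hcZ : (Z1 \ Z0).card + Z0.card = Z1.card := Finset.card_sdiff_add_card_eq_card hZ01
  -- the map back
  set g : E3 → E3 := fun z => p (Function.invFun q z) with hg
  have hgq : ∀ n, g (q n) = p n := fun n => by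
    simp only [hg]
    rw [Function.leftInverse_invFun hqinj n]
  have hginj : Set.InjOn g Z := by
    rintro _ ⟨m, rfl⟩ _ ⟨n, rfl⟩ h
    rw [hgq, hgq] at h
    rw [hpinj h]
  have hZX : Z1.card ≤ (X1.filter (fun x => x ∈ Y)).card := by
    refine Finset.card_le_card_of_injOn g ?_ (hginj.mono fun z hz => ((hZ1m z).1 hz).1)
    intro z hz
    obtain ⟨⟨n, rfl⟩, hn⟩ := (hZ1m z).1 hz
    rw [hgq, Finset.mem_coe, Finset.mem_filter, hX1m]
    refine ⟨⟨hYX (hpY n), ?_⟩, hpY n⟩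
    have := (abs_le.1 (hnorm n)).1
    linarith
  have hZX2 : (Z1 \ Z0).card ≤ (X1 \ X0).card := by
    refine Finset.card_le_card_of_injOn g ?_ (hginj.mono fun z hz => ?_)
    · intro z hz
      rw [Finset.mem_coe, Finset.mem_sdiff] at hz
      obtain ⟨⟨n, rfl⟩, hn⟩ := (hZ1m z).1 hz.1
      rw [hgq, Finset.mem_coe, Finset.mem_sdiff, hX1m, hX0m]
      have h1 := (abs_le.1 (hnorm n)).1
      have h2 := (abs_le.1 (hnorm n)).2
      refine ⟨⟨hYX (hpY n), by linarith⟩, fun h => hz.2 ((hZ0m _).2 ⟨⟨n, rfl⟩, by linarith [h.2]⟩)⟩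
    · rw [Finset.mem_coe, Finset.mem_sdiff] at hz
      exact ((hZ1m z).1 hz.1).1
  have hXsplit : (X1.filter (fun x => x ∈ Y)).card + (X1.filter (fun x => ¬ x ∈ Y)).card = X1.card :=
    Finset.card_filter_add_card_filter_not _
  -- summing the inequality
  have hsum : ∑ t ∈ T, (1 + eps) * vol t ≤ ∑ t ∈ T, (kap * tSS t +
      al * ∑ m ∈ t.powersetCard 2, wtt t m + (if 1 < ρ t then 0.0577 * vol t else 0)) := by
    refine Finset.sum_le_sum fun t ht => ?_
    obtain ⟨h1, h2, -⟩ := hoρ t (hTD t ht)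
    exact TI_fin (hT.card_eq t (hTD t ht)) (hT.indep t (hTD t ht)) h2 h1
      (fun x hx y hy hne => hZsep x (hT.vertices t (hTD t ht) x hx) y (hT.vertices t (hTD t ht) y hy) hne)
  rw [← Finset.mul_sum, Finset.sum_add_distrib, Finset.sum_add_distrib, ← Finset.mul_sum,
    ← Finset.mul_sum, ← Finset.sum_filter, ← Finset.mul_sum] at hsum
  -- the charged volume
  have hbad : ∑ t ∈ T.filter (fun t => 1 < ρ t), vol t ≤
      (X1.filter (fun x => ¬ x ∈ Y)).card * (4 / 3 * π * 2.02 ^ 3) := by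
    have hmaps : ∀ t ∈ T.filter (fun t => 1 < ρ t), ch t ∈ X1.filter (fun x => ¬ x ∈ Y) := by
      intro t ht
      rw [Finset.mem_filter] at ht
      obtain ⟨htT, hρt⟩ := ht
      obtain ⟨htD, u, hu, hun⟩ := (hTm t).1 htT
      obtain ⟨c1, c2, c3⟩ := hchs t htD hρt
      obtain ⟨h1, h2, -⟩ := hoρ t htD
      rw [Finset.mem_filter, hX1m]
      refine ⟨⟨c1, ?_⟩, c2⟩
      have h3 := h2 u hu
      have h4 := dist_triangle (ch t) (o t) u
      rw [dist_comm (o t) u] at h4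
      have h5 : ‖ch t‖ ≤ dist (ch t) u + ‖u‖ := by
        have := dist_triangle (ch t) u 0
        rwa [dist_zero_right, dist_zero_right] at this
      linarith
    rw [← Finset.sum_fiberwise_of_maps_to hmaps]
    refine (Finset.sum_le_card_nsmul _ _ (4 / 3 * π * 2.02 ^ 3) fun x _ => ?_).trans (le_of_eq ?_)
    · apply vol_near hT x
      intro t ht
      rw [Finset.mem_filter, Finset.mem_filter] at ht
      obtain ⟨⟨htT, hρt⟩, hx⟩ := ht
      have htD := hTD t htT
      obtain ⟨c1, c2, c3⟩ := hchs t htD hρt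
      obtain ⟨h1, h2, -⟩ := hoρ t htD
      refine ⟨htD, fun y hy => ?_⟩
      rw [← hx]
      have h4 := dist_triangle y (o t) (ch t)
      rw [dist_comm (o t) (ch t)] at h4
      have h5 := h2 y hy
      linarith
    · rw [nsmul_eq_mul]
  -- conclusion
  have hvball : (volume (Metric.closedBall (0 : E3) (R + 1))).toReal = 4 / 3 * π * (R + 1) ^ 3 := by
    rw [EuclideanSpace.volume_closedBall_fin_three, ← ENNReal.ofReal_pow (by positivity),
      ← ENNReal.ofReal_mul (by positivity), ENNReal.toReal_ofReal (by positivity)]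
    ring
  rw [hvball] at hV
  rw [hM1] at hS
  rw [hM1, hM0] at hE
  have f1 : (Z1.card : ℝ) ≤ (X1.filter (fun x => x ∈ Y)).card := by exact_mod_cast hZX
  have f2 : ((Z1 \ Z0).card : ℝ) ≤ (X1 \ X0).card := by exact_mod_cast hZX2
  have f3 : ((Z1 \ Z0).card : ℝ) + Z0.card = Z1.card := by exact_mod_cast hcZ
  have f4 : ((X1 \ X0).card : ℝ) + X0.card = X1.card := by exact_mod_cast hcX
  have f5 : ((X1.filter (fun x => x ∈ Y)).card : ℝ) + (X1.filter (fun x => ¬ x ∈ Y)).card = X1.card := by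
    exact_mod_cast hXsplit
  set a : ℝ := ((X1.filter (fun x => x ∈ Y)).card : ℝ) with ha
  set b : ℝ := ((X1.filter (fun x => ¬ x ∈ Y)).card : ℝ) with hb
  have hb0 : 0 ≤ b := Nat.cast_nonneg _
  have g1 : kap * ∑ t ∈ T, tSS t ≤ kap * (4 * π * a) :=
    mul_le_mul_of_nonneg_left (hS.trans (mul_le_mul_of_nonneg_left f1 (by positivity))) (by linarith)
  have g2 : al * ∑ t ∈ T, ∑ m ∈ t.powersetCard 2, wtt t m ≤ al * (6 * om * M * (X1.card - X0.card)) := by
    apply mul_le_mul_of_nonneg_left _ (by unfold al; norm_num)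
    refine hE.trans (mul_le_mul_of_nonneg_left (by linarith) (by positivity))
  have g3 : 0.0577 * ∑ t ∈ T.filter (fun t => 1 < ρ t), vol t ≤ kap * (4 * π * b) := by
    have h1 : 0.0577 * ∑ t ∈ T.filter (fun t => 1 < ρ t), vol t ≤ 0.0577 * (b * (4 / 3 * π * 2.02 ^ 3)) :=
      mul_le_mul_of_nonneg_left hbad (by norm_num)
    refine h1.trans ?_
    have h2 : (0.2327 : ℝ) * (4 * π * b) ≤ kap * (4 * π * b) :=
      mul_le_mul_of_nonneg_right hk (by positivity)
    refine le_trans ?_ h2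
    have h3 : 0 ≤ π * b := by positivity
    nlinarith
  have g4 : (1 + eps) * (4 / 3 * π * (R + 1) ^ 3) ≤ (1 + eps) * ∑ t ∈ T, vol t :=
    mul_le_mul_of_nonneg_left hV (by linarith)
  have g5 : 4 / 3 * π * R ^ 3 ≤ 4 / 3 * π * (R + 1) ^ 3 :=
    mul_le_mul_of_nonneg_left (pow_le_pow_left₀ hR (by linarith) 3) (by positivity)
  have g6 : (1 + eps) * (4 / 3 * π * R ^ 3) ≤ (1 + eps) * (4 / 3 * π * (R + 1) ^ 3) :=
    mul_le_mul_of_nonneg_left g5 (by linarith)
  rw [hN1, hN0]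
  have h1e : 0 < 1 + eps := by linarith
  have hfinal : (1 + eps) * (4 / 3 * π * R ^ 3) ≤ 4 * π * kap * X1.card +
      al * (6 * om * M) * (X1.card - X0.card) := by
    have e1 : 4 * π * kap * X1.card = kap * (4 * π * a) + kap * (4 * π * b) := by
      rw [← f5]; ring
    rw [e1]
    have e2 : al * (6 * om * M * ((X1.card : ℝ) - X0.card)) = al * (6 * om * M) * (X1.card - X0.card) := by
      ring
    rw [e2] at g2
    linarith
  have e3 : 4 * π * kap / (1 + eps) * X1.card + al * (6 * om * M) / (1 + eps) * (X1.card - X0.card) =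
    (4 * π * kap * X1.card + al * (6 * om * M) * (X1.card - X0.card)) / (1 + eps) := by
    field_simp
  rw [e3, le_div_iff₀ h1e, mul_comm]
  exact hfinal

end BccO
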