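import Pool.Agent.MP_bf7174_co.O.R4
import Pool.Agent.MP_bf7174_co.L
import Pool.Agent.MP_bf7174_co.E

/-!
# the lower bound for the density
-/

set_option autoImplicit false

open MeasureTheory Real
open scoped InnerProductSpace Pointwise Topology

namespace BccO

open BccCov BccCov.W2

lemma Sr_lb' : (2.20514 : ℝ) ≤ Sr := by
  have h := cos_ge10 (x := 1.2309593) (by norm_num)
  have h1 : (1 / 3 : ℝ) ≤ cos 1.2309593 := le_trans (by norm_num) h
  have h2 := arccos_le_arccos h1
  rw [arccos_cos (by norm_num) (by linarith [pi_gt_three])] at h2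
  have h3 := pi_lt_d20
  unfold Sr
  norm_num at h2 h3 ⊢
  linarith

lemma Vr_ub' : Vr ≤ (0.5132003 : ℝ) := by
  unfold Vr
  have : √3 ≤ (1.7320509 : ℝ) := by
    rw [sqrt_le_left (by norm_num)]; norm_num
  linarith

/-- the counting constant -/
noncomputable def KK : ℝ := 4 * π * kap / (1 + eps) / 0.999999 ^ 3

lemma KK_pos : 0 < KK := by
  unfold KK
  have := eps_lb
  have := kap_lb
  have := pi_pos
  have : 0 < 1 + eps := by linarith
  have : 0 < kap := by linarith
  positivity

lemma KK_le : 1.4324 * KK ≤ 4 / 3 * π := by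
  have he := eps_lb
  have h1 : 0 < 1 + eps := by linarith
  have hS := Sr_lb'
  have hV := Vr_ub'
  have hV0 := Vr_pos
  have hpi := pi_pos
  have h2 : 1.4324 * (3 * Vr) ≤ (1 + eps) * 0.999999 ^ 3 * Sr := by
    have h3 : (1.00009 : ℝ) * 0.999999 ^ 3 * 2.20514 ≤ (1 + eps) * 0.999999 ^ 3 * Sr := by
      gcongr
      linarith
    refine le_trans ?_ h3
    norm_num at hV ⊢
    linarith
  have h4 : KK = 4 / 3 * π * (3 * Vr / ((1 + eps) * 0.999999 ^ 3 * Sr)) := by
    unfold KK kap
    have := Sr_pos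
    field_simp
  have h5 : 0 < (1 + eps) * 0.999999 ^ 3 * Sr := mul_pos (by positivity) Sr_pos
  rw [h4]
  have h6 : 1.4324 * (3 * Vr / ((1 + eps) * 0.999999 ^ 3 * Sr)) ≤ 1 := by
    rw [mul_div_assoc', div_le_one h5]
    exact h2
  calc 1.4324 * (4 / 3 * π * (3 * Vr / ((1 + eps) * 0.999999 ^ 3 * Sr))) =
        4 / 3 * π * (1.4324 * (3 * Vr / ((1 + eps) * 0.999999 ^ 3 * Sr))) := by ring
    _ ≤ 4 / 3 * π * 1 := mul_le_mul_of_nonneg_left h6 (by positivity)
    _ = _ := by ring

theorem density_of_bound' (X : Set E3) (r : ℝ) (hr : 0 < r) (K θ : ℝ) (hK : 0 < K) (hθ : 0 < θ)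
    (hKθ : θ * K ≤ 4 / 3 * π)
    (h : (∀ R : ℝ, (X ∩ Metric.closedBall (0 : E3) R).Finite) → ∀ η : ℝ, K * r ^ 3 * η < 1 →
      ∀ᶠ R in Filter.atTop, η * (4 / 3 * Real.pi * R ^ 3) ≤ NN X R) :
    ENNReal.ofReal θ ≤
      Filter.liminf
        (fun R : ℝ =>
          ENat.toENNReal (X ∩ Metric.closedBall (0 : EuclideanSpace ℝ (Fin 3)) R).encard *
            MeasureTheory.volume (Metric.closedBall (0 : EuclideanSpace ℝ (Fin 3)) r) /
            MeasureTheory.volume (Metric.closedBall (0 : EuclideanSpace ℝ (Fin 3)) R))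
        Filter.atTop := by
  have hpi := Real.pi_pos
  have hvr : 0 < 4 / 3 * Real.pi * r ^ 3 := by positivity
  by_cases hfin : ∀ R : ℝ, (X ∩ Metric.closedBall (0 : E3) R).Finite
  · refine le_of_forall_lt fun c hc => ?_
    -- choose `q` between
    obtain ⟨c', hcc', hc'⟩ := exists_between hc
    refine lt_of_lt_of_le hcc' ?_
    have hc'top : c' ≠ ⊤ := (hc'.trans ENNReal.ofReal_lt_top).ne
    set q : ℝ := c'.toReal with hq
    have hq0 : 0 ≤ q := ENNReal.toReal_nonneg
    have hcq : c' = ENNReal.ofReal q := (ENNReal.ofReal_toReal hc'top).symm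
    have hqlt : q < θ := by
      rw [hcq] at hc'
      exact (ENNReal.ofReal_lt_ofReal_iff hθ).1 hc'
    set η : ℝ := q / (4 / 3 * Real.pi * r ^ 3) with hη
    have hη1 : K * r ^ 3 * η < 1 := by
      have e1 : K * r ^ 3 * η = K * q / (4 / 3 * π) := by
        rw [hη]
        field_simp
      rw [e1, div_lt_one (by positivity)]
      have e2 : K * q < K * θ := mul_lt_mul_of_pos_left hqlt hK
      linarith
    refine Filter.le_liminf_of_le (by isBoundedDefault) ?_
    filter_upwards [h hfin η hη1, Filter.eventually_gt_atTop 0] with R hR hR0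
    have hvR : 0 < 4 / 3 * Real.pi * R ^ 3 := by positivity
    have hcard : ENat.toENNReal (X ∩ Metric.closedBall (0 : EuclideanSpace ℝ (Fin 3)) R).encard =
        ENNReal.ofReal (NN X R) := by
      rw [← (hfin R).cast_ncard_eq, ENNReal.ofReal_natCast]
      rfl
    rw [hcard, BccCov.E.vol_ball r hr.le, BccCov.E.vol_ball R hR0.le,
      ← ENNReal.ofReal_mul (Nat.cast_nonneg _), ← ENNReal.ofReal_div_of_pos hvR, hcq]
    refine ENNReal.ofReal_le_ofReal ?_
    rw [le_div_iff₀ hvR]
    have e4 : η * (4 / 3 * Real.pi * r ^ 3) = q := div_mul_cancel₀ q hvr.ne'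
    calc q * (4 / 3 * Real.pi * R ^ 3)
        = (η * (4 / 3 * Real.pi * R ^ 3)) * (4 / 3 * Real.pi * r ^ 3) := by rw [← e4]; ring
      _ ≤ NN X R * (4 / 3 * Real.pi * r ^ 3) := mul_le_mul_of_nonneg_right hR hvr.le
  · push Not at hfin
    obtain ⟨R₀, hR₀⟩ := hfin
    refine Filter.le_liminf_of_le (by isBoundedDefault) ?_
    filter_upwards [Filter.eventually_ge_atTop R₀, Filter.eventually_gt_atTop 0] with R hR hR0
    have hinf : (X ∩ Metric.closedBall (0 : EuclideanSpace ℝ (Fin 3)) R).Infinite :=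
      hR₀.mono (Set.inter_subset_inter_right _ (Metric.closedBall_subset_closedBall hR))
    rw [hinf.encard_eq, ENat.toENNReal_top, BccCov.E.vol_ball r hr.le, BccCov.E.vol_ball R hR0.le]
    have h1 : ENNReal.ofReal (4 / 3 * Real.pi * r ^ 3) ≠ 0 := by
      rw [Ne, ENNReal.ofReal_eq_zero, not_le]; exact hvr
    rw [ENNReal.top_mul h1, ENNReal.top_div_of_ne_top ENNReal.ofReal_ne_top]
    exact le_top

theorem covering_bound (C : Set E3) (r : ℝ) (hr : 0 < r)
    (hC : (⋃ c ∈ C, Metric.closedBall c r) = Set.univ) :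
    (∀ R : ℝ, (C ∩ Metric.closedBall (0 : E3) R).Finite) → ∀ η : ℝ, KK * r ^ 3 * η < 1 →
      ∀ᶠ R in Filter.atTop, η * (4 / 3 * Real.pi * R ^ 3) ≤ NN C R := by
  intro hfin η hη
  have hpi := pi_pos
  obtain ⟨c, hcdef⟩ : ∃ c : ℝ, c = 0.999999 / r := ⟨_, rfl⟩
  have hc : 0 < c := by rw [hcdef]; positivity
  set X : Set E3 := (fun v => c • v) '' C with hX
  have hinj : Function.Injective (fun v : E3 => c • v) := smul_right_injective E3 hc.ne'
  have hball : ∀ R : ℝ, X ∩ Metric.closedBall (0 : E3) (c * R) =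
      (fun v => c • v) '' (C ∩ Metric.closedBall (0 : E3) R) := by
    intro R
    ext v
    constructor
    · rintro ⟨⟨u, hu, rfl⟩, hv⟩
      refine ⟨u, ⟨hu, ?_⟩, rfl⟩
      rw [mem_closedBall_zero_iff] at hv ⊢
      rw [norm_smul, norm_eq_abs, abs_of_pos hc] at hv
      exact le_of_mul_le_mul_left hv hc
    · rintro ⟨u, ⟨hu, hv⟩, rfl⟩
      refine ⟨⟨u, hu, rfl⟩, ?_⟩
      rw [mem_closedBall_zero_iff] at hv ⊢
      rw [norm_smul, norm_eq_abs, abs_of_pos hc]
      exact mul_le_mul_of_nonneg_left hv hc.le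
  have hXfin : ∀ R : ℝ, (X ∩ Metric.closedBall (0 : E3) R).Finite := by
    intro R
    have e : R = c * (R / c) := by field_simp
    rw [e, hball]
    exact (hfin _).image _
  have hNN : ∀ R : ℝ, NN C R = NN X (c * R) := by
    intro R
    unfold NN
    rw [hball, Set.ncard_image_of_injective _ hinj]
  have hXcov : ∀ p : E3, ∃ x ∈ X, dist p x ≤ 0.999999 := by
    intro p
    have h1 : c⁻¹ • p ∈ ⋃ c ∈ C, Metric.closedBall c r := by rw [hC]; trivial
    rw [Set.mem_iUnion₂] at h1
    obtain ⟨u, hu, hpu⟩ := h1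
    refine ⟨c • u, ⟨u, hu, rfl⟩, ?_⟩
    rw [Metric.mem_closedBall] at hpu
    have e : p = c • (c⁻¹ • p) := by rw [smul_smul, mul_inv_cancel₀ hc.ne', one_smul]
    rw [e, dist_smul' hc]
    have h2 : c * dist (c⁻¹ • p) u ≤ c * r := mul_le_mul_of_nonneg_left hpu hc.le
    have h3 : c * r = 0.999999 := by rw [hcdef]; field_simp
    linarith
  obtain ⟨B, hB, hmain⟩ := main_count hXfin hXcov
  have he := eps_lb
  have hk := kap_lb
  have h1e : 0 < 1 + eps := by linarith
  have hA : 0 < 4 * π * kap / (1 + eps) := by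
    have : 0 < kap := by linarith
    positivity
  have hmono : Monotone (NN X) := by
    intro a b hab
    exact Set.ncard_le_ncard (Set.inter_subset_inter_right _ (Metric.closedBall_subset_closedBall hab))
      (hXfin b)
  have hL := lower_density (NN X) hmono (4 * π * kap / (1 + eps)) B 6 hA hB (by norm_num) hmain
    (η * r ^ 3 / 0.999999 ^ 3) (by
      have : 4 * π * kap / (1 + eps) * (η * r ^ 3 / 0.999999 ^ 3) = KK * r ^ 3 * η := by
        unfold KK; ring
      rw [this]; exact hη)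
  have htend : Filter.Tendsto (fun R : ℝ => c * R) Filter.atTop Filter.atTop :=
    Filter.tendsto_id.const_mul_atTop hc
  filter_upwards [htend.eventually hL] with R hR
  rw [hNN]
  refine le_trans (le_of_eq ?_) hR
  have h3 : c * r = 0.999999 := by rw [hcdef]; field_simp
  have h4 : r ^ 3 * c ^ 3 = 0.999999 ^ 3 := by rw [← h3]; ring
  have h5 : η * r ^ 3 / 0.999999 ^ 3 * (4 / 3 * π * (c * R) ^ 3) =
    η * (4 / 3 * π * R ^ 3) * ((r ^ 3 * c ^ 3) / 0.999999 ^ 3) := by ring
  rw [h5, h4, div_self (by norm_num), mul_one]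

/-- **every covering of three-space by equal balls has lower density at least `1.4324`** -/
theorem density_bound (C : Set E3) (r : ℝ) (hr : 0 < r)
    (hC : (⋃ c ∈ C, Metric.closedBall c r) = Set.univ) :
    ENNReal.ofReal 1.4324 ≤
      Filter.liminf
        (fun R : ℝ =>
          ENat.toENNReal (C ∩ Metric.closedBall (0 : EuclideanSpace ℝ (Fin 3)) R).encard *
            MeasureTheory.volume (Metric.closedBall (0 : EuclideanSpace ℝ (Fin 3)) r) /
            MeasureTheory.volume (Metric.closedBall (0 : EuclideanSpace ℝ (Fin 3)) R))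
        Filter.atTop :=
  density_of_bound' C r hr KK 1.4324 KK_pos (by norm_num) KK_le (covering_bound C r hr hC)

end BccO
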