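import Pool.Agent.MP_bf7174_co.O.T1

/-!
# the one-variable inequality for tetragonal disphenoids
-/

set_option autoImplicit false

open Real

namespace BccO

/-- `4 arccos (1 - 2 τ) + 8 arccos τ - 4 π` minus the bound, `τ = (1+m)/(3(1-m))` -/
noncomputable def psi1 (m : ℝ) : ℝ :=
  4 * arccos (1 - 2 * ((1 + m) / (3 * (1 - m)))) + 8 * arccos ((1 + m) / (3 * (1 - m))) - 4 * π
    - Sr * ((1 + m) * (1 + m ^ 2 / 2) * √(1 - 2 * m))

noncomputable def dpsi1 (m : ℝ) : ℝ :=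
  8 / ((1 - m) * √(1 - 2 * m)) * (1 / √(2 + 2 * m) - 1 / √(2 - m))
    - Sr * ((1 + m + 3 / 2 * m ^ 2) * √(1 - 2 * m) - (1 + m) * (1 + m ^ 2 / 2) / √(1 - 2 * m))

lemma sqrt_of_sq {X Y : ℝ} (hY : 0 ≤ Y) (h : Y ^ 2 = X) : √X = Y := by
  rw [← h, sqrt_sq hY]

lemma hasDeriv_psi1 {m : ℝ} (h1 : -(1 / 3 : ℝ) < m) (h2 : m < 1 / 3) : HasDerivAt psi1 (dpsi1 m) m := by
  have hm1 : 0 < 1 - m := by linarith
  have hs2 : 0 < 1 - 2 * m := by linarith
  have hA2 : 0 < 2 - m := by linarith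
  have hB2 : 0 < 2 + 2 * m := by linarith
  set τ : ℝ → ℝ := fun m => (1 + m) / (3 * (1 - m)) with hτ
  have hτd : HasDerivAt τ (2 / (3 * (1 - m) ^ 2)) m := by
    have e1 : HasDerivAt (fun m : ℝ => 1 + m) 1 m := (hasDerivAt_id m).const_add 1
    have e2 : HasDerivAt (fun m : ℝ => 3 * (1 - m)) (3 * -1) m :=
      ((hasDerivAt_id m).const_sub 1).const_mul 3
    refine (e1.div e2 (by positivity)).congr_deriv ?_
    field_simp
    ring
  have hτ0 : 0 < τ m := by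
    simp only [hτ]
    exact div_pos (by linarith) (by positivity)
  have hτ1 : τ m < 1 := by
    simp only [hτ]
    rw [div_lt_one (by positivity)]
    linarith
  have ha1 := (hasDerivAt_arccos (x := 1 - 2 * τ m) (by linarith) (by linarith)).comp m
    ((hτd.const_mul 2).const_sub 1)
  have ha2 := (hasDerivAt_arccos (x := τ m) (by linarith) (by linarith)).comp m hτd
  have hsq : HasDerivAt (fun m : ℝ => √(1 - 2 * m)) (-(2 * 1) / (2 * √(1 - 2 * m))) m :=
    (((hasDerivAt_id m).const_mul 2).const_sub 1).sqrt hs2.ne'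
  have hp : HasDerivAt (fun m : ℝ => (1 + m) * (1 + m ^ 2 / 2)) (1 + m + 3 / 2 * m ^ 2) m := by
    have e1 : HasDerivAt (fun m : ℝ => 1 + m) 1 m := (hasDerivAt_id m).const_add 1
    have e2 : HasDerivAt (fun m : ℝ => 1 + m ^ 2 / 2) ((2 : ℕ) * m ^ (2 - 1) / 2) m :=
      ((hasDerivAt_pow 2 m).div_const 2).const_add 1
    refine (e1.mul e2).congr_deriv ?_
    push_cast
    ring
  have hall := (((ha1.const_mul 4).add (ha2.const_mul 8)).sub_const (4 * π)).sub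
    ((hp.mul hsq).const_mul Sr)
  refine (hall.congr_deriv ?_)
  have hs : 0 < √(1 - 2 * m) := sqrt_pos.2 hs2
  have hA : 0 < √(2 - m) := sqrt_pos.2 hA2
  have hB : 0 < √(2 + 2 * m) := sqrt_pos.2 hB2
  have hss := sq_sqrt hs2.le
  have hAA := sq_sqrt hA2.le
  have hBB := sq_sqrt hB2.le
  have r1 : √(1 - (1 - 2 * τ m) ^ 2) = 2 * (√(2 + 2 * m) * √(1 - 2 * m)) / (3 * (1 - m)) := by
    apply sqrt_of_sq (by positivity)
    simp only [hτ]
    rw [div_pow, mul_pow, mul_pow, hss, hBB]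
    field_simp
    ring
  have r2 : √(1 - (τ m) ^ 2) = 2 * (√(2 - m) * √(1 - 2 * m)) / (3 * (1 - m)) := by
    apply sqrt_of_sq (by positivity)
    simp only [hτ]
    rw [div_pow, mul_pow, mul_pow, hss, hAA]
    field_simp
    ring
  rw [r1, r2, dpsi1]
  field_simp
  ring

lemma key1 {m : ℝ} (hm : m ^ 2 ≤ 1 / 10) :
    24 ≤ Sr * (2 + m + 7 / 2 * m ^ 2) * (1 - m) * (√(2 - m) * √(2 + 2 * m)) *
      (√(2 - m) + √(2 + 2 * m)) := by
  have hm1 : -(317 / 1000 : ℝ) ≤ m := by nlinarith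
  have hm2 : m ≤ 317 / 1000 := by nlinarith
  have hA2 : 0 < 2 - m := by linarith
  have hB2 : 0 < 2 + 2 * m := by linarith
  have hA : 0 < √(2 - m) := sqrt_pos.2 hA2
  have hB : 0 < √(2 + 2 * m) := sqrt_pos.2 hB2
  have hAA := sq_sqrt hA2.le
  have hBB := sq_sqrt hB2.le
  set A := √(2 - m)
  set B := √(2 + 2 * m)
  have hP : 2 + m / 2 - 3 / 4 * m ^ 2 ≤ A * B := by
    apply abs_le_of_sq_le_sq' _ (by positivity) |>.2
    rw [mul_pow, hAA, hBB]
    nlinarith [sq_nonneg m, sq_nonneg (m ^ 2), mul_nonneg (sq_nonneg m) (by linarith : 0 ≤ 1 - m), mul_nonneg (sq_nonneg m) (by linarith : 0 ≤ 1 + m)]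
  have hQ : 2828 / 1000 * (1 + m / 8 - 12 / 100 * m ^ 2) ≤ A + B := by
    apply abs_le_of_sq_le_sq' _ (by positivity) |>.2
    have e : (A + B) ^ 2 = 4 + m + 2 * (A * B) := by
      have : (A + B) ^ 2 = A ^ 2 + B ^ 2 + 2 * (A * B) := by ring
      rw [this, hAA, hBB]; ring
    rw [e]
    nlinarith [sq_nonneg m, sq_nonneg (m ^ 2), mul_nonneg (sq_nonneg m) (by linarith : 0 ≤ 1 - m), mul_nonneg (sq_nonneg m) (by linarith : 0 ≤ 1 + m)]
  have hS := Sr_lb
  have hP0 : 0 < 2 + m / 2 - 3 / 4 * m ^ 2 := by nlinarith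
  have hQ0 : 0 < 2828 / 1000 * (1 + m / 8 - 12 / 100 * m ^ 2) := by nlinarith
  have h1 : 0 < 2 + m + 7 / 2 * m ^ 2 := by nlinarith
  have h2 : 0 < 1 - m := by linarith
  have h3 : 2205 / 1000 * (2 + m + 7 / 2 * m ^ 2) * (1 - m) * (2 + m / 2 - 3 / 4 * m ^ 2) *
      (2828 / 1000 * (1 + m / 8 - 12 / 100 * m ^ 2)) ≤
      Sr * (2 + m + 7 / 2 * m ^ 2) * (1 - m) * (A * B) * (A + B) := by
    have hSr : (2205 / 1000 : ℝ) ≤ Sr := by linarith
    gcongr
  refine le_trans ?_ h3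
  nlinarith [sq_nonneg m, sq_nonneg (m ^ 2), mul_nonneg (sq_nonneg m) (by linarith : 0 ≤ 317 / 1000 - m), mul_nonneg (sq_nonneg m) (by linarith : 0 ≤ 317 / 1000 + m), mul_nonneg (sq_nonneg (m ^ 2)) (by linarith : 0 ≤ 317 / 1000 - m), mul_nonneg (sq_nonneg (m ^ 2)) (by linarith : 0 ≤ 317 / 1000 + m), mul_nonneg (by linarith : 0 ≤ 317 / 1000 - m) (by linarith : 0 ≤ 317 / 1000 + m)]

lemma dpsi1_eq {m : ℝ} (h1 : -(1 / 3 : ℝ) < m) (h2 : m < 1 / 3) :
    dpsi1 m = m / √(1 - 2 * m) * (Sr * (2 + m + 7 / 2 * m ^ 2) -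
      24 / ((1 - m) * (√(2 - m) * √(2 + 2 * m)) * (√(2 - m) + √(2 + 2 * m)))) := by
  have hm1 : 0 < 1 - m := by linarith
  have hs2 : 0 < 1 - 2 * m := by linarith
  have hA2 : 0 < 2 - m := by linarith
  have hB2 : 0 < 2 + 2 * m := by linarith
  have hs : 0 < √(1 - 2 * m) := sqrt_pos.2 hs2
  have hA : 0 < √(2 - m) := sqrt_pos.2 hA2
  have hB : 0 < √(2 + 2 * m) := sqrt_pos.2 hB2
  have hss := sq_sqrt hs2.le
  have hAA := sq_sqrt hA2.le
  have hBB := sq_sqrt hB2.le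
  rw [dpsi1]
  set A := √(2 - m)
  set B := √(2 + 2 * m)
  set s := √(1 - 2 * m)
  have e1 : 1 / B - 1 / A = -(3 * m) / (A * B * (A + B)) := by
    have : -(3 * m) = (A - B) * (A + B) := by
      have : (A - B) * (A + B) = A ^ 2 - B ^ 2 := by ring
      rw [this, hAA, hBB]; ring
    rw [this]
    field_simp
  have e2 : (1 + m + 3 / 2 * m ^ 2) * s - (1 + m) * (1 + m ^ 2 / 2) / s =
      -(m * (2 + m + 7 / 2 * m ^ 2)) / s := by
    rw [eq_div_iff hs.ne', sub_mul, div_mul_cancel₀ _ hs.ne', mul_assoc, ← sq, hss]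
    ring
  rw [e1, e2]
  field_simp
  ring

lemma dpsi1_bracket {m : ℝ} (hm : m ^ 2 ≤ 1 / 10) :
    0 ≤ Sr * (2 + m + 7 / 2 * m ^ 2) -
      24 / ((1 - m) * (√(2 - m) * √(2 + 2 * m)) * (√(2 - m) + √(2 + 2 * m))) := by
  have hm1 : -(317 / 1000 : ℝ) ≤ m := by nlinarith
  have hm2 : m ≤ 317 / 1000 := by nlinarith
  have hA : 0 < √(2 - m) := sqrt_pos.2 (by linarith)
  have hB : 0 < √(2 + 2 * m) := sqrt_pos.2 (by linarith)
  have h := key1 hm
  have h1 : 0 < 1 - m := by linarith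
  rw [sub_nonneg, div_le_iff₀ (by positivity)]
  calc (24 : ℝ) ≤ _ := h
    _ = _ := by ring

theorem psi1_nonneg {m : ℝ} (hm : m ^ 2 ≤ 1 / 10) : 0 ≤ psi1 m := by
  have h0 : psi1 0 = 0 := by
    unfold psi1 Sr
    norm_num
    ring
  have hrange : ∀ x : ℝ, x ^ 2 ≤ 1 / 10 → -(1 / 3 : ℝ) < x ∧ x < 1 / 3 := by
    intro x hx
    constructor <;> nlinarith
  rcases le_total 0 m with h | h
  · have hmono : MonotoneOn psi1 (Set.Icc 0 m) := by
      apply monotoneOn_of_deriv_nonneg (convex_Icc 0 m)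
      · intro x hx
        have hx2 : x ^ 2 ≤ 1 / 10 := by nlinarith [hx.1, hx.2]
        exact (hasDeriv_psi1 (hrange x hx2).1 (hrange x hx2).2).continuousAt.continuousWithinAt
      · intro x hx
        rw [interior_Icc] at hx
        have hx2 : x ^ 2 ≤ 1 / 10 := by nlinarith [hx.1, hx.2]
        exact (hasDeriv_psi1 (hrange x hx2).1 (hrange x hx2).2).differentiableAt.differentiableWithinAt
      · intro x hx
        rw [interior_Icc] at hx
        have hx2 : x ^ 2 ≤ 1 / 10 := by nlinarith [hx.1, hx.2]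
        rw [(hasDeriv_psi1 (hrange x hx2).1 (hrange x hx2).2).deriv,
          dpsi1_eq (hrange x hx2).1 (hrange x hx2).2]
        have hs : 0 < √(1 - 2 * x) := sqrt_pos.2 (by linarith [(hrange x hx2).2])
        exact mul_nonneg (div_nonneg hx.1.le hs.le) (dpsi1_bracket hx2)
    have := hmono (Set.left_mem_Icc.2 h) (Set.right_mem_Icc.2 h) h
    rwa [h0] at this
  · have hmono : AntitoneOn psi1 (Set.Icc m 0) := by
      apply antitoneOn_of_deriv_nonpos (convex_Icc m 0)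
      · intro x hx
        have hx2 : x ^ 2 ≤ 1 / 10 := by nlinarith [hx.1, hx.2]
        exact (hasDeriv_psi1 (hrange x hx2).1 (hrange x hx2).2).continuousAt.continuousWithinAt
      · intro x hx
        rw [interior_Icc] at hx
        have hx2 : x ^ 2 ≤ 1 / 10 := by nlinarith [hx.1, hx.2]
        exact (hasDeriv_psi1 (hrange x hx2).1 (hrange x hx2).2).differentiableAt.differentiableWithinAt
      · intro x hx
        rw [interior_Icc] at hx
        have hx2 : x ^ 2 ≤ 1 / 10 := by nlinarith [hx.1, hx.2]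
        rw [(hasDeriv_psi1 (hrange x hx2).1 (hrange x hx2).2).deriv,
          dpsi1_eq (hrange x hx2).1 (hrange x hx2).2]
        have hs : 0 < √(1 - 2 * x) := sqrt_pos.2 (by linarith [(hrange x hx2).2])
        exact mul_nonpos_of_nonpos_of_nonneg (div_nonpos_of_nonpos_of_nonneg hx.2.le hs.le)
          (dpsi1_bracket hx2)
    have := hmono (Set.left_mem_Icc.2 h) (Set.right_mem_Icc.2 h) h
    rwa [h0] at this

end BccO
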