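import Pool.Agent.MP_bf7174_co.O.C1

/-!
# the one-variable inequality for regular pyramids
-/

set_option autoImplicit false

open Real

namespace BccO

noncomputable def psi2 (x : ℝ) : ℝ :=
  6 * arccos (√((1 - x) / (9 + 15 * x))) + 6 * arccos ((1 + 3 * x) / (3 + 5 * x)) - 4 * π
    - Sr * ((1 - x) * (1 + 9 / 5 * x ^ 2) * √(1 + 2 * x))

noncomputable def dpsi2 (x : ℝ) : ℝ :=
  6 * √2 / ((3 + 5 * x) * √(1 + 2 * x)) * (1 / √(1 - x) - 1 / √(1 + x))
    - Sr * ((-1 + 18 / 5 * x - 27 / 5 * x ^ 2) * √(1 + 2 * x) +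
      (1 - x) * (1 + 9 / 5 * x ^ 2) / √(1 + 2 * x))

lemma hasDeriv_psi2 {x : ℝ} (h1 : -(1 / 5 : ℝ) < x) (h2 : x < 1 / 5) : HasDerivAt psi2 (dpsi2 x) x := by
  have hu2 : 0 < 1 - x := by linarith
  have hv2 : 0 < 1 + x := by linarith
  have hs2 : 0 < 1 + 2 * x := by linarith
  have ht2 : 0 < 9 + 15 * x := by linarith
  have h35 : 0 < 3 + 5 * x := by linarith
  have hu : 0 < √(1 - x) := sqrt_pos.2 hu2
  have hv : 0 < √(1 + x) := sqrt_pos.2 hv2
  have hs : 0 < √(1 + 2 * x) := sqrt_pos.2 hs2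
  have ht : 0 < √(9 + 15 * x) := sqrt_pos.2 ht2
  have hk : 0 < √(2 : ℝ) := sqrt_pos.2 (by norm_num)
  have huu := sq_sqrt hu2.le
  have hvv := sq_sqrt hv2.le
  have hss := sq_sqrt hs2.le
  have htt := sq_sqrt ht2.le
  have hkk := sq_sqrt (show (0 : ℝ) ≤ 2 by norm_num)
  set g : ℝ → ℝ := fun x => (1 - x) / (9 + 15 * x) with hg
  set hh : ℝ → ℝ := fun x => (1 + 3 * x) / (3 + 5 * x) with hhh
  have hgd : HasDerivAt g (-24 / (9 + 15 * x) ^ 2) x := by
    have e1 : HasDerivAt (fun x : ℝ => 1 - x) (-1) x := (hasDerivAt_id x).const_sub 1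
    have e2 : HasDerivAt (fun x : ℝ => 9 + 15 * x) (15 * 1) x :=
      ((hasDerivAt_id x).const_mul 15).const_add 9
    refine (e1.div e2 ht2.ne').congr_deriv ?_
    field_simp
    ring
  have hhd : HasDerivAt hh (4 / (3 + 5 * x) ^ 2) x := by
    have e1 : HasDerivAt (fun x : ℝ => 1 + 3 * x) (3 * 1) x :=
      ((hasDerivAt_id x).const_mul 3).const_add 1
    have e2 : HasDerivAt (fun x : ℝ => 3 + 5 * x) (5 * 1) x :=
      ((hasDerivAt_id x).const_mul 5).const_add 3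
    refine (e1.div e2 h35.ne').congr_deriv ?_
    field_simp
    ring
  have hg0 : 0 < g x := div_pos hu2 ht2
  have hg1 : g x < 1 := by
    simp only [hg]
    rw [div_lt_one ht2]
    linarith
  have hsg : √(g x) = √(1 - x) / √(9 + 15 * x) := by
    simp only [hg]; rw [sqrt_div hu2.le]
  have hsg1 : √(g x) < 1 := by
    rw [sqrt_lt' one_pos]; simpa using hg1
  have hh1 : hh x < 1 := by
    simp only [hhh]
    rw [div_lt_one h35]
    linarith
  have hh0 : 0 < hh x := div_pos (by linarith) h35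
  have ha1 := (hasDerivAt_arccos (x := √(g x)) (by linarith [sqrt_nonneg (g x)]) hsg1.ne).comp x
    (hgd.sqrt hg0.ne')
  have ha2 := (hasDerivAt_arccos (x := hh x) (by linarith) hh1.ne).comp x hhd
  have hsq : HasDerivAt (fun x : ℝ => √(1 + 2 * x)) (2 * 1 / (2 * √(1 + 2 * x))) x :=
    (((hasDerivAt_id x).const_mul 2).const_add 1).sqrt hs2.ne'
  have hp : HasDerivAt (fun x : ℝ => (1 - x) * (1 + 9 / 5 * x ^ 2))
      (-1 + 18 / 5 * x - 27 / 5 * x ^ 2) x := by
    have e1 : HasDerivAt (fun x : ℝ => 1 - x) (-1) x := (hasDerivAt_id x).const_sub 1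
    have e2 : HasDerivAt (fun x : ℝ => 1 + 9 / 5 * x ^ 2) (9 / 5 * ((2 : ℕ) * x ^ (2 - 1))) x :=
      ((hasDerivAt_pow 2 x).const_mul (9 / 5)).const_add 1
    refine (e1.mul e2).congr_deriv ?_
    push_cast
    ring
  have hall := (((ha1.const_mul 6).add (ha2.const_mul 6)).sub_const (4 * π)).sub
    ((hp.mul hsq).const_mul Sr)
  refine (hall.congr_deriv ?_)
  have r1 : √(1 - √(g x) ^ 2) = 2 * (√2 * √(1 + 2 * x)) / √(9 + 15 * x) := by
    apply sqrt_of_sq (by positivity)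
    rw [sq_sqrt hg0.le, div_pow, mul_pow, mul_pow, hss, hkk, htt]
    simp only [hg]
    rw [eq_sub_iff_add_eq, ← add_div, div_eq_one_iff_eq ht2.ne']
    ring
  have r2 : √(1 - (hh x) ^ 2) = 2 * (√2 * (√(1 + x) * √(1 + 2 * x))) / (3 + 5 * x) := by
    apply sqrt_of_sq (by positivity)
    simp only [hhh]
    rw [div_pow, mul_pow, mul_pow, mul_pow, hss, hkk, hvv, div_pow]
    rw [eq_sub_iff_add_eq, ← add_div, div_eq_one_iff_eq (by positivity)]
    ring
  rw [r1, r2, hsg, dpsi2]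
  have e9 : 9 + 15 * x = √(9 + 15 * x) ^ 2 := htt.symm
  have e35 : 3 + 5 * x = √(9 + 15 * x) ^ 2 / 3 := by rw [htt]; ring
  have e2 : √(2 : ℝ) * √(2 : ℝ) = 2 := by rw [← sq, hkk]
  congr 1
  · have f1 : 6 * (-(1 / (2 * (√2 * √(1 + 2 * x)) / √(9 + 15 * x))) *
        (-24 / (9 + 15 * x) ^ 2 / (2 * (√(1 - x) / √(9 + 15 * x))))) =
        6 * √2 / ((3 + 5 * x) * √(1 + 2 * x)) * (1 / √(1 - x)) := by
      rw [e35]
      conv_lhs => rw [show (9 + 15 * x) ^ 2 = (√(9 + 15 * x) ^ 2) ^ 2 by rw [htt]]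
      field_simp
      rw [hkk]
      ring
    have f2 : 6 * (-(1 / (2 * (√2 * (√(1 + x) * √(1 + 2 * x))) / (3 + 5 * x))) *
        (4 / (3 + 5 * x) ^ 2)) = -(6 * √2 / ((3 + 5 * x) * √(1 + 2 * x)) * (1 / √(1 + x))) := by
      field_simp
      rw [hkk]
      ring
    rw [f1, f2]
    ring
  · field_simp

lemma dpsi2_eq {x : ℝ} (h1 : -(1 / 5 : ℝ) < x) (h2 : x < 1 / 5) :
    dpsi2 x = x / √(1 + 2 * x) * (12 * √2 / ((3 + 5 * x) * (√(1 - x) * √(1 + x)) *
      (√(1 - x) + √(1 + x))) - Sr * (3 / 5 + 18 / 5 * x - 63 / 5 * x ^ 2)) := by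
  have hA2 : 0 < 1 - x := by linarith
  have hB2 : 0 < 1 + x := by linarith
  have hs2 : 0 < 1 + 2 * x := by linarith
  have h35 : 0 < 3 + 5 * x := by linarith
  have hs : 0 < √(1 + 2 * x) := sqrt_pos.2 hs2
  have hA : 0 < √(1 - x) := sqrt_pos.2 hA2
  have hB : 0 < √(1 + x) := sqrt_pos.2 hB2
  have hss := sq_sqrt hs2.le
  have hAA := sq_sqrt hA2.le
  have hBB := sq_sqrt hB2.le
  rw [dpsi2]
  set A := √(1 - x)
  set B := √(1 + x)
  set s := √(1 + 2 * x)
  have e1 : 1 / A - 1 / B = (2 * x) / (A * B * (A + B)) := by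
    have : (2 * x) = (B - A) * (A + B) := by
      have : (B - A) * (A + B) = B ^ 2 - A ^ 2 := by ring
      rw [this, hAA, hBB]; ring
    rw [this]
    field_simp
  have e2 : (-1 + 18 / 5 * x - 27 / 5 * x ^ 2) * s + (1 - x) * (1 + 9 / 5 * x ^ 2) / s =
      x * (3 / 5 + 18 / 5 * x - 63 / 5 * x ^ 2) / s := by
    rw [eq_div_iff hs.ne', add_mul, div_mul_cancel₀ _ hs.ne', mul_assoc, ← sq, hss]
    ring
  rw [e1, e2]
  field_simp
  ring

lemma dpsi2_bracket {x : ℝ} (h1 : -(1 / 6 : ℝ) ≤ x) (h2 : x ≤ 1 / 6) :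
    0 ≤ 12 * √2 / ((3 + 5 * x) * (√(1 - x) * √(1 + x)) *
      (√(1 - x) + √(1 + x))) - Sr * (3 / 5 + 18 / 5 * x - 63 / 5 * x ^ 2) := by
  have hA2 : 0 < 1 - x := by linarith
  have hB2 : 0 < 1 + x := by linarith
  have h35 : 0 < 3 + 5 * x := by linarith
  have hA : 0 < √(1 - x) := sqrt_pos.2 hA2
  have hB : 0 < √(1 + x) := sqrt_pos.2 hB2
  have hAA := sq_sqrt hA2.le
  have hBB := sq_sqrt hB2.le
  have hk : (1414 / 1000 : ℝ) ≤ √2 := by
    apply le_sqrt_of_sq_le; norm_num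
  have hSr0 := Sr_lb
  have hSr1 := Sr_ub
  set A := √(1 - x)
  set B := √(1 + x)
  have hAB : A * B ≤ 1 := by
    apply abs_le_of_sq_le_sq' _ (by positivity) |>.2
    rw [mul_pow, hAA, hBB]
    nlinarith [sq_nonneg x]
  have hAB2 : A + B ≤ 2 := by
    nlinarith [sq_nonneg (A - 1), sq_nonneg (B - 1)]
  have hd : (3 + 5 * x) * (A * B) * (A + B) ≤ (3 + 5 * x) * 1 * 2 := by gcongr
  have hpos : 0 < (3 + 5 * x) * (A * B) * (A + B) := by positivity
  rcases le_total (3 / 5 + 18 / 5 * x - 63 / 5 * x ^ 2) 0 with h | h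
  · have : Sr * (3 / 5 + 18 / 5 * x - 63 / 5 * x ^ 2) ≤ 0 :=
      mul_nonpos_of_nonneg_of_nonpos (by linarith) h
    have : 0 ≤ 12 * √2 / ((3 + 5 * x) * (A * B) * (A + B)) := by positivity
    linarith
  · rw [sub_nonneg, le_div_iff₀ hpos]
    have h3 : Sr * (3 / 5 + 18 / 5 * x - 63 / 5 * x ^ 2) * ((3 + 5 * x) * (A * B) * (A + B)) ≤
      (220516 / 100000) * (3 / 5 + 18 / 5 * x - 63 / 5 * x ^ 2) * ((3 + 5 * x) * 1 * 2) := by
      have : Sr ≤ 220516 / 100000 := by linarith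
      gcongr
    have h4 : (220516 / 100000) * (3 / 5 + 18 / 5 * x - 63 / 5 * x ^ 2) * ((3 + 5 * x) * 1 * 2) ≤
      12 * (1414 / 1000) := by
      nlinarith [sq_nonneg x, mul_nonneg (by linarith : 0 ≤ 1 / 6 - x) (by linarith : 0 ≤ 1 / 6 + x),
        mul_nonneg (mul_nonneg (by linarith : 0 ≤ 1 / 6 - x) (by linarith : 0 ≤ 1 / 6 + x)) (by linarith : 0 ≤ 1 / 6 + x), mul_nonneg (mul_nonneg (by linarith : 0 ≤ 1 / 6 - x) (by linarith : 0 ≤ 1 / 6 + x)) (by linarith : 0 ≤ 1 / 6 - x)]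
    linarith

theorem psi2_nonneg {x : ℝ} (h1 : -(1 / 6 : ℝ) ≤ x) (h2 : x ≤ 1 / 6) : 0 ≤ psi2 x := by
  have h0 : psi2 0 = 0 := by
    unfold psi2 Sr
    have : √((1 - 0) / (9 + 15 * 0) : ℝ) = 1 / 3 := by
      apply sqrt_of_sq (by norm_num); norm_num
    rw [this]
    norm_num
    ring
  rcases le_total 0 x with h | h
  · have hmono : MonotoneOn psi2 (Set.Icc 0 x) := by
      apply monotoneOn_of_deriv_nonneg (convex_Icc 0 x)
      · intro y hy
        exact (hasDeriv_psi2 (by linarith [hy.1]) (by linarith [hy.2])).continuousAt.continuousWithinAt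
      · intro y hy
        rw [interior_Icc] at hy
        exact (hasDeriv_psi2 (by linarith [hy.1]) (by linarith [hy.2])).differentiableAt.differentiableWithinAt
      · intro y hy
        rw [interior_Icc] at hy
        rw [(hasDeriv_psi2 (by linarith [hy.1]) (by linarith [hy.2])).deriv,
          dpsi2_eq (by linarith [hy.1]) (by linarith [hy.2])]
        have hs : 0 < √(1 + 2 * y) := sqrt_pos.2 (by linarith [hy.1])
        exact mul_nonneg (div_nonneg hy.1.le hs.le)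
          (dpsi2_bracket (by linarith [hy.1]) (by linarith [hy.2]))
    have := hmono (Set.left_mem_Icc.2 h) (Set.right_mem_Icc.2 h) h
    rwa [h0] at this
  · have hmono : AntitoneOn psi2 (Set.Icc x 0) := by
      apply antitoneOn_of_deriv_nonpos (convex_Icc x 0)
      · intro y hy
        exact (hasDeriv_psi2 (by linarith [hy.1]) (by linarith [hy.2])).continuousAt.continuousWithinAt
      · intro y hy
        rw [interior_Icc] at hy
        exact (hasDeriv_psi2 (by linarith [hy.1]) (by linarith [hy.2])).differentiableAt.differentiableWithinAt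
      · intro y hy
        rw [interior_Icc] at hy
        rw [(hasDeriv_psi2 (by linarith [hy.1]) (by linarith [hy.2])).deriv,
          dpsi2_eq (by linarith [hy.1]) (by linarith [hy.2])]
        have hs : 0 < √(1 + 2 * y) := sqrt_pos.2 (by linarith [hy.1])
        exact mul_nonpos_of_nonpos_of_nonneg (div_nonpos_of_nonpos_of_nonneg hy.2.le hs.le)
          (dpsi2_bracket (by linarith [hy.1]) (by linarith [hy.2]))
    have := hmono (Set.left_mem_Icc.2 h) (Set.right_mem_Icc.2 h) h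
    rwa [h0] at this

end BccO
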