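import Pool.Agent.MP_bf7174_co.O.G4
import Pool.Agent.MP_bf7174_co.O.C2

/-!
# closed forms for disphenoids and regular pyramids
-/

set_option autoImplicit false

open MeasureTheory Real
open scoped InnerProductSpace Pointwise

namespace BccO

open BccCov BccCov.W2

/-- the constant of the regular tetrahedron with squared edge `s` -/
noncomputable def QQ (s : ℝ) : ℝ := Sr * √2 / (cG * √(s ^ 3))

lemma QQ_pos {s : ℝ} (hs : 0 < s) : 0 < QQ s := by
  unfold QQ
  have := cG_pos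
  have := Sr_lb
  have : 0 < Sr := by linarith
  positivity

lemma dis_FF {X Y : ℝ} (hX : 0 < X) (hY : X < 2 * Y) :
    cG * (X * √(Y - X / 2)) * FF X Y Y Y Y X =
      4 * arccos ((4 * Y - 3 * X) / (4 * Y - X)) + 8 * arccos (X / (4 * Y - X)) - 4 * π := by
  have hh : 0 < Y - X / 2 := by linarith
  have hsX := sq_sqrt hX.le
  have hsh := sq_sqrt hh.le
  have hX' : 0 < √X := sqrt_pos.2 hX
  have hh' : 0 < √(Y - X / 2) := sqrt_pos.2 hh
  set p := √X with hp
  set h := √(Y - X / 2) with hhdef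
  set x : E3 := V3 (p / 2) 0 (h / 2) with hx
  set y : E3 := V3 (-(p / 2)) 0 (h / 2) with hy
  set z : E3 := V3 0 (p / 2) (-(h / 2)) with hz
  set w : E3 := V3 0 (-(p / 2)) (-(h / 2)) with hw
  have c : ∀ a b c : ℝ, V3 a b c 0 = a ∧ V3 a b c 1 = b ∧ V3 a b c 2 = c := by
    intro a b c
    simp [V3]
  have exy : sd x y = X := by
    rw [sd_eq, hx, hy]; simp only [c]; linear_combination hsX
  have ezw : sd z w = X := by
    rw [sd_eq, hz, hw]; simp only [c]; linear_combination hsX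
  have exz : sd x z = Y := by
    rw [sd_eq, hx, hz]; simp only [c]; linear_combination (1 / 2) * hsX + hsh
  have exw : sd x w = Y := by
    rw [sd_eq, hx, hw]; simp only [c]; linear_combination (1 / 2) * hsX + hsh
  have eyz : sd y z = Y := by
    rw [sd_eq, hy, hz]; simp only [c]; linear_combination (1 / 2) * hsX + hsh
  have eyw : sd y w = Y := by
    rw [sd_eq, hy, hw]; simp only [c]; linear_combination (1 / 2) * hsX + hsh
  have hdet : |det3 x y z w| = X * h := by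
    have : det3 x y z w = X * h := by
      rw [det3, hx, hy, hz, hw]; simp only [c]; linear_combination h * hsX
    rw [this, abs_of_pos (by positivity)]
  have hdet0 : det3 x y z w ≠ 0 := by
    rw [← abs_pos, hdet]; positivity
  obtain ⟨hxy, hxz, hxw, hyz, hyw, hzw⟩ := ne_of_det hdet0
  have h1 := SS_eq hdet0
  rw [hdet, exy, exz, exw, eyz, eyw, ezw] at h1
  rw [← h1, SS]
  have hp4 : 0 < X * (4 * Y - X) := mul_pos hX (by linarith)
  have h4 : 0 < 4 * Y - X := by linarith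
  have k1 : ∀ t : ℝ, t / √(X * (4 * Y - X) * (X * (4 * Y - X))) = t / (X * (4 * Y - X)) := by
    intro t; rw [sqrt_mul_self hp4.le]
  have A1 : A4 X Y Y = X * (4 * Y - X) := by unfold A4; ring
  have A2 : A4 Y X Y = X * (4 * Y - X) := by unfold A4; ring
  have A3 : A4 Y Y X = X * (4 * Y - X) := by unfold A4; ring
  have N1 : N4 X Y Y Y Y X = X * (4 * Y - 3 * X) := by unfold N4; ring
  have N2 : N4 Y X Y Y X Y = X * X := by unfold N4; ring
  have N3 : N4 Y X Y Y X Y = X * X := by unfold N4; ring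
  have N4' : N4 Y Y X X Y Y = X * X := by unfold N4; ring
  have d1 : dih x y z w = arccos ((4 * Y - 3 * X) / (4 * Y - X)) := by
    rw [dih_eq x y z w hxy, exy, exz, exw, eyz, eyw, ezw, A1, N1, k1, mul_div_mul_left _ _ hX.ne']
  have d2 : dih z w x y = arccos ((4 * Y - 3 * X) / (4 * Y - X)) := by
    rw [dih_eq z w x y hzw, sd_comm z x, sd_comm z y, sd_comm w x, sd_comm w y,
      exy, exz, exw, eyz, eyw, ezw, A1, N1, k1, mul_div_mul_left _ _ hX.ne']
  have d3 : dih x z y w = arccos (X / (4 * Y - X)) := by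
    rw [dih_eq x z y w hxz, sd_comm z y,
      exy, exz, exw, eyz, eyw, ezw, A2, A3, N2, k1, mul_div_mul_left _ _ hX.ne']
  have d4 : dih x w y z = arccos (X / (4 * Y - X)) := by
    rw [dih_eq x w y z hxw, sd_comm w y, sd_comm w z,
      exy, exz, exw, eyz, eyw, ezw, A2, A3, N2, k1, mul_div_mul_left _ _ hX.ne']
  have d5 : dih y z x w = arccos (X / (4 * Y - X)) := by
    rw [dih_eq y z x w hyz, sd_comm y x, sd_comm z x,
      exy, exz, exw, eyz, eyw, ezw, A2, A3, N2, k1, mul_div_mul_left _ _ hX.ne']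
  have d6 : dih y w x z = arccos (X / (4 * Y - X)) := by
    rw [dih_eq y w x z hyw, sd_comm y x, sd_comm w x, sd_comm w z,
      exy, exz, exw, eyz, eyw, ezw, A2, A3, N2, k1, mul_div_mul_left _ _ hX.ne']
  rw [d1, d2, d3, d4, d5, d6]
  ring

lemma pyr_FF {X Y : ℝ} (hY : 0 < Y) (hX : Y < 3 * X) :
    cG * (Y * √(3 * X - Y) / 2) * FF X X X Y Y Y =
      6 * arccos (√(Y / (12 * X - 3 * Y))) + 6 * arccos ((2 * X - Y) / (4 * X - Y)) - 4 * π := by
  have hr : 0 < Y / 3 := by positivity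
  have hH : 0 < 3 * X - Y := by linarith
  have h3 : (0 : ℝ) < 3 := by norm_num
  have hs3 := sq_sqrt h3.le
  have hsr := sq_sqrt hY.le
  have hsH := sq_sqrt hH.le
  have hr' : 0 < √Y := sqrt_pos.2 hY
  have hH' : 0 < √(3 * X - Y) := sqrt_pos.2 hH
  have h3' : 0 < √(3 : ℝ) := sqrt_pos.2 h3
  set q := √(3 : ℝ) with hq
  set r := √Y with hrd
  set H := √(3 * X - Y) with hHd
  -- base vertices
  set x : E3 := V3 0 0 (H * q / 3) with hx
  set y : E3 := V3 (r * q / 3) 0 0 with hy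
  set z : E3 := V3 (-(r * q / 6)) (r / 2) 0 with hz
  set w : E3 := V3 (-(r * q / 6)) (-(r / 2)) 0 with hw
  have c : ∀ a b c : ℝ, V3 a b c 0 = a ∧ V3 a b c 1 = b ∧ V3 a b c 2 = c := by
    intro a b c
    simp [V3]
  have exy : sd x y = X := by
    rw [sd_eq, hx, hy]; simp only [c]
    have : (0 - r * q / 3) ^ 2 + (0 - 0) ^ 2 + (H * q / 3 - 0) ^ 2 = (r ^ 2 + H ^ 2) * q ^ 2 / 9 := by ring
    rw [this, hsr, hsH, hs3]; ring
  have exz : sd x z = X := by
    rw [sd_eq, hx, hz]; simp only [c]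
    have : (0 - -(r * q / 6)) ^ 2 + (0 - r / 2) ^ 2 + (H * q / 3 - 0) ^ 2 = r ^ 2 * q ^ 2 / 36 + r ^ 2 / 4 + H ^ 2 * q ^ 2 / 9 := by ring
    rw [this, hsr, hsH, hs3]; ring
  have exw : sd x w = X := by
    rw [sd_eq, hx, hw]; simp only [c]
    have : (0 - -(r * q / 6)) ^ 2 + (0 - -(r / 2)) ^ 2 + (H * q / 3 - 0) ^ 2 = r ^ 2 * q ^ 2 / 36 + r ^ 2 / 4 + H ^ 2 * q ^ 2 / 9 := by ring
    rw [this, hsr, hsH, hs3]; ring
  have eyz : sd y z = Y := by
    rw [sd_eq, hy, hz]; simp only [c]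
    have : (r * q / 3 - -(r * q / 6)) ^ 2 + (0 - r / 2) ^ 2 + (0 - 0) ^ 2 = r ^ 2 * q ^ 2 / 4 + r ^ 2 / 4 := by ring
    rw [this, hsr, hs3]; ring
  have eyw : sd y w = Y := by
    rw [sd_eq, hy, hw]; simp only [c]
    have : (r * q / 3 - -(r * q / 6)) ^ 2 + (0 - -(r / 2)) ^ 2 + (0 - 0) ^ 2 = r ^ 2 * q ^ 2 / 4 + r ^ 2 / 4 := by ring
    rw [this, hsr, hs3]; ring
  have ezw : sd z w = Y := by
    rw [sd_eq, hz, hw]; simp only [c]
    have : (-(r * q / 6) - -(r * q / 6)) ^ 2 + (r / 2 - -(r / 2)) ^ 2 + (0 - 0) ^ 2 = r ^ 2 := by ring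
    rw [this, hsr]
  have hdet : |det3 x y z w| = Y * H / 2 := by
    have : det3 x y z w = -(Y * H / 2) := by
      rw [det3, hx, hy, hz, hw]; simp only [c]
      have : (r * q / 3 - 0) * ((r / 2 - 0) * (0 - H * q / 3) - (0 - H * q / 3) * (-(r / 2) - 0)) -
        (0 - 0) * ((-(r * q / 6) - 0) * (0 - H * q / 3) - (0 - H * q / 3) * (-(r * q / 6) - 0)) +
        (0 - H * q / 3) * ((-(r * q / 6) - 0) * (-(r / 2) - 0) - (r / 2 - 0) * (-(r * q / 6) - 0)) =
        -(r ^ 2 * q ^ 2 * H / 6) := by ring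
      rw [this, hsr, hs3]; ring
    rw [this, abs_neg, abs_of_pos (by positivity)]
  have hdet0 : det3 x y z w ≠ 0 := by
    rw [← abs_pos, hdet]; positivity
  obtain ⟨hxy, hxz, hxw, hyz, hyw, hzw⟩ := ne_of_det hdet0
  have h1 := SS_eq hdet0
  rw [hdet, exy, exz, exw, eyz, eyw, ezw] at h1
  rw [← h1, SS]
  have h4 : 0 < 4 * X - Y := by linarith
  have hp4 : 0 < Y * (4 * X - Y) := mul_pos hY h4
  have A1 : A4 X X Y = Y * (4 * X - Y) := by unfold A4; ring
  have A2 : A4 Y Y Y = 3 * Y ^ 2 := by unfold A4; ring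
  have A3 : A4 Y X X = Y * (4 * X - Y) := by unfold A4; ring
  have N1 : N4 X X X Y Y Y = Y * (2 * X - Y) := by unfold N4; ring
  have N2 : N4 Y X Y X Y X = Y ^ 2 := by unfold N4; ring
  have N3 : N4 Y X Y X Y X = Y ^ 2 := by unfold N4; ring
  have k1 : ∀ t : ℝ, t / √(Y * (4 * X - Y) * (Y * (4 * X - Y))) = t / (Y * (4 * X - Y)) := by
    intro t; rw [sqrt_mul_self hp4.le]
  have k2 : Y ^ 2 / √(Y * (4 * X - Y) * (3 * Y ^ 2)) = √(Y / (12 * X - 3 * Y)) := by
    symm
    apply sqrt_of_sq (by positivity)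
    rw [div_pow, sq_sqrt (by positivity)]
    have : 0 < 12 * X - 3 * Y := by linarith
    rw [div_eq_div_iff (by positivity) this.ne']
    ring
  have a1 : dih x y z w = arccos ((2 * X - Y) / (4 * X - Y)) := by
    rw [dih_eq x y z w hxy, exy, exz, exw, eyz, eyw, ezw, A1, N1, k1, mul_div_mul_left _ _ hY.ne']
  have a2 : dih x z y w = arccos ((2 * X - Y) / (4 * X - Y)) := by
    rw [dih_eq x z y w hxz, sd_comm z y, exy, exz, exw, eyz, eyw, ezw, A1, N1, k1,
      mul_div_mul_left _ _ hY.ne']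
  have a3 : dih x w y z = arccos ((2 * X - Y) / (4 * X - Y)) := by
    rw [dih_eq x w y z hxw, sd_comm w y, sd_comm w z, exy, exz, exw, eyz, eyw, ezw, A1, N1, k1,
      mul_div_mul_left _ _ hY.ne']
  have b1 : dih y z x w = arccos (√(Y / (12 * X - 3 * Y))) := by
    rw [dih_eq y z x w hyz, sd_comm y x, sd_comm z x, exy, exz, exw, eyz, eyw, ezw, A3, A2, N2, k2]
  have b2 : dih y w x z = arccos (√(Y / (12 * X - 3 * Y))) := by
    rw [dih_eq y w x z hyw, sd_comm y x, sd_comm w x, sd_comm w z, exy, exz, exw, eyz, eyw, ezw, A3,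
      A2, N2, k2]
  have b3 : dih z w x y = arccos (√(Y / (12 * X - 3 * Y))) := by
    rw [dih_eq z w x y hzw, sd_comm z x, sd_comm z y, sd_comm w x, sd_comm w y, exy, exz, exw, eyz,
      eyw, ezw, A3, A2, N2, k2]
  rw [a1, a2, a3, b1, b2, b3]
  ring

end BccO
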