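import Pool.Agent.MP_bf7174_co.O.D1

/-!
# lower bounds for the Gaussian function by the disphenoid and the pyramid
-/

set_option autoImplicit false

open MeasureTheory Real
open scoped InnerProductSpace Pointwise

namespace BccO

open BccCov BccCov.W2

/-- the constant of the regular tetrahedron with squared edge `s` -/
lemma Sr_pos : 0 < Sr := by have := Sr_lb; linarith

lemma sqrt_cube {s : ℝ} (hs : 0 < s) : √(s ^ 3) = s * √s := by
  rw [pow_succ, sqrt_mul (by positivity), sqrt_sq hs.le]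

lemma Pos_l {A B C x y z : ℝ} (h : Pos A B C x y z) (i j k : ℝ) (hl : i ≠ 0 ∨ j ≠ 0 ∨ k ≠ 0) :
    0 < A * i ^ 2 + B * j ^ 2 + C * k ^ 2 + (A + B - x) * (i * j) + (A + C - y) * (i * k)
    + (B + C - z) * (j * k) := by
  obtain ⟨c, hc, hq⟩ := h
  have h1 := hq (V3 i j k)
  have h2 : ‖V3 i j k‖ ^ 2 = i ^ 2 + j ^ 2 + k ^ 2 := by
    rw [nsq]; simp [V3]
  rw [h2] at h1
  have h3 : 0 < i ^ 2 + j ^ 2 + k ^ 2 := by
    rcases hl with h | h | h
    · have := pow_pos (abs_pos.2 h) 2; rw [sq_abs] at this; positivity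
    · have := pow_pos (abs_pos.2 h) 2; rw [sq_abs] at this; positivity
    · have := pow_pos (abs_pos.2 h) 2; rw [sq_abs] at this; positivity
  have h4 : qf A B C x y z (V3 i j k) = A * i ^ 2 + B * j ^ 2 + C * k ^ 2 + (A + B - x) * (i * j) +
      (A + C - y) * (i * k) + (B + C - z) * (j * k) := by
    simp [qf, V3]
  rw [h4] at h1
  have : 0 < c * (i ^ 2 + j ^ 2 + k ^ 2) := by positivity
  linarith

lemma dis_pos {X Y : ℝ} (h : PosF X Y Y Y Y X) : 0 < X ∧ X < 2 * Y := by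
  have h1 := Pos_l h.1 1 0 0 (by norm_num)
  have h2 := Pos_l h.1 1 (-1) (-1) (by norm_num)
  constructor <;> linarith

lemma pyr_pos {X Y : ℝ} (h : PosF X X X Y Y Y) : 0 < Y ∧ Y < 3 * X := by
  have h1 := Pos_l h.2.1 0 1 0 (by norm_num)
  have h2 := Pos_l h.1 1 1 1 (by norm_num)
  constructor <;> linarith

/-- exact value at the disphenoid -/
lemma dis_val {s m : ℝ} (hs : 0 < s) (h1 : -1 < m) (h2 : m < 1 / 2) :
    cG * (s * √s * ((1 + m) * √(1 - 2 * m)) / √2) *
      FF (s * (1 + m)) (s * (1 - m / 2)) (s * (1 - m / 2)) (s * (1 - m / 2)) (s * (1 - m / 2))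
        (s * (1 + m)) = psi1 m + Sr * ((1 + m) * (1 + m ^ 2 / 2) * √(1 - 2 * m)) := by
  have h := dis_FF (X := s * (1 + m)) (Y := s * (1 - m / 2)) (mul_pos hs (by linarith)) (by nlinarith)
  have e1 : s * (1 - m / 2) - s * (1 + m) / 2 = s * (1 - 2 * m) / 2 := by ring
  have e2 : √(s * (1 - 2 * m) / 2) = √s * √(1 - 2 * m) / √2 := by
    rw [sqrt_div (mul_nonneg hs.le (by linarith)), sqrt_mul hs.le]
  have e3 : 4 * (s * (1 - m / 2)) - s * (1 + m) = s * (3 * (1 - m)) := by ring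
  have e4 : 4 * (s * (1 - m / 2)) - 3 * (s * (1 + m)) = s * (1 - 5 * m) := by ring
  rw [e1, e2, e3, e4, mul_div_mul_left _ _ hs.ne', mul_div_mul_left _ _ hs.ne'] at h
  have e5 : (1 - 5 * m) / (3 * (1 - m)) = 1 - 2 * ((1 + m) / (3 * (1 - m))) := by
    have : 0 < 1 - m := by linarith
    field_simp
    ring
  rw [e5] at h
  have e6 : s * (1 + m) * (√s * √(1 - 2 * m) / √2) = s * √s * ((1 + m) * √(1 - 2 * m)) / √2 := by
    ring
  rw [e6] at h
  rw [h, psi1]
  ring

lemma pyr_val {s x : ℝ} (hs : 0 < s) (h1 : -(1 / 2) < x) (h2 : x < 1) :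
    cG * (s * √s * ((1 - x) * √(1 + 2 * x)) / √2) *
      FF (s * (1 + x)) (s * (1 + x)) (s * (1 + x)) (s * (1 - x)) (s * (1 - x)) (s * (1 - x)) =
        psi2 x + Sr * ((1 - x) * (1 + 9 / 5 * x ^ 2) * √(1 + 2 * x)) := by
  have h := pyr_FF (X := s * (1 + x)) (Y := s * (1 - x)) (mul_pos hs (by linarith)) (by nlinarith)
  have h2' : √(2 : ℝ) * √2 = 2 := mul_self_sqrt (by norm_num)
  have h2'' : 0 < √(2 : ℝ) := sqrt_pos.2 (by norm_num)
  have e1 : 3 * (s * (1 + x)) - s * (1 - x) = 2 * (s * (1 + 2 * x)) := by ring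
  have e2 : √(2 * (s * (1 + 2 * x))) = √2 * (√s * √(1 + 2 * x)) := by
    rw [sqrt_mul (by norm_num), sqrt_mul hs.le]
  have e3 : 12 * (s * (1 + x)) - 3 * (s * (1 - x)) = s * (9 + 15 * x) := by ring
  have e4 : 2 * (s * (1 + x)) - s * (1 - x) = s * (1 + 3 * x) := by ring
  have e5 : 4 * (s * (1 + x)) - s * (1 - x) = s * (3 + 5 * x) := by ring
  rw [e1, e2, e3, e4, e5, mul_div_mul_left _ _ hs.ne', mul_div_mul_left _ _ hs.ne'] at h
  have e6 : s * (1 - x) * (√2 * (√s * √(1 + 2 * x))) / 2 =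
      s * √s * ((1 - x) * √(1 + 2 * x)) / √2 := by
    field_simp
    rw [sq, h2']
  rw [e6] at h
  rw [h, psi2]
  ring

lemma FF_of_val {s D v F R : ℝ} (hs : 0 < s) (hv : 0 < v) (hD : D = s * √s * v / √2)
    (h : Sr * (v * R) ≤ cG * D * F) : QQ s * R ≤ F := by
  have hc := cG_pos
  have h2 : 0 < √(2 : ℝ) := sqrt_pos.2 (by norm_num)
  have hss : 0 < √s := sqrt_pos.2 hs
  rw [QQ, sqrt_cube hs, div_mul_eq_mul_div, div_le_iff₀ (by positivity)]
  rw [hD] at h
  have h3 : cG * (s * √s * v / √2) * F = (v / √2) * (F * (cG * (s * √s))) := by ring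
  rw [h3] at h
  have h4 : Sr * (v * R) = (v / √2) * (Sr * √2 * R) := by field_simp
  rw [h4] at h
  exact le_of_mul_le_mul_left h (by positivity)

lemma dis_small {s m : ℝ} (hs : 0 < s) (hm : m ^ 2 ≤ 1 / 10) :
    QQ s * (1 + m ^ 2 / 2) ≤ FF (s * (1 + m)) (s * (1 - m / 2)) (s * (1 - m / 2)) (s * (1 - m / 2))
      (s * (1 - m / 2)) (s * (1 + m)) := by
  have h1 : -1 < m := by nlinarith
  have h2 : m < 1 / 2 := by nlinarith
  have hv := dis_val hs h1 h2
  have hp := psi1_nonneg hm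
  have hvv : 0 < (1 + m) * √(1 - 2 * m) := mul_pos (by linarith) (sqrt_pos.2 (by linarith))
  refine FF_of_val hs hvv rfl ?_
  rw [hv]
  have : Sr * ((1 + m) * √(1 - 2 * m) * (1 + m ^ 2 / 2)) = Sr * ((1 + m) * (1 + m ^ 2 / 2) * √(1 - 2 * m)) := by
    ring
  linarith

lemma pyr_small {s x : ℝ} (hs : 0 < s) (h1 : -(1 / 6 : ℝ) ≤ x) (h2 : x ≤ 1 / 6) :
    QQ s * (1 + 9 / 5 * x ^ 2) ≤ FF (s * (1 + x)) (s * (1 + x)) (s * (1 + x)) (s * (1 - x))
      (s * (1 - x)) (s * (1 - x)) := by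
  have hv := pyr_val hs (x := x) (by linarith) (by linarith)
  have hp := psi2_nonneg h1 h2
  have hvv : 0 < (1 - x) * √(1 + 2 * x) := mul_pos (by linarith) (sqrt_pos.2 (by linarith))
  refine FF_of_val hs hvv rfl ?_
  rw [hv]
  have : Sr * ((1 - x) * √(1 + 2 * x) * (1 + 9 / 5 * x ^ 2)) = Sr * ((1 - x) * (1 + 9 / 5 * x ^ 2) * √(1 + 2 * x)) := by
    ring
  linarith

lemma reg_val {s : ℝ} (hs : 0 < s) : FF s s s s s s = QQ s := by
  have hv := dis_val hs (m := 0) (by norm_num) (by norm_num)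
  have h0 : psi1 0 = 0 := by
    unfold psi1 Sr
    norm_num
    ring
  rw [h0] at hv
  norm_num at hv
  have hc := cG_pos
  have h2 : 0 < √(2 : ℝ) := sqrt_pos.2 (by norm_num)
  have hss : 0 < √s := sqrt_pos.2 hs
  rw [QQ, sqrt_cube hs, eq_div_iff (by positivity)]
  rw [← hv]
  field_simp

lemma PosF_reg {s : ℝ} (hs : 0 < s) {X Y : ℝ} (hX : 0 < X) (hY : X < 2 * Y) (h : s = s) : PosF X Y Y Y Y X := by
  have hh : 0 < Y - X / 2 := by linarith
  have hsX := sq_sqrt hX.le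
  have hsh := sq_sqrt hh.le
  have hX' : 0 < √X := sqrt_pos.2 hX
  have hh' : 0 < √(Y - X / 2) := sqrt_pos.2 hh
  set p := √X with hp
  set h := √(Y - X / 2) with hhdef
  set x : E3 := V3 (p / 2) 0 (h / 2) with hx
  set y : E3 := V3 (-(p / 2)) 0 (h / 2) with hy
  set z : E3 := V3 0 (p / 2) (-(h / 2)) with hz
  set w : E3 := V3 0 (-(p / 2)) (-(h / 2)) with hw
  have c : ∀ a b c : ℝ, V3 a b c 0 = a ∧ V3 a b c 1 = b ∧ V3 a b c 2 = c := by
    intro a b c
    simp [V3]
  have exy : sd x y = X := by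
    rw [sd_eq, hx, hy]; simp only [c]; linear_combination hsX
  have ezw : sd z w = X := by
    rw [sd_eq, hz, hw]; simp only [c]; linear_combination hsX
  have exz : sd x z = Y := by
    rw [sd_eq, hx, hz]; simp only [c]; linear_combination (1 / 2) * hsX + hsh
  have exw : sd x w = Y := by
    rw [sd_eq, hx, hw]; simp only [c]; linear_combination (1 / 2) * hsX + hsh
  have eyz : sd y z = Y := by
    rw [sd_eq, hy, hz]; simp only [c]; linear_combination (1 / 2) * hsX + hsh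
  have eyw : sd y w = Y := by
    rw [sd_eq, hy, hw]; simp only [c]; linear_combination (1 / 2) * hsX + hsh
  have hdet0 : det3 x y z w ≠ 0 := by
    have : det3 x y z w = X * h := by
      rw [det3, hx, hy, hz, hw]; simp only [c]; linear_combination h * hsX
    rw [this]; positivity
  have := PosF_of_det hdet0
  rwa [exy, exz, exw, eyz, eyw, ezw] at this

lemma dis_lb {s m : ℝ} (hs : 0 < s)
    (h : PosF (s * (1 + m)) (s * (1 - m / 2)) (s * (1 - m / 2)) (s * (1 - m / 2))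
      (s * (1 - m / 2)) (s * (1 + m))) :
    QQ s * (1 + min (1 / 20) (m ^ 2 / 2)) ≤ FF (s * (1 + m)) (s * (1 - m / 2)) (s * (1 - m / 2))
      (s * (1 - m / 2)) (s * (1 - m / 2)) (s * (1 + m)) := by
  have hQ := QQ_pos hs
  rcases le_or_gt (m ^ 2) (1 / 10) with hm | hm
  · refine le_trans ?_ (dis_small hs hm)
    exact mul_le_mul_of_nonneg_left (by linarith [min_le_right (1 / 20 : ℝ) (m ^ 2 / 2)]) hQ.le
  · -- convexity
    have habs : 0 < |m| := by
      rw [abs_pos]; rintro rfl; norm_num at hm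
    set lam := √(1 / 10) / |m| with hlam
    have hsq : √(1 / 10 : ℝ) ^ 2 = 1 / 10 := sq_sqrt (by norm_num)
    have hs0 : 0 < √(1 / 10 : ℝ) := sqrt_pos.2 (by norm_num)
    have hlam0 : 0 < lam := div_pos hs0 habs
    have hlam2 : lam ^ 2 * m ^ 2 = 1 / 10 := by
      rw [hlam, div_pow, hsq, sq_abs]
      field_simp
      rw [div_self]
      rintro rfl; norm_num at hm
    have hlam1 : lam ≤ 1 := by
      by_contra hc
      push Not at hc
      nlinarith [sq_nonneg m, mul_pos hlam0 hlam0]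
    have hreg : PosF s s s s s s := by
      have := PosF_reg hs (X := s) (Y := s) hs (by linarith) rfl
      exact this
    have hav := FF_avg hreg h (w := 1 - lam) (w' := lam) (by linarith) hlam0.le (by ring)
    rw [reg_val hs] at hav
    have hsm := dis_small hs (m := lam * m) (by rw [mul_pow, hlam2])
    have e1 : (1 - lam) * s + lam * (s * (1 + m)) = s * (1 + lam * m) := by ring
    have e2 : (1 - lam) * s + lam * (s * (1 - m / 2)) = s * (1 - lam * m / 2) := by ring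
    rw [e1, e2] at hav
    have h3 := hsm.trans hav
    have e3 : (lam * m) ^ 2 = 1 / 10 := by rw [mul_pow, hlam2]
    rw [e3] at h3
    have h4 : QQ s * (1 + 1 / 20) * lam ≤ lam * FF (s * (1 + m)) (s * (1 - m / 2)) (s * (1 - m / 2))
        (s * (1 - m / 2)) (s * (1 - m / 2)) (s * (1 + m)) := by
      nlinarith
    have h5 : QQ s * (1 + 1 / 20) ≤ FF (s * (1 + m)) (s * (1 - m / 2)) (s * (1 - m / 2))
        (s * (1 - m / 2)) (s * (1 - m / 2)) (s * (1 + m)) := by
      rw [mul_comm] at h4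
      exact le_of_mul_le_mul_left h4 hlam0
    refine le_trans ?_ h5
    exact mul_le_mul_of_nonneg_left (by linarith [min_le_left (1 / 20 : ℝ) (m ^ 2 / 2)]) hQ.le

lemma pyr_lb {s x : ℝ} (hs : 0 < s)
    (h : PosF (s * (1 + x)) (s * (1 + x)) (s * (1 + x)) (s * (1 - x)) (s * (1 - x)) (s * (1 - x))) :
    QQ s * (1 + min (1 / 20) (9 / 5 * x ^ 2)) ≤ FF (s * (1 + x)) (s * (1 + x)) (s * (1 + x))
      (s * (1 - x)) (s * (1 - x)) (s * (1 - x)) := by
  have hQ := QQ_pos hs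
  rcases le_or_gt (|x|) (1 / 6) with hm | hm
  · refine le_trans ?_ (pyr_small hs (abs_le.1 hm).1 (abs_le.1 hm).2)
    exact mul_le_mul_of_nonneg_left (by linarith [min_le_right (1 / 20 : ℝ) (9 / 5 * x ^ 2)]) hQ.le
  · have habs : 0 < |x| := by linarith
    set lam := (1 / 6) / |x| with hlam
    have hlam0 : 0 < lam := div_pos (by norm_num) habs
    have hlx : |lam * x| = 1 / 6 := by
      rw [abs_mul, abs_of_pos hlam0, hlam]; field_simp
    have hlam1 : lam ≤ 1 := by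
      rw [hlam, div_le_one habs]; exact hm.le
    have hreg : PosF s s s s s s := PosF_reg hs (X := s) (Y := s) hs (by linarith) rfl
    have hav := FF_avg hreg h (w := 1 - lam) (w' := lam) (by linarith) hlam0.le (by ring)
    rw [reg_val hs] at hav
    have hsm := pyr_small hs (x := lam * x) (abs_le.1 hlx.le).1 (abs_le.1 hlx.le).2
    have e1 : (1 - lam) * s + lam * (s * (1 + x)) = s * (1 + lam * x) := by ring
    have e2 : (1 - lam) * s + lam * (s * (1 - x)) = s * (1 - lam * x) := by ring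
    rw [e1, e2] at hav
    have h3 := hsm.trans hav
    have e3 : (lam * x) ^ 2 = 1 / 36 := by rw [← sq_abs, hlx]; norm_num
    rw [e3] at h3
    have h4 : QQ s * (1 + 1 / 20) * lam ≤ lam * FF (s * (1 + x)) (s * (1 + x)) (s * (1 + x))
      (s * (1 - x)) (s * (1 - x)) (s * (1 - x)) := by
      nlinarith
    have h5 : QQ s * (1 + 1 / 20) ≤ FF (s * (1 + x)) (s * (1 + x)) (s * (1 + x))
      (s * (1 - x)) (s * (1 - x)) (s * (1 - x)) := by
      rw [mul_comm] at h4
      exact le_of_mul_le_mul_left h4 hlam0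
    refine le_trans ?_ h5
    exact mul_le_mul_of_nonneg_left (by linarith [min_le_left (1 / 20 : ℝ) (9 / 5 * x ^ 2)]) hQ.le

/-- the pair `(a, f)` -/
theorem pair_lb {a b c d e f s m : ℝ} (h : PosF a b c d e f) (hs : s = (a + b + c + d + e + f) / 6)
    (hm : (a + f) / 2 = s * (1 + m)) (hs0 : 0 < s) :
    QQ s * (1 + min (1 / 20) (m ^ 2 / 2)) ≤ FF a b c d e f := by
  obtain ⟨P, A⟩ := avg_D4 h
  have e1 : (b + c + d + e) / 4 = s * (1 - m / 2) := by linarith
  rw [hm, e1] at P A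
  exact (dis_lb hs0 P).trans A

/-- the vertex with the edges `a, b, c` -/
theorem vert_lb {a b c d e f s x : ℝ} (h : PosF a b c d e f) (hs : s = (a + b + c + d + e + f) / 6)
    (hx : (a + b + c) / 3 = s * (1 + x)) (hs0 : 0 < s) :
    QQ s * (1 + min (1 / 20) (9 / 5 * x ^ 2)) ≤ FF a b c d e f := by
  obtain ⟨P, A⟩ := avg_C3 h
  have e1 : (d + e + f) / 3 = s * (1 - x) := by linarith
  rw [hx, e1] at P A
  exact (pyr_lb hs0 P).trans A

lemma FF_24 (a b c d e f : ℝ) : FF c b a f e d = FF a b c d e f := by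
  rw [← FF_23 a b c d e f, ← FF_34 b a c d f e, ← FF_23 b c a f d e]

lemma PosF_24 {a b c d e f : ℝ} (h : PosF a b c d e f) : PosF c b a f e d :=
  PosF_23 (PosF_34 (PosF_23 h))

lemma FF_13 (a b c d e f : ℝ) : FF d b f a e c = FF a b c d e f := by
  rw [← FF_23 a b c d e f, ← FF_12 b a c d f e, ← FF_23 b d f a c e]

lemma PosF_13 {a b c d e f : ℝ} (h : PosF a b c d e f) : PosF d b f a e c :=
  PosF_23 (PosF_12 (PosF_23 h))

lemma FF_14 (a b c d e f : ℝ) : FF e f c d a b = FF a b c d e f := by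
  rw [← FF_34 a b c d e f, ← FF_13 a c b e d f, ← FF_34 e c f a d b]

lemma PosF_14 {a b c d e f : ℝ} (h : PosF a b c d e f) : PosF e f c d a b :=
  PosF_34 (PosF_13 (PosF_34 h))

/-- all seven lower bounds -/
theorem all_lb {a b c d e f s m1 m2 m3 x1 x2 x3 x4 : ℝ} (h : PosF a b c d e f)
    (hs : s = (a + b + c + d + e + f) / 6) (hs0 : 0 < s)
    (hm1 : (a + f) / 2 = s * (1 + m1)) (hm2 : (b + e) / 2 = s * (1 + m2))
    (hm3 : (c + d) / 2 = s * (1 + m3)) (hx1 : (a + b + c) / 3 = s * (1 + x1))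
    (hx2 : (a + d + e) / 3 = s * (1 + x2)) (hx3 : (b + d + f) / 3 = s * (1 + x3))
    (hx4 : (c + e + f) / 3 = s * (1 + x4)) :
    QQ s * (1 + min (1 / 20) (m1 ^ 2 / 2)) ≤ FF a b c d e f ∧
    QQ s * (1 + min (1 / 20) (m2 ^ 2 / 2)) ≤ FF a b c d e f ∧
    QQ s * (1 + min (1 / 20) (m3 ^ 2 / 2)) ≤ FF a b c d e f ∧
    QQ s * (1 + min (1 / 20) (9 / 5 * x1 ^ 2)) ≤ FF a b c d e f ∧
    QQ s * (1 + min (1 / 20) (9 / 5 * x2 ^ 2)) ≤ FF a b c d e f ∧
    QQ s * (1 + min (1 / 20) (9 / 5 * x3 ^ 2)) ≤ FF a b c d e f ∧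
    QQ s * (1 + min (1 / 20) (9 / 5 * x4 ^ 2)) ≤ FF a b c d e f := by
  refine ⟨pair_lb h hs hm1 hs0, ?_, ?_, vert_lb h hs hx1 hs0, ?_, ?_, ?_⟩
  · have := pair_lb (PosF_23 h) (s := s) (m := m2) (by linarith) (by linarith) hs0
    rwa [FF_23] at this
  · have := pair_lb (PosF_24 h) (s := s) (m := m3) (by linarith) (by linarith) hs0
    rwa [FF_24] at this
  · have := vert_lb (PosF_12 h) (s := s) (x := x2) (by linarith) (by linarith) hs0
    rwa [FF_12] at this
  · have := vert_lb (PosF_13 h) (s := s) (x := x3) (by linarith) (by linarith) hs0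
    rwa [FF_13] at this
  · have := vert_lb (PosF_14 h) (s := s) (x := x4) (by linarith) (by linarith) hs0
    rwa [FF_14] at this

end BccO
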