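import Mathlib
import Pool.Agent.MP_bf7174_co.W2

/-!
# MP_bf7174_co, lower density of arbitrary coverings: the Gaussian function of the squared edges
-/

set_option autoImplicit false

open MeasureTheory
open scoped InnerProductSpace

namespace BccO

open BccCov

/-- the open orthant -/
def Or : Set E3 := {l | ∀ i, 0 < l i}

/-- the quadratic form `|l₀ p + l₁ q + l₂ r|²` in terms of squared lengths -/
def qf (A B C x y z : ℝ) (l : E3) : ℝ :=
  A * l 0 ^ 2 + B * l 1 ^ 2 + C * l 2 ^ 2 + (A + B - x) * (l 0 * l 1) + (A + C - y) * (l 0 * l 2)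
    + (B + C - z) * (l 1 * l 2)

/-- the Gaussian integral at one vertex -/
noncomputable def jj (A B C x y z : ℝ) : ℝ := ∫ l in Or, Real.exp (-qf A B C x y z l)

/-- positive definiteness -/
def Pos (A B C x y z : ℝ) : Prop := ∃ k > 0, ∀ l : E3, k * ‖l‖ ^ 2 ≤ qf A B C x y z l

lemma qf_cont (A B C x y z : ℝ) : Continuous (qf A B C x y z) := by
  unfold qf
  fun_prop

lemma integrable_gauss (k : ℝ) (hk : 0 < k) : Integrable (fun l : E3 => Real.exp (-k * ‖l‖ ^ 2)) := by
  by_contra h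
  have h1 := GaussianFourier.integral_rexp_neg_mul_sq_norm (V := E3) hk
  rw [integral_undef h] at h1
  have : 0 < (Real.pi / k) ^ ((Module.finrank ℝ E3 : ℝ) / 2) := Real.rpow_pos_of_pos (by positivity) _
  linarith

lemma integrable_of_Pos {A B C x y z : ℝ} (h : Pos A B C x y z) :
    Integrable (fun l : E3 => Real.exp (-qf A B C x y z l)) := by
  obtain ⟨k, hk, hq⟩ := h
  refine (integrable_gauss k hk).mono' ?_ ?_
  · exact (Real.continuous_exp.comp (qf_cont A B C x y z).neg).aestronglyMeasurable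
  · filter_upwards with l
    rw [Real.norm_eq_abs, abs_of_pos (Real.exp_pos _)]
    apply Real.exp_le_exp.2
    have := hq l
    linarith

lemma measurable_Or : MeasurableSet Or := by
  have : Or = ⋂ i, {l : E3 | 0 < l i} := by
    ext l; simp [Or]
  rw [this]
  exact MeasurableSet.iInter fun i => measurableSet_lt measurable_const (by fun_prop)

lemma Pos_avg {A B C x y z A' B' C' x' y' z' : ℝ} (h : Pos A B C x y z) (h' : Pos A' B' C' x' y' z')
    {w w' : ℝ} (hw : 0 ≤ w) (hw' : 0 ≤ w') (hs : w + w' = 1) :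
    Pos (w * A + w' * A') (w * B + w' * B') (w * C + w' * C') (w * x + w' * x') (w * y + w' * y')
      (w * z + w' * z') := by
  obtain ⟨k, hk, hq⟩ := h
  obtain ⟨k', hk', hq'⟩ := h'
  refine ⟨min k k', lt_min hk hk', fun l => ?_⟩
  have e : qf (w * A + w' * A') (w * B + w' * B') (w * C + w' * C') (w * x + w' * x')
      (w * y + w' * y') (w * z + w' * z') l = w * qf A B C x y z l + w' * qf A' B' C' x' y' z' l := by
    unfold qf; ring
  rw [e]
  have h1 : min k k' * ‖l‖ ^ 2 ≤ qf A B C x y z l :=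
    (mul_le_mul_of_nonneg_right (min_le_left _ _) (by positivity)).trans (hq l)
  have h2 : min k k' * ‖l‖ ^ 2 ≤ qf A' B' C' x' y' z' l :=
    (mul_le_mul_of_nonneg_right (min_le_right _ _) (by positivity)).trans (hq' l)
  calc min k k' * ‖l‖ ^ 2 = w * (min k k' * ‖l‖ ^ 2) + w' * (min k k' * ‖l‖ ^ 2) := by
        rw [← add_mul, hs, one_mul]
    _ ≤ _ := add_le_add (mul_le_mul_of_nonneg_left h1 hw) (mul_le_mul_of_nonneg_left h2 hw')

theorem jj_avg {A B C x y z A' B' C' x' y' z' : ℝ} (h : Pos A B C x y z) (h' : Pos A' B' C' x' y' z')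
    {w w' : ℝ} (hw : 0 ≤ w) (hw' : 0 ≤ w') (hs : w + w' = 1) :
    jj (w * A + w' * A') (w * B + w' * B') (w * C + w' * C') (w * x + w' * x') (w * y + w' * y')
      (w * z + w' * z') ≤ w * jj A B C x y z + w' * jj A' B' C' x' y' z' := by
  unfold jj
  rw [← integral_const_mul, ← integral_const_mul, ← integral_add]
  · apply setIntegral_mono_on
    · exact (integrable_of_Pos (Pos_avg h h' hw hw' hs)).integrableOn
    · exact ((integrable_of_Pos h).integrableOn.const_mul _).add
        ((integrable_of_Pos h').integrableOn.const_mul _)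
    · exact measurable_Or
    · intro l _
      have e : -qf (w * A + w' * A') (w * B + w' * B') (w * C + w' * C') (w * x + w' * x')
          (w * y + w' * y') (w * z + w' * z') l
          = w • (-qf A B C x y z l) + w' • (-qf A' B' C' x' y' z' l) := by
        simp only [smul_eq_mul]
        unfold qf; ring
      rw [e]
      exact convexOn_exp.2 (Set.mem_univ _) (Set.mem_univ _) hw hw' hs
  · exact (integrable_of_Pos h).integrableOn.const_mul _
  · exact (integrable_of_Pos h').integrableOn.const_mul _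

/-- permutation of coordinates -/
noncomputable def pc (σ : Equiv.Perm (Fin 3)) : E3 ≃ₗᵢ[ℝ] E3 :=
  LinearIsometryEquiv.piLpCongrLeft 2 ℝ ℝ σ

lemma pc_apply (σ : Equiv.Perm (Fin 3)) (l : E3) (i : Fin 3) : pc σ l i = l (σ.symm i) := by
  simp [pc, LinearIsometryEquiv.piLpCongrLeft_apply]

lemma pc_Or (σ : Equiv.Perm (Fin 3)) : pc σ ⁻¹' Or = Or := by
  ext l
  simp only [Set.mem_preimage, Or, Set.mem_setOf_eq, pc_apply]
  constructor
  · intro h i
    have := h (σ i)
    simpa using this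
  · intro h i
    exact h _

lemma jj_perm (σ : Equiv.Perm (Fin 3)) {A B C x y z A' B' C' x' y' z' : ℝ}
    (h : ∀ l, qf A B C x y z (pc σ l) = qf A' B' C' x' y' z' l) :
    jj A B C x y z = jj A' B' C' x' y' z' := by
  unfold jj
  have h1 := (pc σ).measurePreserving.setIntegral_preimage_emb (pc σ).toHomeomorph.measurableEmbedding
    (fun l => Real.exp (-qf A B C x y z l)) Or
  rw [pc_Or] at h1
  rw [← h1]
  simp only [h]

lemma Pos_perm (σ : Equiv.Perm (Fin 3)) {A B C x y z A' B' C' x' y' z' : ℝ}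
    (h : ∀ l, qf A B C x y z (pc σ l) = qf A' B' C' x' y' z' l) (hp : Pos A B C x y z) :
    Pos A' B' C' x' y' z' := by
  obtain ⟨k, hk, hq⟩ := hp
  refine ⟨k, hk, fun l => ?_⟩
  have := hq (pc σ l)
  rwa [h, LinearIsometryEquiv.norm_map] at this

lemma s01 (A B C x y z : ℝ) (l : E3) : qf A B C x y z (pc (Equiv.swap 0 1) l) = qf B A C x z y l := by
  unfold qf
  simp only [pc_apply, Equiv.symm_swap, Equiv.swap_apply_left, Equiv.swap_apply_right]
  rw [Equiv.swap_apply_of_ne_of_ne (by decide) (by decide)]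
  ring

lemma s12 (A B C x y z : ℝ) (l : E3) : qf A B C x y z (pc (Equiv.swap 1 2) l) = qf A C B y x z l := by
  unfold qf
  simp only [pc_apply, Equiv.symm_swap, Equiv.swap_apply_left, Equiv.swap_apply_right]
  rw [Equiv.swap_apply_of_ne_of_ne (by decide) (by decide)]
  ring

lemma jj_s01 (A B C x y z : ℝ) : jj A B C x y z = jj B A C x z y := jj_perm _ (s01 A B C x y z)
lemma jj_s12 (A B C x y z : ℝ) : jj A B C x y z = jj A C B y x z := jj_perm _ (s12 A B C x y z)
lemma Pos_s01 {A B C x y z : ℝ} (h : Pos A B C x y z) : Pos B A C x z y :=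
  Pos_perm _ (s01 A B C x y z) h
lemma Pos_s12 {A B C x y z : ℝ} (h : Pos A B C x y z) : Pos A C B y x z :=
  Pos_perm _ (s12 A B C x y z) h

/-- the Gaussian function of the six squared edges
`a = 12, b = 13, c = 14, d = 23, e = 24, f = 34` -/
noncomputable def FF (a b c d e f : ℝ) : ℝ :=
  jj a b c d e f + jj a d e b c f + jj b d f a c e + jj c e f a b d

def PosF (a b c d e f : ℝ) : Prop :=
  Pos a b c d e f ∧ Pos a d e b c f ∧ Pos b d f a c e ∧ Pos c e f a b d

theorem PosF_avg {a b c d e f a' b' c' d' e' f' : ℝ} (h : PosF a b c d e f)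
    (h' : PosF a' b' c' d' e' f') {w w' : ℝ} (hw : 0 ≤ w) (hw' : 0 ≤ w') (hs : w + w' = 1) :
    PosF (w * a + w' * a') (w * b + w' * b') (w * c + w' * c') (w * d + w' * d') (w * e + w' * e')
      (w * f + w' * f') :=
  ⟨Pos_avg h.1 h'.1 hw hw' hs, Pos_avg h.2.1 h'.2.1 hw hw' hs, Pos_avg h.2.2.1 h'.2.2.1 hw hw' hs,
    Pos_avg h.2.2.2 h'.2.2.2 hw hw' hs⟩

theorem FF_avg {a b c d e f a' b' c' d' e' f' : ℝ} (h : PosF a b c d e f)
    (h' : PosF a' b' c' d' e' f') {w w' : ℝ} (hw : 0 ≤ w) (hw' : 0 ≤ w') (hs : w + w' = 1) :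
    FF (w * a + w' * a') (w * b + w' * b') (w * c + w' * c') (w * d + w' * d') (w * e + w' * e')
      (w * f + w' * f') ≤ w * FF a b c d e f + w' * FF a' b' c' d' e' f' := by
  unfold FF
  have h1 := jj_avg h.1 h'.1 hw hw' hs
  have h2 := jj_avg h.2.1 h'.2.1 hw hw' hs
  have h3 := jj_avg h.2.2.1 h'.2.2.1 hw hw' hs
  have h4 := jj_avg h.2.2.2 h'.2.2.2 hw hw' hs
  linarith

/-- swap of the vertices 1 and 2 -/
lemma FF_12 (a b c d e f : ℝ) : FF a d e b c f = FF a b c d e f := by
  unfold FF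
  rw [jj_s01 d b f a e c, jj_s01 e c f a d b]
  ring

lemma PosF_12 {a b c d e f : ℝ} (h : PosF a b c d e f) : PosF a d e b c f :=
  ⟨h.2.1, h.1, Pos_s01 h.2.2.1, Pos_s01 h.2.2.2⟩

/-- swap of the vertices 3 and 4 -/
lemma FF_34 (a b c d e f : ℝ) : FF a c b e d f = FF a b c d e f := by
  unfold FF
  rw [jj_s12 a c b e d f, jj_s12 a e d c b f, jj_s12 c e f a b d, jj_s12 b d f a c e]
  rw [jj_s12 b f d c a e, jj_s12 c f e b a d]
  ring

lemma PosF_34 {a b c d e f : ℝ} (h : PosF a b c d e f) : PosF a c b e d f :=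
  ⟨Pos_s12 h.1, Pos_s12 h.2.1, h.2.2.2, h.2.2.1⟩

/-- swap of the vertices 2 and 3 -/
lemma FF_23 (a b c d e f : ℝ) : FF b a c d f e = FF a b c d e f := by
  unfold FF
  rw [jj_s01 b a c d f e, jj_s01 c f e b a d, jj_s12 f c e b d a]
  have e1 : jj c e f a b d = jj f c e b d a := by
    rw [jj_s12 c e f a b d, jj_s01 c f e b a d]
  have e2 : jj b d f a c e = jj b d f a c e := rfl
  rw [e1, jj_s12 f c e b d a]
  ring

lemma PosF_23 {a b c d e f : ℝ} (h : PosF a b c d e f) : PosF b a c d f e :=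
  ⟨Pos_s01 h.1, h.2.2.1, h.2.1, Pos_s12 h.2.2.2⟩

end BccO
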