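import Pool.Agent.MP_bf7174_co.O.F1

/-!
# averaging of the Gaussian function over subgroups of the symmetric group
-/

set_option autoImplicit false

open MeasureTheory
open scoped InnerProductSpace

namespace BccO

open BccCov

lemma FF_1324 (a b c d e f : ℝ) : FF f b d c e a = FF a b c d e f := by
  rw [← FF_23 a b c d e f, ← FF_12 b a c d f e, ← FF_34 b d f a c e, ← FF_23 b f d c a e]

lemma PosF_1324 {a b c d e f : ℝ} (h : PosF a b c d e f) : PosF f b d c e a :=
  PosF_23 (PosF_34 (PosF_12 (PosF_23 h)))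

lemma FF_234 (a b c d e f : ℝ) : FF b c a f d e = FF a b c d e f := by
  rw [← FF_23 a b c d e f, ← FF_34 b a c d f e]

lemma PosF_234 {a b c d e f : ℝ} (h : PosF a b c d e f) : PosF b c a f d e :=
  PosF_34 (PosF_23 h)


lemma half' {a b c d e f a' b' c' d' e' f' : ℝ} (h : PosF a b c d e f)
    (h' : PosF a' b' c' d' e' f') (he : FF a' b' c' d' e' f' = FF a b c d e f) :
    PosF ((a + a') / 2) ((b + b') / 2) ((c + c') / 2) ((d + d') / 2) ((e + e') / 2) ((f + f') / 2) ∧
    FF ((a + a') / 2) ((b + b') / 2) ((c + c') / 2) ((d + d') / 2) ((e + e') / 2) ((f + f') / 2)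
      ≤ FF a b c d e f := by
  have A1 := FF_avg h h' (w := 1 / 2) (w' := 1 / 2) (by norm_num) (by norm_num) (by norm_num)
  have P1 := PosF_avg h h' (w := 1 / 2) (w' := 1 / 2) (by norm_num) (by norm_num) (by norm_num)
  rw [he] at A1
  constructor
  · convert P1 using 1 <;> ring
  · refine le_trans (le_of_eq ?_) (A1.trans (le_of_eq (by ring)))
    congr 1 <;> ring

theorem avg_D4 {a b c d e f : ℝ} (h : PosF a b c d e f) :
    PosF ((a + f) / 2) ((b + c + d + e) / 4) ((b + c + d + e) / 4) ((b + c + d + e) / 4)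
      ((b + c + d + e) / 4) ((a + f) / 2) ∧
    FF ((a + f) / 2) ((b + c + d + e) / 4) ((b + c + d + e) / 4) ((b + c + d + e) / 4)
      ((b + c + d + e) / 4) ((a + f) / 2) ≤ FF a b c d e f := by
  obtain ⟨P1, A1⟩ := half' h (PosF_12 h) (FF_12 _ _ _ _ _ _)
  obtain ⟨P2, A2⟩ := half' P1 (PosF_34 P1) (FF_34 _ _ _ _ _ _)
  obtain ⟨P3, A3⟩ := half' P2 (PosF_1324 P2) (FF_1324 _ _ _ _ _ _)
  constructor
  · convert P3 using 1 <;> ring
  · refine le_trans (le_of_eq ?_) (A3.trans (A2.trans A1))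
    congr 1 <;> ring

theorem avg_C3 {a b c d e f : ℝ} (h : PosF a b c d e f) :
    PosF ((a + b + c) / 3) ((a + b + c) / 3) ((a + b + c) / 3) ((d + e + f) / 3)
      ((d + e + f) / 3) ((d + e + f) / 3) ∧
    FF ((a + b + c) / 3) ((a + b + c) / 3) ((a + b + c) / 3) ((d + e + f) / 3)
      ((d + e + f) / 3) ((d + e + f) / 3) ≤ FF a b c d e f := by
  have h1 := PosF_234 h
  have h2 := PosF_234 h1
  obtain ⟨P1, A1⟩ := half' h h1 (FF_234 _ _ _ _ _ _)
  have A2 := FF_avg P1 h2 (w := 2 / 3) (w' := 1 / 3) (by norm_num) (by norm_num) (by norm_num)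
  have P2 := PosF_avg P1 h2 (w := 2 / 3) (w' := 1 / 3) (by norm_num) (by norm_num) (by norm_num)
  have e1 := FF_234 a b c d e f
  have e2 := FF_234 b c a f d e
  constructor
  · convert P2 using 1 <;> ring
  · refine le_trans (le_of_eq ?_) (A2.trans ?_)
    · congr 1 <;> ring
    · linarith

end BccO
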