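import Pool.Agent.MP_bf7174_co.O.F2

/-!
# Gaussian measure of a cone and its fraction of the ball
-/

set_option autoImplicit false

open MeasureTheory
open scoped InnerProductSpace Pointwise

namespace BccO

open BccCov

/-- closed under multiplication by positive scalars -/
def IsCone (C : Set E3) : Prop := ∀ c : ℝ, 0 < c → ∀ x ∈ C, c • x ∈ C

/-- the part of the unit ball in `C` -/
noncomputable def frac (C : Set E3) : ℝ :=
  (volume (C ∩ Metric.ball 0 1)).toReal / (volume (Metric.ball (0 : E3) 1)).toReal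

lemma cone_ball {C : Set E3} (hC : IsCone C) {ρ : ℝ} (hρ : 0 < ρ) :
    volume (C ∩ Metric.ball 0 ρ) = ENNReal.ofReal (ρ ^ 3) * volume (C ∩ Metric.ball 0 1) := by
  have h : C ∩ Metric.ball 0 ρ = ρ • (C ∩ Metric.ball (0 : E3) 1) := by
    ext x
    rw [Set.mem_smul_set]
    constructor
    · rintro ⟨h1, h2⟩
      refine ⟨ρ⁻¹ • x, ⟨hC _ (by positivity) x h1, ?_⟩, by rw [smul_smul, mul_inv_cancel₀ hρ.ne', one_smul]⟩
      rw [mem_ball_zero_iff] at h2 ⊢
      rw [norm_smul, Real.norm_eq_abs, abs_of_pos (by positivity), inv_mul_lt_iff₀ hρ, mul_one]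
      exact h2
    · rintro ⟨y, ⟨h1, h2⟩, rfl⟩
      refine ⟨hC _ hρ y h1, ?_⟩
      rw [mem_ball_zero_iff] at h2 ⊢
      rw [norm_smul, Real.norm_eq_abs, abs_of_pos hρ]
      nlinarith
  rw [h, Measure.addHaar_smul_of_nonneg _ hρ.le]
  simp

lemma level_set (t : ℝ) (ht : 0 < t) :
    {x : E3 | t < Real.exp (-1 * ‖x‖ ^ 2)} = if t < 1 then Metric.ball 0 (Real.sqrt (-Real.log t)) else ∅ := by
  ext x
  split_ifs with h
  · have hl : 0 < -Real.log t := by
      have := Real.log_neg ht h
      linarith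
    rw [mem_ball_zero_iff, Set.mem_ofPred_eq, ← Real.log_lt_iff_lt_exp ht,
      Real.lt_sqrt (norm_nonneg x)]
    constructor <;> intro h1 <;> linarith
  · simp only [Set.mem_ofPred_eq, Set.mem_empty_iff_false, iff_false, not_lt]
    push Not at h
    have h2 : Real.exp (-1 * ‖x‖ ^ 2) ≤ 1 := by
      rw [Real.exp_le_one_iff]
      nlinarith [sq_nonneg ‖x‖]
    linarith

lemma lint_cone {C : Set E3} (hC : IsCone C) (hm : MeasurableSet C) :
    ∫⁻ x in C, ENNReal.ofReal (Real.exp (-1 * ‖x‖ ^ 2)) =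
      volume (C ∩ Metric.ball 0 1) * ∫⁻ t in Set.Ioi (0 : ℝ),
        (if t < 1 then ENNReal.ofReal (Real.sqrt (-Real.log t) ^ 3) else 0) := by
  rw [lintegral_eq_lintegral_meas_lt]
  · rw [← lintegral_const_mul]
    · refine setLIntegral_congr_fun measurableSet_Ioi ?_
      intro t ht
      have ht : 0 < t := ht
      show (volume.restrict C) {a | t < Real.exp (-1 * ‖a‖ ^ 2)} =
        volume (C ∩ Metric.ball 0 1) * (if t < 1 then ENNReal.ofReal (Real.sqrt (-Real.log t) ^ 3) else 0)
      rw [level_set t ht]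
      split_ifs with h
      · have hl : 0 < -Real.log t := by
          have := Real.log_neg ht h
          linarith
        rw [Measure.restrict_apply measurableSet_ball, Set.inter_comm,
          cone_ball hC (Real.sqrt_pos.2 hl), mul_comm]
      · simp
    · refine Measurable.ite measurableSet_Iio ?_ measurable_const
      refine ENNReal.measurable_ofReal.comp ?_
      exact ((Real.measurable_log.neg).sqrt).pow_const 3
  · filter_upwards with x
    exact (Real.exp_pos _).le
  · apply Measurable.aemeasurable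
    fun_prop

theorem gauss_cone {C : Set E3} (hC : IsCone C) (hm : MeasurableSet C) :
    ∫ x in C, Real.exp (-1 * ‖x‖ ^ 2) = Real.pi ^ (3 / 2 : ℝ) * frac C := by
  have h1 := lint_cone hC hm
  have h2 := lint_cone (C := Set.univ) (fun _ _ _ _ => Set.mem_univ _) MeasurableSet.univ
  rw [Set.univ_inter, Measure.restrict_univ] at h2
  have hint := integrable_gauss 1 one_pos
  have hv : ∫ x : E3, Real.exp (-1 * ‖x‖ ^ 2) = Real.pi ^ (3 / 2 : ℝ) := by
    have h3 := GaussianFourier.integral_rexp_neg_mul_sq_norm (V := E3) (b := 1) one_pos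
    rw [h3]
    simp
  have e2 : ∫⁻ x : E3, ENNReal.ofReal (Real.exp (-1 * ‖x‖ ^ 2)) = ENNReal.ofReal (Real.pi ^ (3 / 2 : ℝ)) := by
    rw [← hv, ofReal_integral_eq_lintegral_ofReal hint]
    filter_upwards with x
    exact (Real.exp_pos _).le
  have e1 : ∫ x in C, Real.exp (-1 * ‖x‖ ^ 2) =
      (∫⁻ x in C, ENNReal.ofReal (Real.exp (-1 * ‖x‖ ^ 2))).toReal := by
    rw [integral_eq_lintegral_of_nonneg_ae]
    · filter_upwards with x
      exact (Real.exp_pos _).le
    · exact hint.integrableOn.aestronglyMeasurable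
  rw [e2] at h2
  have h4 := congrArg ENNReal.toReal h2
  rw [ENNReal.toReal_ofReal (by positivity), ENNReal.toReal_mul] at h4
  rw [e1, h1, ENNReal.toReal_mul, h4, frac]
  have hb : (volume (Metric.ball (0 : E3) 1)).toReal ≠ 0 := by
    rw [ENNReal.toReal_ne_zero]
    exact ⟨(Metric.measure_ball_pos volume _ one_pos).ne', measure_ball_lt_top.ne⟩
  field_simp

end BccO
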