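import Pool.Agent.MP_bf7174_co.O.G1
import Pool.Agent.MP_bf7174_co.LP

/-!
# the Gaussian integral at a vertex is the solid angle divided by the volume
-/

set_option autoImplicit false

open MeasureTheory
open scoped InnerProductSpace Pointwise

namespace BccO

open BccCov BccCov.W2

/-- squared distance -/
noncomputable def sd (x y : E3) : ℝ := dist x y ^ 2

lemma sd_comm (x y : E3) : sd x y = sd y x := by rw [sd, sd, dist_comm]

lemma sd_eq (x y : E3) : sd x y = (x 0 - y 0) ^ 2 + (x 1 - y 1) ^ 2 + (x 2 - y 2) ^ 2 :=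
  BccCov.LP.dist_sq x y

lemma nsq (x : E3) : ‖x‖ ^ 2 = x 0 ^ 2 + x 1 ^ 2 + x 2 ^ 2 := by
  rw [EuclideanSpace.norm_sq_eq, Fin.sum_univ_three]
  simp [sq_abs]

lemma qf_eq (x y z w l : E3) :
    qf (sd x y) (sd x z) (sd x w) (sd y z) (sd y w) (sd z w) l =
      ‖LL (y - x) (z - x) (w - x) l‖ ^ 2 := by
  rw [nsq, LL_apply]
  simp only [PiLp.add_apply, PiLp.smul_apply, PiLp.sub_apply, smul_eq_mul, qf, sd_eq]
  ring

lemma exists_equiv {p q r : E3} (h : LinearMap.det (LL p q r) ≠ 0) :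
    ∃ Le : E3 ≃L[ℝ] E3, ∀ v, Le v = LL p q r v := by
  let L0 : E3 ≃ₗ[ℝ] E3 := LinearMap.equivOfDetNeZero (LL p q r) h
  exact ⟨L0.toContinuousLinearEquiv, fun v => rfl⟩

lemma Pos_of_det {x y z w : E3} (h : det3 x y z w ≠ 0) :
    Pos (sd x y) (sd x z) (sd x w) (sd y z) (sd y w) (sd z w) := by
  rw [← det_LL] at h
  obtain ⟨Le, hLe⟩ := exists_equiv h
  have hK := Le.symm.toContinuousLinearMap.le_opNorm
  set K := ‖Le.symm.toContinuousLinearMap‖ with hKdef
  have hK0 : 0 ≤ K := norm_nonneg _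
  refine ⟨1 / (K ^ 2 + 1), by positivity, fun l => ?_⟩
  rw [qf_eq, ← hLe]
  have h1 := hK (Le l)
  have h2 : Le.symm.toContinuousLinearMap (Le l) = l := Le.symm_apply_apply l
  rw [h2] at h1
  have h3 : ‖l‖ ^ 2 ≤ K ^ 2 * ‖Le l‖ ^ 2 := by
    rw [← mul_pow]
    exact pow_le_pow_left₀ (norm_nonneg _) h1 2
  rw [div_mul_eq_mul_div, one_mul, div_le_iff₀ (by positivity)]
  nlinarith [sq_nonneg ‖Le l‖]

lemma det3_swap01 (x y z w : E3) : det3 y x z w = -det3 x y z w := by
  unfold det3; ring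
lemma det3_swap12 (x y z w : E3) : det3 x z y w = -det3 x y z w := by
  unfold det3; ring
lemma det3_swap23 (x y z w : E3) : det3 x y w z = -det3 x y z w := by
  unfold det3; ring

lemma PosF_of_det {x y z w : E3} (h : det3 x y z w ≠ 0) :
    PosF (sd x y) (sd x z) (sd x w) (sd y z) (sd y w) (sd z w) := by
  refine ⟨Pos_of_det h, ?_, ?_, ?_⟩
  · have := Pos_of_det (x := y) (y := x) (z := z) (w := w) (by rw [det3_swap01]; exact neg_ne_zero.2 h)
    rwa [sd_comm y x] at this
  · have := Pos_of_det (x := z) (y := x) (z := y) (w := w) (by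
      rw [det3_swap01, det3_swap12, neg_neg]; exact h)
    rwa [sd_comm z x, sd_comm z y] at this
  · have := Pos_of_det (x := w) (y := x) (z := y) (w := z) (by
      rw [det3_swap01, det3_swap12, det3_swap23, neg_neg]; exact neg_ne_zero.2 h)
    rwa [sd_comm w x, sd_comm w y, sd_comm w z] at this

/-- open cone at the vertex `x` -/
def ocone (p q r : E3) : Set E3 := LL p q r '' Or

lemma isCone_ocone (p q r : E3) : IsCone (ocone p q r) := by
  rintro c hc _ ⟨u, hu, rfl⟩
  refine ⟨c • u, fun i => ?_, by rw [map_smul]⟩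
  simp only [PiLp.smul_apply, smul_eq_mul]
  exact mul_pos hc (hu i)

lemma isOpen_Or : IsOpen Or := by
  have : Or = ⋂ i, {l : E3 | 0 < l i} := by
    ext l; simp [Or]
  rw [this]
  exact isOpen_iInter_of_finite fun i => isOpen_lt continuous_const (by fun_prop)

lemma isOpen_ocone {p q r : E3} (h : LinearMap.det (LL p q r) ≠ 0) : IsOpen (ocone p q r) := by
  obtain ⟨Le, hLe⟩ := exists_equiv h
  have : ocone p q r = Le '' Or := by
    unfold ocone
    ext v
    simp [hLe]
  rw [this]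
  exact Le.toHomeomorph.isOpenMap _ isOpen_Or

theorem jj_eq {x y z w : E3} (h : det3 x y z w ≠ 0) :
    |det3 x y z w| * jj (sd x y) (sd x z) (sd x w) (sd y z) (sd y w) (sd z w) =
      Real.pi ^ (3 / 2 : ℝ) * frac (ocone (y - x) (z - x) (w - x)) := by
  have h' := h
  rw [← det_LL] at h'
  obtain ⟨Le, hLe⟩ := exists_equiv h'
  rw [← gauss_cone (isCone_ocone _ _ _) (isOpen_ocone h').measurableSet]
  have hF : (fun v => LL (y - x) (z - x) (w - x) v) = Le := by
    funext v; exact (hLe v).symm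
  have hd : (Le : E3 →L[ℝ] E3).det = det3 x y z w := by
    rw [← det_LL]
    show LinearMap.det _ = _
    congr 1
    ext v : 1
    exact hLe v
  have h1 := integral_image_eq_integral_abs_det_fderiv_smul volume (s := Or) (f := Le)
    (f' := fun _ => (Le : E3 →L[ℝ] E3)) measurable_Or
    (fun v _ => (Le : E3 →L[ℝ] E3).hasFDerivWithinAt) Le.injective.injOn
    (fun v => Real.exp (-1 * ‖v‖ ^ 2))
  have h2 : ocone (y - x) (z - x) (w - x) = Le '' Or := by
    unfold ocone
    ext v
    simp [hLe]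
  rw [h2, h1, jj, ← integral_const_mul]
  refine setIntegral_congr_fun measurable_Or fun l _ => ?_
  simp only [smul_eq_mul]
  rw [hd, qf_eq, ← hLe]
  congr 2
  ring

end BccO
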