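import Pool.Agent.MP_bf7174_co.O.G2
import Pool.Agent.MP_bf7174_co.S

/-!
# Girard's formula: the fraction of a trihedral cone
-/

set_option autoImplicit false

open MeasureTheory
open scoped InnerProductSpace Pointwise

namespace BccO

open BccCov BccCov.W2

section

variable {p q r : E3} (Le : E3 ≃L[ℝ] E3) (hLe : ∀ v, Le v = LL p q r v)

/-- coordinate functional -/
noncomputable def cf (i : Fin 3) : E3 →L[ℝ] ℝ :=
  (EuclideanSpace.proj i).comp (Le.symm : E3 →L[ℝ] E3)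

lemma cf_apply (i : Fin 3) (v : E3) : cf Le i v = Le.symm v i := rfl

lemma null_plane (i : Fin 3) : volume {v : E3 | cf Le i v = 0} = 0 := by
  have h : {v : E3 | cf Le i v = 0} = (LinearMap.ker (cf Le i : E3 →ₗ[ℝ] ℝ) : Set E3) := by
    ext v; simp [LinearMap.mem_ker]
  rw [h]
  apply Measure.addHaar_submodule
  intro htop
  have h1 : Le (EuclideanSpace.single i (1 : ℝ)) ∈ LinearMap.ker (cf Le i : E3 →ₗ[ℝ] ℝ) := by
    rw [htop]; trivial
  rw [LinearMap.mem_ker] at h1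
  have h2 : cf Le i (Le (EuclideanSpace.single i (1 : ℝ))) = 0 := h1
  rw [cf_apply, ContinuousLinearEquiv.symm_apply_apply] at h2
  simp at h2

/-- nonnegative half-space -/
def HP (i : Fin 3) : Set E3 := {v | 0 ≤ cf Le i v}

lemma HP_meas (i : Fin 3) : MeasurableSet (HP Le i) :=
  measurableSet_le measurable_const (cf Le i).continuous.measurable

lemma neg_ball (S : Set E3) (ε : ℝ) :
    volume (-S ∩ Metric.ball 0 ε) = volume (S ∩ Metric.ball (0 : E3) ε) := by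
  have h : -S ∩ Metric.ball 0 ε = -(S ∩ Metric.ball (0 : E3) ε) := by
    ext v
    simp [Set.mem_neg]
  rw [h, Measure.measure_neg]

lemma HP_half (i : Fin 3) : (volume (HP Le i ∩ Metric.ball 0 1)).toReal =
    (volume (Metric.ball (0 : E3) 1)).toReal / 2 := by
  have hB : MeasurableSet (Metric.ball (0 : E3) 1) := measurableSet_ball
  have hfin : ∀ S : Set E3, volume (S ∩ Metric.ball (0 : E3) 1) ≠ ⊤ := fun S =>
    ((measure_mono Set.inter_subset_right).trans_lt measure_ball_lt_top).ne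
  have h1 : volume (Metric.ball (0 : E3) 1) =
      volume (HP Le i ∩ Metric.ball 0 1) + volume ((HP Le i)ᶜ ∩ Metric.ball 0 1) := by
    rw [← measure_inter_add_sdiff (Metric.ball (0 : E3) 1) (HP_meas Le i), Set.inter_comm,
      Set.sdiff_eq, Set.inter_comm _ (HP Le i)ᶜ]
  have h2 : volume ((HP Le i)ᶜ ∩ Metric.ball (0 : E3) 1) =
      volume (HP Le i ∩ Metric.ball 0 1) := by
    rw [← neg_ball (HP Le i)]
    apply measure_congr
    have h3 : ∀ᵐ v : E3, cf Le i v ≠ 0 := by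
      rw [ae_iff]
      simpa using null_plane Le i
    filter_upwards [h3] with v hv
    apply propext
    simp only [HP]
    show (v ∈ (({v | 0 ≤ cf Le i v}ᶜ : Set E3) ∩ Metric.ball 0 1)) ↔
      (v ∈ ((-{v | 0 ≤ cf Le i v} : Set E3) ∩ Metric.ball 0 1))
    simp only [Set.mem_inter_iff, Set.mem_compl_iff, Set.mem_ofPred_eq, not_le, Set.mem_neg, map_neg,
      Left.nonneg_neg_iff]
    constructor
    · rintro ⟨h4, h5⟩
      exact ⟨h4.le, h5⟩
    · rintro ⟨h4, h5⟩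
      exact ⟨lt_of_le_of_ne h4 hv, h5⟩
  have h4 := congrArg ENNReal.toReal h1
  rw [h2, ENNReal.toReal_add (hfin _) (hfin _)] at h4
  linarith

include hLe in
lemma recomb (v : E3) : v = cf Le 0 v • p + cf Le 1 v • q + cf Le 2 v • r := by
  have h := hLe (Le.symm v)
  rw [Le.apply_symm_apply, LL_apply] at h
  exact h

include hLe in
lemma cf_comb (a b c : ℝ) :
    cf Le 0 (a • p + b • q + c • r) = a ∧ cf Le 1 (a • p + b • q + c • r) = b ∧
      cf Le 2 (a • p + b • q + c • r) = c := by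
  have h : Le.symm (a • p + b • q + c • r) = V3 a b c := by
    rw [ContinuousLinearEquiv.symm_apply_eq, hLe, LL_V3]
  simp only [cf_apply, h, V3]
  simp

include hLe in
lemma ocone_eq : ocone p q r = {v | ∀ i, 0 < cf Le i v} := by
  ext v
  constructor
  · rintro ⟨u, hu, rfl⟩ i
    rw [cf_apply, ← hLe, Le.symm_apply_apply]
    exact hu i
  · intro h
    refine ⟨Le.symm v, h, ?_⟩
    rw [← hLe, Le.apply_symm_apply]

end

lemma f3 {P : Fin 3 → Prop} : (∀ i, P i) ↔ P 0 ∧ P 1 ∧ P 2 := by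
  constructor
  · intro h
    exact ⟨h 0, h 1, h 2⟩
  · rintro ⟨h0, h1, h2⟩ i
    fin_cases i <;> assumption

/-- wedge in terms of two directions -/
lemma wedge_fr {u a b : E3} (hu : u ≠ 0)
    (hind : ∀ s t c : ℝ, s • a + t • b + c • u = 0 → s = 0 ∧ t = 0) :
    (volume ({v : E3 | ∃ s t c : ℝ, 0 ≤ s ∧ 0 ≤ t ∧ v = s • a + t • b + c • u} ∩
      Metric.ball (0 : E3) 1)).toReal =
      InnerProductGeometry.angle (perp u a) (perp u b) / (2 * Real.pi) *
        (volume (Metric.ball (0 : E3) 1)).toReal := by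
  have h1 := BccCov.W1.wedge_measure u (perp u a) (perp u b) hu (inner_perp _ _ hu) (inner_perp _ _ hu)
    (by
      rw [LinearIndependent.pair_iff]
      intro s t hst
      apply hind s t (-(s * (⟪u, a⟫_ℝ / ⟪u, u⟫_ℝ)) - t * (⟪u, b⟫_ℝ / ⟪u, u⟫_ℝ))
      rw [← hst, perp, perp]
      module) 1 one_pos
  have h2 : {v : E3 | ∃ s t c : ℝ, 0 ≤ s ∧ 0 ≤ t ∧ v = s • a + t • b + c • u} =
      {v : E3 | ∃ s α β : ℝ, 0 ≤ α ∧ 0 ≤ β ∧ v = s • u + α • perp u a + β • perp u b} := by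
    ext v
    constructor
    · rintro ⟨s, t, c, hs, ht, rfl⟩
      refine ⟨c + s * (⟪u, a⟫_ℝ / ⟪u, u⟫_ℝ) + t * (⟪u, b⟫_ℝ / ⟪u, u⟫_ℝ), s, t, hs, ht, ?_⟩
      rw [perp, perp]
      module
    · rintro ⟨c, s, t, hs, ht, rfl⟩
      refine ⟨s, t, c - s * (⟪u, a⟫_ℝ / ⟪u, u⟫_ℝ) - t * (⟪u, b⟫_ℝ / ⟪u, u⟫_ℝ), hs, ht, ?_⟩
      rw [perp, perp]
      module
  rw [h2, h1, ENNReal.toReal_mul, ENNReal.toReal_ofReal]
  exact div_nonneg (InnerProductGeometry.angle_nonneg _ _) (by positivity)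

/-- **Girard's formula.** -/
theorem girard {x y z w : E3} (h : det3 x y z w ≠ 0) :
    frac (ocone (y - x) (z - x) (w - x)) =
      (dih x y z w + dih x z y w + dih x w y z - Real.pi) / (4 * Real.pi) := by
  have h' := h
  rw [← det_LL] at h'
  obtain ⟨Le, hLe⟩ := exists_equiv h'
  set p := y - x with hp
  set q := z - x with hq
  set r := w - x with hr
  have hpi := Real.pi_pos
  have hcomb := cf_comb Le hLe
  have hlin : ∀ a b c : ℝ, a • p + b • q + c • r = 0 → a = 0 ∧ b = 0 ∧ c = 0 := by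
    intro a b c habc
    obtain ⟨h1, h2, h3⟩ := hcomb a b c
    rw [habc, map_zero] at h1 h2 h3
    exact ⟨h1.symm, h2.symm, h3.symm⟩
  have hp0 : p ≠ 0 := by
    intro h0
    have := (hlin 1 0 0 (by rw [h0]; simp)).1
    exact one_ne_zero this
  have hq0 : q ≠ 0 := by
    intro h0
    have := (hlin 0 1 0 (by rw [h0]; simp)).2.1
    exact one_ne_zero this
  have hr0 : r ≠ 0 := by
    intro h0
    have := (hlin 0 0 1 (by rw [h0]; simp)).2.2
    exact one_ne_zero this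
  set B := Metric.ball (0 : E3) 1 with hB
  set μ := volume.restrict B with hμ
  have hμfin : IsFiniteMeasure μ := ⟨by rw [hμ, Measure.restrict_apply_univ]; exact measure_ball_lt_top⟩
  have hreal : ∀ S : Set E3, μ.real S = (volume (S ∩ B)).toReal := by
    intro S
    rw [Measure.real, hμ, Measure.restrict_apply' measurableSet_ball]
  have M0 : μ.real Set.univ = (volume B).toReal := by rw [hreal, Set.univ_inter]
  have hHP := HP_meas Le
  -- pairwise
  have h12 : μ.real (HP Le 1 ∩ HP Le 2) = dih x y z w / (2 * Real.pi) * (volume B).toReal := by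
    rw [hreal, dih, ← wedge_fr hp0 (fun s t c hst => by
      have := hlin c s t (by rw [← hst]; module)
      exact ⟨this.2.1, this.2.2⟩)]
    congr 2
    ext v
    refine and_congr ?_ Iff.rfl
    simp only [Set.mem_inter_iff, HP, Set.mem_ofPred_eq]
    constructor
    · rintro ⟨h1, h2⟩
      exact ⟨cf Le 1 v, cf Le 2 v, cf Le 0 v, h1, h2, by
        conv_lhs => rw [recomb Le hLe v]
        module⟩
    · rintro ⟨s, t, c, hs, ht, hv⟩
      obtain ⟨_, h2, h3⟩ := hcomb c s t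
      have hv' : v = c • p + s • q + t • r := by rw [hv]; module
      rw [← hv'] at h2 h3
      rw [h2, h3]; exact ⟨hs, ht⟩
  have h02 : μ.real (HP Le 0 ∩ HP Le 2) = dih x z y w / (2 * Real.pi) * (volume B).toReal := by
    rw [hreal, dih, ← wedge_fr hq0 (fun s t c hst => by
      have := hlin s c t (by rw [← hst]; module)
      exact ⟨this.1, this.2.2⟩)]
    congr 2
    ext v
    refine and_congr ?_ Iff.rfl
    simp only [Set.mem_inter_iff, HP, Set.mem_ofPred_eq]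
    constructor
    · rintro ⟨h1, h2⟩
      exact ⟨cf Le 0 v, cf Le 2 v, cf Le 1 v, h1, h2, by
        conv_lhs => rw [recomb Le hLe v]
        module⟩
    · rintro ⟨s, t, c, hs, ht, hv⟩
      obtain ⟨h2, _, h3⟩ := hcomb s c t
      have hv' : v = s • p + c • q + t • r := by rw [hv]; module
      rw [← hv'] at h2 h3
      rw [h2, h3]; exact ⟨hs, ht⟩
  have h01 : μ.real (HP Le 0 ∩ HP Le 1) = dih x w y z / (2 * Real.pi) * (volume B).toReal := by
    rw [hreal, dih, ← wedge_fr hr0 (fun s t c hst => by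
      have := hlin s t c (by rw [← hst])
      exact ⟨this.1, this.2.1⟩)]
    congr 2
    ext v
    refine and_congr ?_ Iff.rfl
    simp only [Set.mem_inter_iff, HP, Set.mem_ofPred_eq]
    constructor
    · rintro ⟨h1, h2⟩
      exact ⟨cf Le 0 v, cf Le 1 v, cf Le 2 v, h1, h2, by
        conv_lhs => rw [recomb Le hLe v]⟩
    · rintro ⟨s, t, c, hs, ht, hv⟩
      obtain ⟨h2, h3, _⟩ := hcomb s t c
      rw [← hv] at h2 h3
      rw [h2, h3]; exact ⟨hs, ht⟩
  have hi : ∀ i, μ.real (HP Le i) = (volume B).toReal / 2 := fun i => by rw [hreal, HP_half]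
  -- the open cone
  have hae : ∀ᵐ v : E3, ∀ i, cf Le i v ≠ 0 := by
    rw [ae_all_iff]
    intro i
    rw [ae_iff]
    simpa using null_plane Le i
  have hoc : ocone p q r = {v | ∀ i, 0 < cf Le i v} := ocone_eq Le hLe
  have hPPP : μ.real (HP Le 0 ∩ HP Le 1 ∩ HP Le 2) = (volume (ocone p q r ∩ B)).toReal := by
    rw [hreal]
    congr 1
    apply measure_congr
    filter_upwards [hae] with v hv
    apply propext
    show v ∈ ((HP Le 0 ∩ HP Le 1 ∩ HP Le 2) ∩ B) ↔ v ∈ (ocone p q r ∩ B)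
    rw [hoc]
    refine and_congr ?_ Iff.rfl
    simp only [Set.mem_inter_iff, HP, Set.mem_ofPred_eq, f3]
    constructor
    · rintro ⟨⟨h1, h2⟩, h3⟩
      exact ⟨lt_of_le_of_ne h1 (hv 0).symm, lt_of_le_of_ne h2 (hv 1).symm,
        lt_of_le_of_ne h3 (hv 2).symm⟩
    · rintro ⟨h1, h2, h3⟩
      exact ⟨⟨h1.le, h2.le⟩, h3.le⟩
  have hNNN : μ.real ((HP Le 0)ᶜ ∩ (HP Le 1)ᶜ ∩ (HP Le 2)ᶜ) = (volume (ocone p q r ∩ B)).toReal := by
    rw [hreal, hB, ← neg_ball (ocone p q r)]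
    congr 2
    ext v
    rw [hoc]
    simp only [Set.mem_inter_iff, HP, Set.mem_ofPred_eq, Set.mem_compl_iff, not_le, Set.mem_neg,
      map_neg, Left.neg_pos_iff, f3]
    tauto
  -- inclusion-exclusion
  have hie : μ.real (HP Le 0 ∩ HP Le 1 ∩ HP Le 2) + μ.real ((HP Le 0)ᶜ ∩ (HP Le 1)ᶜ ∩ (HP Le 2)ᶜ) =
      μ.real Set.univ - μ.real (HP Le 0) - μ.real (HP Le 1) - μ.real (HP Le 2) +
        μ.real (HP Le 0 ∩ HP Le 1) + μ.real (HP Le 0 ∩ HP Le 2) + μ.real (HP Le 1 ∩ HP Le 2) := by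
    have hdec : ∀ S T : Set E3, MeasurableSet T → μ.real (S ∩ Tᶜ) = μ.real S - μ.real (S ∩ T) := by
      intro S T hT
      have h1 := measureReal_inter_add_sdiff (μ := μ) (s := S) hT
      rw [Set.sdiff_eq] at h1
      linarith
    have e1 := hdec ((HP Le 0)ᶜ ∩ (HP Le 1)ᶜ) (HP Le 2) (hHP 2)
    have e2 := hdec ((HP Le 0)ᶜ) (HP Le 1) (hHP 1)
    have e3 := hdec Set.univ (HP Le 0) (hHP 0)
    have e4 := hdec (HP Le 1) (HP Le 0) (hHP 0)
    have e5 := hdec ((HP Le 0)ᶜ ∩ HP Le 2) (HP Le 1) (hHP 1)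
    have e6 := hdec (HP Le 2) (HP Le 0) (hHP 0)
    have e7 := hdec (HP Le 1 ∩ HP Le 2) (HP Le 0) (hHP 0)
    rw [Set.univ_inter, Set.univ_inter] at e3
    have f1 : (HP Le 0)ᶜ ∩ HP Le 1 = HP Le 1 ∩ (HP Le 0)ᶜ := Set.inter_comm _ _
    have f2 : (HP Le 0)ᶜ ∩ (HP Le 1)ᶜ ∩ HP Le 2 = (HP Le 0)ᶜ ∩ HP Le 2 ∩ (HP Le 1)ᶜ :=
      Set.inter_right_comm _ _ _
    have f3 : (HP Le 0)ᶜ ∩ HP Le 2 = HP Le 2 ∩ (HP Le 0)ᶜ := Set.inter_comm _ _
    have f4 : (HP Le 0)ᶜ ∩ HP Le 2 ∩ HP Le 1 = HP Le 1 ∩ HP Le 2 ∩ (HP Le 0)ᶜ := by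
      ext v; simp only [Set.mem_inter_iff]; tauto
    have f5 : HP Le 1 ∩ HP Le 0 = HP Le 0 ∩ HP Le 1 := Set.inter_comm _ _
    have f6 : HP Le 2 ∩ HP Le 0 = HP Le 0 ∩ HP Le 2 := Set.inter_comm _ _
    have f7 : HP Le 1 ∩ HP Le 2 ∩ HP Le 0 = HP Le 0 ∩ HP Le 1 ∩ HP Le 2 := by
      ext v; simp only [Set.mem_inter_iff]; tauto
    rw [f1, e4, f5] at e2
    rw [f2, e5, f3, e6, f6, ← f3, f4, e7, f7] at e1
    linarith
  rw [hPPP, hNNN, M0, hi, hi, hi, h01, h02, h12] at hie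
  have hb : (volume B).toReal ≠ 0 := by
    rw [ENNReal.toReal_ne_zero]
    exact ⟨(Metric.measure_ball_pos volume _ one_pos).ne', measure_ball_lt_top.ne⟩
  rw [frac]
  field_simp
  field_simp at hie
  linarith

end BccO
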