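import Pool.Agent.MP_bf7174_co.O.G3

/-!
# the sum of the solid angles and the dihedral angles in terms of the squared edges
-/

set_option autoImplicit false

open MeasureTheory
open scoped InnerProductSpace Pointwise

namespace BccO

open BccCov BccCov.W2

/-- sum of the four solid angles of a tetrahedron -/
noncomputable def SS (x y z w : E3) : ℝ :=
  2 * (dih x y z w + dih x z y w + dih x w y z + dih y z x w + dih y w x z + dih z w x y)
    - 4 * Real.pi

/-- `S = cG |det3| FF` -/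
noncomputable def cG : ℝ := 4 * Real.pi / Real.pi ^ (3 / 2 : ℝ)

lemma cG_pos : 0 < cG := by
  unfold cG
  have := Real.pi_pos
  positivity

lemma ne_of_det {x y z w : E3} (h : det3 x y z w ≠ 0) :
    x ≠ y ∧ x ≠ z ∧ x ≠ w ∧ y ≠ z ∧ y ≠ w ∧ z ≠ w := by
  refine ⟨?_, ?_, ?_, ?_, ?_, ?_⟩ <;> rintro rfl <;> apply h <;> unfold det3 <;> ring

theorem fracs {x y z w : E3} (h : det3 x y z w ≠ 0) :
    frac (ocone (y - x) (z - x) (w - x)) + frac (ocone (x - y) (z - y) (w - y)) +
      frac (ocone (x - z) (y - z) (w - z)) + frac (ocone (x - w) (y - w) (z - w)) =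
      SS x y z w / (4 * Real.pi) := by
  obtain ⟨hxy, hxz, hxw, hyz, hyw, hzw⟩ := ne_of_det h
  have hpi := Real.pi_pos
  have h1 := girard h
  have h2 := girard (x := y) (y := x) (z := z) (w := w) (by rw [det3_swap01]; exact neg_ne_zero.2 h)
  have h3 := girard (x := z) (y := x) (z := y) (w := w) (by
      rw [det3_swap01, det3_swap12, neg_neg]; exact h)
  have h4 := girard (x := w) (y := x) (z := y) (w := z) (by
      rw [det3_swap01, det3_swap12, det3_swap23, neg_neg]; exact neg_ne_zero.2 h)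
  rw [h1, h2, h3, h4, SS]
  rw [BccCov.S.dih_swap_left x y z w hxy, BccCov.S.dih_swap_left x z y w hxz,
    BccCov.S.dih_swap_left y z x w hyz, BccCov.S.dih_swap_left x w y z hxw,
    BccCov.S.dih_swap_left y w x z hyw, BccCov.S.dih_swap_left z w x y hzw]
  field_simp
  ring

theorem SS_eq {x y z w : E3} (h : det3 x y z w ≠ 0) :
    SS x y z w = cG * |det3 x y z w| *
      FF (sd x y) (sd x z) (sd x w) (sd y z) (sd y w) (sd z w) := by
  have hpi := Real.pi_pos
  have h1 := jj_eq h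
  have h2 := jj_eq (x := y) (y := x) (z := z) (w := w) (by rw [det3_swap01]; exact neg_ne_zero.2 h)
  have h3 := jj_eq (x := z) (y := x) (z := y) (w := w) (by
      rw [det3_swap01, det3_swap12, neg_neg]; exact h)
  have h4 := jj_eq (x := w) (y := x) (z := y) (w := z) (by
      rw [det3_swap01, det3_swap12, det3_swap23, neg_neg]; exact neg_ne_zero.2 h)
  rw [det3_swap01, abs_neg, sd_comm y x] at h2
  rw [det3_swap01, det3_swap12, neg_neg, sd_comm z x, sd_comm z y] at h3
  rw [det3_swap01, det3_swap12, det3_swap23, neg_neg, abs_neg, sd_comm w x, sd_comm w y,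
    sd_comm w z] at h4
  have h5 := fracs h
  have hP : 0 < Real.pi ^ (3 / 2 : ℝ) := Real.rpow_pos_of_pos hpi _
  have h6 : SS x y z w = 4 * Real.pi * (frac (ocone (y - x) (z - x) (w - x)) +
      frac (ocone (x - y) (z - y) (w - y)) +
      frac (ocone (x - z) (y - z) (w - z)) + frac (ocone (x - w) (y - w) (z - w))) := by
    rw [h5]; field_simp
  have h7 : |det3 x y z w| * FF (sd x y) (sd x z) (sd x w) (sd y z) (sd y w) (sd z w) =
      Real.pi ^ (3 / 2 : ℝ) * (frac (ocone (y - x) (z - x) (w - x)) +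
      frac (ocone (x - y) (z - y) (w - y)) +
      frac (ocone (x - z) (y - z) (w - z)) + frac (ocone (x - w) (y - w) (z - w))) := by
    unfold FF
    linarith
  rw [mul_assoc, h7, h6, cG]
  field_simp

/-- numerator and squared denominators of the cosine of the dihedral angle at the edge `a` -/
def N4 (a b c d e f : ℝ) : ℝ := 2 * a * (b + c - f) - (a + b - d) * (a + c - e)
def A4 (a b d : ℝ) : ℝ := 4 * a * b - (a + b - d) ^ 2

lemma inner_perp_perp {u v v' : E3} (hu : u ≠ 0) :
    ⟪perp u v, perp u v'⟫_ℝ = ⟪v, v'⟫_ℝ - ⟪u, v⟫_ℝ * ⟪u, v'⟫_ℝ / ⟪u, u⟫_ℝ := by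
  have h : ⟪u, u⟫_ℝ ≠ 0 := inner_self_ne_zero.2 hu
  unfold perp
  simp only [inner_sub_left, inner_sub_right, inner_smul_left, inner_smul_right, RCLike.conj_to_real]
  rw [real_inner_comm u v]
  field_simp
  ring

lemma inner_sd (x y z : E3) : ⟪y - x, z - x⟫_ℝ = (sd x y + sd x z - sd y z) / 2 := by
  have h : sd y z = ‖(y - x) - (z - x)‖ ^ 2 := by
    rw [sd, dist_eq_norm]; congr 2; abel
  have h1 : sd x y = ‖y - x‖ ^ 2 := by rw [sd, dist_comm, dist_eq_norm]
  have h2 : sd x z = ‖z - x‖ ^ 2 := by rw [sd, dist_comm, dist_eq_norm]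
  have h3 := norm_sub_sq_real (y - x) (z - x)
  rw [h, h1, h2, h3]
  ring

lemma perp_inner (x y z w : E3) (hxy : x ≠ y) :
    ⟪perp (y - x) (z - x), perp (y - x) (w - x)⟫_ℝ =
      N4 (sd x y) (sd x z) (sd x w) (sd y z) (sd y w) (sd z w) / (4 * sd x y) := by
  have hu : y - x ≠ 0 := sub_ne_zero.2 hxy.symm
  have ha : sd x y ≠ 0 := by
    rw [sd]; exact pow_ne_zero _ (dist_ne_zero.2 hxy)
  rw [inner_perp_perp hu, inner_sd, inner_sd, inner_sd, inner_sd]
  have h0 : sd y y = 0 := by simp [sd]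
  rw [h0, N4]
  field_simp
  ring

lemma perp_norm (x y z : E3) (hxy : x ≠ y) :
    ‖perp (y - x) (z - x)‖ ^ 2 = A4 (sd x y) (sd x z) (sd y z) / (4 * sd x y) := by
  rw [← real_inner_self_eq_norm_sq, perp_inner x y z z hxy, N4, A4]
  have h0 : sd z z = 0 := by simp [sd]
  rw [h0]
  ring

theorem dih_eq (x y z w : E3) (hxy : x ≠ y) :
    dih x y z w = Real.arccos (N4 (sd x y) (sd x z) (sd x w) (sd y z) (sd y w) (sd z w) /
      Real.sqrt (A4 (sd x y) (sd x z) (sd y z) * A4 (sd x y) (sd x w) (sd y w))) := by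
  unfold dih InnerProductGeometry.angle
  congr 1
  have ha : 0 < sd x y := by
    rw [sd]; exact pow_pos (dist_pos.2 hxy) _
  have h1 := perp_norm x y z hxy
  have h2 := perp_norm x y w hxy
  have e1 : ‖perp (y - x) (z - x)‖ = Real.sqrt (A4 (sd x y) (sd x z) (sd y z) / (4 * sd x y)) := by
    rw [← h1, Real.sqrt_sq (norm_nonneg _)]
  have e2 : ‖perp (y - x) (w - x)‖ = Real.sqrt (A4 (sd x y) (sd x w) (sd y w) / (4 * sd x y)) := by
    rw [← h2, Real.sqrt_sq (norm_nonneg _)]
  have hA1 : 0 ≤ A4 (sd x y) (sd x z) (sd y z) := by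
    have : A4 (sd x y) (sd x z) (sd y z) = 4 * sd x y * ‖perp (y - x) (z - x)‖ ^ 2 := by
      rw [h1]; field_simp
    rw [this]; positivity
  rw [perp_inner x y z w hxy, e1, e2, ← Real.sqrt_mul (by positivity)]
  have e3 : A4 (sd x y) (sd x z) (sd y z) / (4 * sd x y) * (A4 (sd x y) (sd x w) (sd y w) / (4 * sd x y))
      = (A4 (sd x y) (sd x z) (sd y z) * A4 (sd x y) (sd x w) (sd y w)) / (4 * sd x y) ^ 2 := by
    field_simp
  rw [e3, Real.sqrt_div' _ (by positivity), Real.sqrt_sq (by positivity)]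
  rw [div_div_div_cancel_right₀ (by positivity)]

end BccO
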