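import Pool.Agent.MP_bf7174_co.O.D2

/-!
# determinant and dihedral angles in terms of the six squared edges
-/

set_option autoImplicit false

open MeasureTheory Real
open scoped InnerProductSpace Pointwise

namespace BccO

open BccCov BccCov.W2

/-- `36 V²` in terms of the squared edges -/
noncomputable def CM (a b c d e f : ℝ) : ℝ :=
  (a * f * (b + e + c + d - a - f) + b * e * (a + f + c + d - b - e) +
    c * d * (a + f + b + e - c - d) - (a * b * d + a * c * e + b * c * f + d * e * f)) / 4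

lemma gram_det (p0 p1 p2 q0 q1 q2 r0 r1 r2 A B C x y z : ℝ)
    (hA : A = p0 ^ 2 + p1 ^ 2 + p2 ^ 2) (hB : B = q0 ^ 2 + q1 ^ 2 + q2 ^ 2)
    (hC : C = r0 ^ 2 + r1 ^ 2 + r2 ^ 2) (hx : x = p0 * q0 + p1 * q1 + p2 * q2)
    (hy : y = p0 * r0 + p1 * r1 + p2 * r2) (hz : z = q0 * r0 + q1 * r1 + q2 * r2) :
    (p0 * (q1 * r2 - q2 * r1) - p1 * (q0 * r2 - q2 * r0) + p2 * (q0 * r1 - q1 * r0)) ^ 2 =
      A * B * C + 2 * x * y * z - A * z ^ 2 - B * y ^ 2 - C * x ^ 2 := by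
  subst hA hB hC hx hy hz
  ring

theorem det3_sq (x y z w : E3) :
    det3 x y z w ^ 2 = CM (sd x y) (sd x z) (sd x w) (sd y z) (sd y w) (sd z w) := by
  have h := gram_det (y 0 - x 0) (y 1 - x 1) (y 2 - x 2) (z 0 - x 0) (z 1 - x 1) (z 2 - x 2)
    (w 0 - x 0) (w 1 - x 1) (w 2 - x 2) (sd x y) (sd x z) (sd x w)
    ((sd x y + sd x z - sd y z) / 2) ((sd x y + sd x w - sd y w) / 2)
    ((sd x z + sd x w - sd z w) / 2)
    (by rw [sd_eq]; ring) (by rw [sd_eq]; ring) (by rw [sd_eq]; ring)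
    (by rw [sd_eq, sd_eq, sd_eq]; ring) (by rw [sd_eq, sd_eq, sd_eq]; ring)
    (by rw [sd_eq, sd_eq, sd_eq]; ring)
  rw [det3, h, CM]
  ring

/-- `A4 A4' - N4² = 16 a det²` -/
lemma A4_N4 (a b c d e f : ℝ) :
    A4 a b d * A4 a c e - N4 a b c d e f ^ 2 = 16 * a * CM a b c d e f := by
  unfold A4 N4 CM
  ring

/-- normalised form: `a = s (1 + m₁ + d₁)` and so on -/
lemma CM_norm (s m1 m2 m3 d1 d2 d3 : ℝ) (hm : m1 + m2 + m3 = 0) :
    2 * CM (s * (1 + m1 + d1)) (s * (1 + m2 + d2)) (s * (1 + m3 + d3)) (s * (1 + m3 - d3))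
      (s * (1 + m2 - d2)) (s * (1 + m1 - d1)) =
    s ^ 3 * ((1 - 2 * m1) * (1 - 2 * m2) * (1 - 2 * m3) - (1 - 2 * m1) * d1 ^ 2 -
      (1 - 2 * m2) * d2 ^ 2 - (1 - 2 * m3) * d3 ^ 2 + 2 * d1 * d2 * d3) := by
  have : m3 = -m1 - m2 := by linarith
  subst this
  unfold CM
  ring

/-- the face radius is at most the radius of the ball -/
lemma A4_ge {x y z o : E3} {ρ R : ℝ} (hx : dist x o = ρ) (hy : dist y o = ρ) (hz : dist z o = ρ)
    (hρ : ρ ≤ R) (hR : 0 ≤ R) : sd x y * sd x z * sd y z ≤ R ^ 2 * A4 (sd x y) (sd x z) (sd y z) := by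
  have hρ0 : 0 ≤ ρ := by rw [← hx]; exact dist_nonneg
  have ex : ρ ^ 2 = (x 0 - o 0) ^ 2 + (x 1 - o 1) ^ 2 + (x 2 - o 2) ^ 2 := by
    rw [← hx, ← sd_eq, sd]
  have ey : ρ ^ 2 = (y 0 - o 0) ^ 2 + (y 1 - o 1) ^ 2 + (y 2 - o 2) ^ 2 := by
    rw [← hy, ← sd_eq, sd]
  have ez : ρ ^ 2 = (z 0 - o 0) ^ 2 + (z 1 - o 1) ^ 2 + (z 2 - o 2) ^ 2 := by
    rw [← hz, ← sd_eq, sd]
  have h := gram_det (x 0 - o 0) (x 1 - o 1) (x 2 - o 2) (y 0 - o 0) (y 1 - o 1) (y 2 - o 2)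
    (z 0 - o 0) (z 1 - o 1) (z 2 - o 2) (ρ ^ 2) (ρ ^ 2) (ρ ^ 2)
    (ρ ^ 2 - sd x y / 2) (ρ ^ 2 - sd x z / 2) (ρ ^ 2 - sd y z / 2) ex ey ez
    (by rw [sd_eq]; linear_combination (1 / 2) * ex + (1 / 2) * ey)
    (by rw [sd_eq]; linear_combination (1 / 2) * ex + (1 / 2) * ez)
    (by rw [sd_eq]; linear_combination (1 / 2) * ey + (1 / 2) * ez)
  have h2 : 0 ≤ ρ ^ 2 * A4 (sd x y) (sd x z) (sd y z) - sd x y * sd x z * sd y z := by
    have : ρ ^ 2 * A4 (sd x y) (sd x z) (sd y z) - sd x y * sd x z * sd y z =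
        4 * ((x 0 - o 0) * ((y 1 - o 1) * (z 2 - o 2) - (y 2 - o 2) * (z 1 - o 1)) -
        (x 1 - o 1) * ((y 0 - o 0) * (z 2 - o 2) - (y 2 - o 2) * (z 0 - o 0)) +
        (x 2 - o 2) * ((y 0 - o 0) * (z 1 - o 1) - (y 1 - o 1) * (z 0 - o 0))) ^ 2 := by
      rw [h]; unfold A4; ring
    rw [this]; positivity
  have h3 : 0 ≤ A4 (sd x y) (sd x z) (sd y z) := by
    by_cases hxy : x = y
    · subst hxy
      have : sd x x = 0 := by simp [sd]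
      rw [this, A4]; ring_nf; rfl
    · have h4 := perp_norm x y z hxy
      have ha : 0 < sd x y := by
        rw [sd]; exact pow_pos (dist_pos.2 hxy) _
      have : A4 (sd x y) (sd x z) (sd y z) = 4 * sd x y * ‖perp (y - x) (z - x)‖ ^ 2 := by
        rw [h4]; field_simp
      rw [this]; positivity
  have h4 : ρ ^ 2 * A4 (sd x y) (sd x z) (sd y z) ≤ R ^ 2 * A4 (sd x y) (sd x z) (sd y z) :=
    mul_le_mul_of_nonneg_right (pow_le_pow_left₀ hρ0 hρ 2) h3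
  linarith

/-- sum of the squared edges of a tetrahedron in a ball -/
lemma sum_sd_le {x y z w o : E3} {ρ R : ℝ} (hx : dist x o = ρ) (hy : dist y o = ρ)
    (hz : dist z o = ρ) (hw : dist w o = ρ) (hρ : ρ ≤ R) :
    sd x y + sd x z + sd x w + sd y z + sd y w + sd z w ≤ 16 * R ^ 2 := by
  have hρ0 : 0 ≤ ρ := by rw [← hx]; exact dist_nonneg
  have ex : ρ ^ 2 = (x 0 - o 0) ^ 2 + (x 1 - o 1) ^ 2 + (x 2 - o 2) ^ 2 := by
    rw [← hx, ← sd_eq, sd]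
  have ey : ρ ^ 2 = (y 0 - o 0) ^ 2 + (y 1 - o 1) ^ 2 + (y 2 - o 2) ^ 2 := by
    rw [← hy, ← sd_eq, sd]
  have ez : ρ ^ 2 = (z 0 - o 0) ^ 2 + (z 1 - o 1) ^ 2 + (z 2 - o 2) ^ 2 := by
    rw [← hz, ← sd_eq, sd]
  have ew : ρ ^ 2 = (w 0 - o 0) ^ 2 + (w 1 - o 1) ^ 2 + (w 2 - o 2) ^ 2 := by
    rw [← hw, ← sd_eq, sd]
  have h1 : ρ ^ 2 ≤ R ^ 2 := pow_le_pow_left₀ hρ0 hρ 2
  have h2 : sd x y + sd x z + sd x w + sd y z + sd y w + sd z w = 16 * ρ ^ 2 -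
      ((x 0 - o 0 + (y 0 - o 0) + (z 0 - o 0) + (w 0 - o 0)) ^ 2 +
       (x 1 - o 1 + (y 1 - o 1) + (z 1 - o 1) + (w 1 - o 1)) ^ 2 +
       (x 2 - o 2 + (y 2 - o 2) + (z 2 - o 2) + (w 2 - o 2)) ^ 2) := by
    simp only [sd_eq]
    linear_combination (-4) * ex + (-4) * ey + (-4) * ez + (-4) * ew
  rw [h2]
  nlinarith [sq_nonneg (x 0 - o 0 + (y 0 - o 0) + (z 0 - o 0) + (w 0 - o 0)),
    sq_nonneg (x 1 - o 1 + (y 1 - o 1) + (z 1 - o 1) + (w 1 - o 1)),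
    sq_nonneg (x 2 - o 2 + (y 2 - o 2) + (z 2 - o 2) + (w 2 - o 2))]

/-- the squared sine of the dihedral angle -/
lemma sin_sq_dih (x y z w : E3) (hxy : x ≠ y)
    (h1 : 0 < A4 (sd x y) (sd x z) (sd y z)) (h2 : 0 < A4 (sd x y) (sd x w) (sd y w)) :
    sin (dih x y z w) ^ 2 = 16 * sd x y * det3 x y z w ^ 2 /
      (A4 (sd x y) (sd x z) (sd y z) * A4 (sd x y) (sd x w) (sd y w)) := by
  rw [dih_eq x y z w hxy, det3_sq, ← A4_N4]
  set N := N4 (sd x y) (sd x z) (sd x w) (sd y z) (sd y w) (sd z w) with hN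
  set A1 := A4 (sd x y) (sd x z) (sd y z)
  set A2 := A4 (sd x y) (sd x w) (sd y w)
  rw [sin_arccos, sq_sqrt, div_pow, sq_sqrt (by positivity)]
  · field_simp
  · rw [div_pow, sq_sqrt (by positivity), sub_nonneg, div_le_one (by positivity)]
    have h3 := A4_N4 (sd x y) (sd x z) (sd x w) (sd y z) (sd y w) (sd z w)
    have h4 : 0 ≤ 16 * sd x y * CM (sd x y) (sd x z) (sd x w) (sd y z) (sd y w) (sd z w) := by
      rw [← det3_sq]
      have : 0 ≤ sd x y := by unfold sd; positivity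
      positivity
    linarith

end BccO
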