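import Pool.Agent.MP_bf7174_co.O.H1
import Pool.Agent.MP_bf7174_co.V

/-!
# lower bounds for the solid angles
-/

set_option autoImplicit false

open MeasureTheory Real
open scoped InnerProductSpace Pointwise

namespace BccO

open BccCov BccCov.W2

lemma vol_ball1 : (volume (Metric.ball (0 : E3) 1)).toReal = 4 / 3 * π := by
  rw [EuclideanSpace.volume_ball_fin_three, ENNReal.toReal_mul, ENNReal.toReal_pow,
    ENNReal.toReal_ofReal (by norm_num), ENNReal.toReal_ofReal (by positivity)]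
  ring

theorem frac_ge {x y z w : E3} (h : det3 x y z w ≠ 0) :
    |det3 x y z w| / 6 / (dist x y * dist x z * dist x w) ≤
      4 / 3 * π * frac (ocone (y - x) (z - x) (w - x)) := by
  obtain ⟨hxy, hxz, hxw, -, -, -⟩ := ne_of_det h
  have h' := h
  rw [← det_LL] at h'
  obtain ⟨Le, hLe⟩ := exists_equiv h'
  have hp : 0 < dist x y := dist_pos.2 hxy
  have hq : 0 < dist x z := dist_pos.2 hxz
  have hr : 0 < dist x w := dist_pos.2 hxw
  have ep : ‖y - x‖ = dist x y := by rw [dist_comm, dist_eq_norm]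
  have eq : ‖z - x‖ = dist x z := by rw [dist_comm, dist_eq_norm]
  have er : ‖w - x‖ = dist x w := by rw [dist_comm, dist_eq_norm]
  set p := y - x with hpd
  set q := z - x with hqd
  set r := w - x with hrd
  set P := dist x y
  set Q := dist x z
  set R := dist x w
  have hdet : |det3 (0 : E3) (P⁻¹ • p) (Q⁻¹ • q) (R⁻¹ • r)| = |det3 x y z w| / (P * Q * R) := by
    have : det3 (0 : E3) (P⁻¹ • p) (Q⁻¹ • q) (R⁻¹ • r) = det3 x y z w / (P * Q * R) := by
      unfold det3
      simp only [PiLp.smul_apply, PiLp.zero_apply, smul_eq_mul, hpd, hqd, hrd, PiLp.sub_apply]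
      field_simp
      ring
    rw [this, abs_div, abs_of_pos (by positivity : 0 < P * Q * R)]
  have hvol := BccCov.V.vol_tet 0 (P⁻¹ • p) (Q⁻¹ • q) (R⁻¹ • r)
  rw [hdet] at hvol
  have hle : volume (convexHull ℝ ({0, P⁻¹ • p, Q⁻¹ • q, R⁻¹ • r} : Set E3)) ≤
      volume (ocone p q r ∩ Metric.ball 0 1) := by
    apply measure_mono_ae
    have h3 : ∀ i, ∀ᵐ v : E3, cf Le i v ≠ 0 := by
      intro i
      rw [ae_iff]
      simpa using null_plane Le i
    have h4 : ∀ᵐ v : E3, ‖v‖ ≠ 1 := by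
      rw [ae_iff]
      have := Measure.addHaar_sphere (volume : Measure E3) 0 1
      simpa [Metric.sphere] using this
    filter_upwards [h3 0, h3 1, h3 2, h4] with v v0 v1 v2 v3 hv
    have hv : v ∈ convexHull ℝ ({0, P⁻¹ • p, Q⁻¹ • q, R⁻¹ • r} : Set E3) := hv
    rw [BccCov.V.hull_eq] at hv
    obtain ⟨_, ⟨u, ⟨hu0, hu1, hu2, hu3⟩, rfl⟩, hv⟩ := hv
    rw [BccCov.V.LL_apply] at hv
    simp only [sub_zero, zero_add] at hv
    have hv' : (u 0 * P⁻¹) • p + (u 1 * Q⁻¹) • q + (u 2 * R⁻¹) • r = v := by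
      rw [← hv, smul_smul, smul_smul, smul_smul]
    have hc := cf_comb Le hLe (u 0 * P⁻¹) (u 1 * Q⁻¹) (u 2 * R⁻¹)
    rw [hv'] at hc
    obtain ⟨c0, c1, c2⟩ := hc
    show v ∈ ocone p q r ∩ Metric.ball 0 1
    refine ⟨?_, ?_⟩
    · rw [ocone_eq Le hLe, Set.mem_setOf_eq, f3]
      refine ⟨lt_of_le_of_ne ?_ (Ne.symm v0), lt_of_le_of_ne ?_ (Ne.symm v1),
        lt_of_le_of_ne ?_ (Ne.symm v2)⟩
      · rw [c0]; positivity
      · rw [c1]; positivity
      · rw [c2]; positivity
    · rw [mem_ball_zero_iff]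
      refine lt_of_le_of_ne ?_ v3
      rw [← hv]
      refine (norm_add_le _ _).trans ?_
      have e1 : ‖u 0 • P⁻¹ • p‖ = u 0 := by
        rw [norm_smul, norm_smul, ep, Real.norm_eq_abs, Real.norm_eq_abs, abs_of_nonneg hu0,
          abs_of_pos (inv_pos.2 hp), inv_mul_cancel₀ hp.ne', mul_one]
      have e2 : ‖u 1 • Q⁻¹ • q‖ = u 1 := by
        rw [norm_smul, norm_smul, eq, Real.norm_eq_abs, Real.norm_eq_abs, abs_of_nonneg hu1,
          abs_of_pos (inv_pos.2 hq), inv_mul_cancel₀ hq.ne', mul_one]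
      have e3 : ‖u 2 • R⁻¹ • r‖ = u 2 := by
        rw [norm_smul, norm_smul, er, Real.norm_eq_abs, Real.norm_eq_abs, abs_of_nonneg hu2,
          abs_of_pos (inv_pos.2 hr), inv_mul_cancel₀ hr.ne', mul_one]
      have := norm_add_le (u 0 • P⁻¹ • p) (u 1 • Q⁻¹ • q)
      linarith
  rw [hvol] at hle
  have hB : (volume (Metric.ball (0 : E3) 1)).toReal ≠ 0 := by
    rw [vol_ball1]; positivity
  have hfin : volume (ocone p q r ∩ Metric.ball 0 1) ≠ ⊤ :=
    ((measure_mono Set.inter_subset_right).trans_lt measure_ball_lt_top).ne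
  have h5 := ENNReal.toReal_mono hfin hle
  rw [ENNReal.toReal_ofReal (by positivity)] at h5
  have h6 : 4 / 3 * π * frac (ocone p q r) = (volume (ocone p q r ∩ Metric.ball 0 1)).toReal := by
    rw [frac, vol_ball1]
    field_simp
  rw [h6]
  refine le_trans (le_of_eq ?_) h5
  field_simp

lemma frac_nonneg (C : Set E3) : 0 ≤ frac C := by
  unfold frac; positivity

end BccO
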