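import Pool.Agent.MP_bf7174_co.O.T1

/-!
# the edge potential
-/

set_option autoImplicit false

open Real

namespace BccO

/-- four degrees -/
noncomputable def om : ℝ := π / 45

lemma om_pos : 0 < om := by unfold om; have := pi_pos; positivity

/-- distance from an interval -/
noncomputable def dI (p q θ : ℝ) : ℝ := max (p - θ) (max (θ - q) 0)

/-- the potential of a dihedral angle -/
noncomputable def gp (θ : ℝ) : ℝ :=
  max (-θ) (max (om - |θ - 17 * om|) (max (-(max (42 * om - θ) 0))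
    (max (-(5 * om) - dI (5 * om) (11 * om) θ) (-(4 * om) - dI (22 * om) (38 * om) θ))))

lemma gp_ge1 (θ : ℝ) : om - |θ - 17 * om| ≤ gp θ :=
  (le_max_left _ _).trans (le_max_right _ _)

lemma gp_ge0 (θ : ℝ) : -θ ≤ gp θ := le_max_left _ _

lemma gp_ge2 (θ : ℝ) : -(max (42 * om - θ) 0) ≤ gp θ :=
  (le_max_left _ _).trans ((le_max_right _ _).trans (le_max_right _ _))

lemma gp_ge3 (θ : ℝ) : -(5 * om) - dI (5 * om) (11 * om) θ ≤ gp θ :=
  (le_max_left _ _).trans ((le_max_right _ _).trans ((le_max_right _ _).trans (le_max_right _ _)))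

lemma gp_ge4 (θ : ℝ) : -(4 * om) - dI (22 * om) (38 * om) θ ≤ gp θ :=
  (le_max_right _ _).trans ((le_max_right _ _).trans ((le_max_right _ _).trans (le_max_right _ _)))

lemma gp_types (θ : ℝ) (h0 : 0 ≤ θ) (h1 : θ ≤ 45 * om) : ∃ k a b j : ℕ,
    gp θ ≤ om * (k - 5 * a - 4 * b) ∧ gp θ ≤ om * (18 * k + 6 * a + 34 * b + 45 * j) - θ ∧
    gp θ ≤ θ - om * (16 * k + 10 * a + 26 * b + 42 * j) := by
  have ho := om_pos
  have hcase : gp θ = -θ ∨ gp θ = om - |θ - 17 * om| ∨ gp θ = -(max (42 * om - θ) 0) ∨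
      gp θ = -(5 * om) - dI (5 * om) (11 * om) θ ∨ gp θ = -(4 * om) - dI (22 * om) (38 * om) θ := by
    unfold gp
    rcases max_choice (-θ) (max (om - |θ - 17 * om|) (max (-(max (42 * om - θ) 0))
      (max (-(5 * om) - dI (5 * om) (11 * om) θ) (-(4 * om) - dI (22 * om) (38 * om) θ)))) with h | h
    · left; exact h
    · right
      rw [h]
      rcases max_choice (om - |θ - 17 * om|) (max (-(max (42 * om - θ) 0))
        (max (-(5 * om) - dI (5 * om) (11 * om) θ) (-(4 * om) - dI (22 * om) (38 * om) θ))) with h | h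
      · left; exact h
      · right
        rw [h]
        rcases max_choice (-(max (42 * om - θ) 0))
          (max (-(5 * om) - dI (5 * om) (11 * om) θ) (-(4 * om) - dI (22 * om) (38 * om) θ)) with h | h
        · left; exact h
        · right
          rw [h]
          rcases max_choice (-(5 * om) - dI (5 * om) (11 * om) θ)
            (-(4 * om) - dI (22 * om) (38 * om) θ) with h | h
          · left; exact h
          · right; exact h
  have hd : ∀ p q, p - θ ≤ dI p q θ ∧ θ - q ≤ dI p q θ ∧ 0 ≤ dI p q θ := fun p q =>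
    ⟨le_max_left _ _, (le_max_left _ _).trans (le_max_right _ _),
      (le_max_right _ _).trans (le_max_right _ _)⟩
  rcases hcase with h | h | h | h | h
  · refine ⟨0, 0, 0, 0, ?_, ?_, ?_⟩ <;> rw [h] <;> push_cast <;> nlinarith
  · have h2 := abs_nonneg (θ - 17 * om)
    have h3 := le_abs_self (θ - 17 * om)
    have h4 := neg_le_abs (θ - 17 * om)
    refine ⟨1, 0, 0, 0, ?_, ?_, ?_⟩ <;> rw [h] <;> push_cast <;> nlinarith
  · have h2 := le_max_left (42 * om - θ) 0
    have h3 := le_max_right (42 * om - θ) 0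
    refine ⟨0, 0, 0, 1, ?_, ?_, ?_⟩ <;> rw [h] <;> push_cast <;> nlinarith
  · obtain ⟨h2, h3, h4⟩ := hd (5 * om) (11 * om)
    refine ⟨0, 1, 0, 0, ?_, ?_, ?_⟩ <;> rw [h] <;> push_cast <;> nlinarith
  · obtain ⟨h2, h3, h4⟩ := hd (22 * om) (38 * om)
    refine ⟨0, 0, 1, 0, ?_, ?_, ?_⟩ <;> rw [h] <;> push_cast <;> nlinarith

theorem gp_sum {ι : Type*} (s : Finset ι) (θ : ι → ℝ) (h0 : ∀ i ∈ s, 0 ≤ θ i)
    (h1 : ∀ i ∈ s, θ i ≤ π) (hs : ∑ i ∈ s, θ i = 2 * π) : ∑ i ∈ s, gp (θ i) ≤ 0 := by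
  classical
  have ho := om_pos
  have hpi : π = 45 * om := by unfold om; ring
  have hex : ∀ i : ι, ∃ f : Fin 4 → ℕ, i ∈ s →
      gp (θ i) ≤ om * (f 0 - 5 * f 1 - 4 * f 2) ∧
      gp (θ i) ≤ om * (18 * f 0 + 6 * f 1 + 34 * f 2 + 45 * f 3) - θ i ∧
      gp (θ i) ≤ θ i - om * (16 * f 0 + 10 * f 1 + 26 * f 2 + 42 * f 3) := by
    intro i
    by_cases hi : i ∈ s
    · obtain ⟨k, a, b, j, h2, h3, h4⟩ := gp_types (θ i) (h0 i hi) (by rw [← hpi]; exact h1 i hi)
      exact ⟨![k, a, b, j], fun _ => ⟨by simpa using h2, by simpa using h3, by simpa using h4⟩⟩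
    · exact ⟨fun _ => 0, fun h => absurd h hi⟩
  choose f hf using hex
  set K := ∑ i ∈ s, f i 0 with hK
  set A := ∑ i ∈ s, f i 1 with hA
  set B := ∑ i ∈ s, f i 2 with hB
  set J := ∑ i ∈ s, f i 3 with hJ
  have hKr : (K : ℝ) = ∑ i ∈ s, (f i 0 : ℝ) := by rw [hK]; push_cast; rfl
  have hAr : (A : ℝ) = ∑ i ∈ s, (f i 1 : ℝ) := by rw [hA]; push_cast; rfl
  have hBr : (B : ℝ) = ∑ i ∈ s, (f i 2 : ℝ) := by rw [hB]; push_cast; rfl
  have hJr : (J : ℝ) = ∑ i ∈ s, (f i 3 : ℝ) := by rw [hJ]; push_cast; rfl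
  have s1 : ∑ i ∈ s, gp (θ i) ≤ om * (K - 5 * A - 4 * B) := by
    refine (Finset.sum_le_sum fun i hi => (hf i hi).1).trans (le_of_eq ?_)
    rw [← Finset.mul_sum, Finset.sum_sub_distrib, Finset.sum_sub_distrib, ← Finset.mul_sum,
      ← Finset.mul_sum, hKr, hAr, hBr]
  have s2 : ∑ i ∈ s, gp (θ i) ≤ om * (18 * K + 6 * A + 34 * B + 45 * J) - 90 * om := by
    refine (Finset.sum_le_sum fun i hi => (hf i hi).2.1).trans (le_of_eq ?_)
    rw [Finset.sum_sub_distrib, hs, ← Finset.mul_sum, Finset.sum_add_distrib,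
      Finset.sum_add_distrib, Finset.sum_add_distrib, ← Finset.mul_sum,
      ← Finset.mul_sum, ← Finset.mul_sum, ← Finset.mul_sum, hKr, hAr, hBr, hJr, hpi]
    ring
  have s3 : ∑ i ∈ s, gp (θ i) ≤ 90 * om - om * (16 * K + 10 * A + 26 * B + 42 * J) := by
    refine (Finset.sum_le_sum fun i hi => (hf i hi).2.2).trans (le_of_eq ?_)
    rw [Finset.sum_sub_distrib, hs, ← Finset.mul_sum, Finset.sum_add_distrib,
      Finset.sum_add_distrib, Finset.sum_add_distrib, ← Finset.mul_sum,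
      ← Finset.mul_sum, ← Finset.mul_sum, ← Finset.mul_sum, hKr, hAr, hBr, hJr, hpi]
    ring
  have htri : K ≤ 5 * A + 4 * B ∨ 18 * K + 6 * A + 34 * B + 45 * J ≤ 90 ∨
      90 ≤ 16 * K + 10 * A + 26 * B + 42 * J := by
    clear_value K A B J
    clear hK hA hB hJ hKr hAr hBr hJr s1 s2 s3
    by_contra hcon
    push Not at hcon
    obtain ⟨c1, c2, c3⟩ := hcon
    have k5 : K ≤ 5 := by omega
    have a0 : A = 0 := by omega
    subst a0
    have b1 : B ≤ 1 := by omega
    have j2 : J ≤ 2 := by omega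
    interval_cases B <;> interval_cases J <;> omega
  rcases htri with h | h | h
  · have h' : (K : ℝ) ≤ 5 * A + 4 * B := by exact_mod_cast h
    nlinarith
  · have h' : 18 * (K : ℝ) + 6 * A + 34 * B + 45 * J ≤ 90 := by exact_mod_cast h
    nlinarith
  · have h' : 90 ≤ 16 * (K : ℝ) + 10 * A + 26 * B + 42 * J := by exact_mod_cast h
    nlinarith

lemma gp_le {θ : ℝ} (h0 : 0 ≤ θ) : gp θ ≤ om := by
  have ho := om_pos
  have hd : ∀ p q, 0 ≤ dI p q θ := fun p q => (le_max_right _ _).trans (le_max_right _ _)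
  unfold gp
  refine max_le (by linarith) (max_le ?_ (max_le ?_ (max_le ?_ ?_)))
  · linarith [abs_nonneg (θ - 17 * om)]
  · linarith [le_max_right (42 * om - θ) 0]
  · linarith [hd (5 * om) (11 * om)]
  · linarith [hd (22 * om) (38 * om)]

lemma gp_lb {θ : ℝ} : -(5 * om) ≤ gp θ := by
  have ho := om_pos
  rcases le_total θ (5 * om) with h | h
  · linarith [gp_ge0 θ]
  rcases le_total θ (11 * om) with h2 | h2
  · have h3 := gp_ge3 θ
    have : dI (5 * om) (11 * om) θ = 0 := by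
      unfold dI
      rw [max_eq_right (by linarith : θ - 11 * om ≤ 0), max_eq_right (by linarith)]
    linarith
  rcases le_total θ (17 * om) with h3 | h3
  · have h4 := gp_ge1 θ
    rw [abs_of_nonpos (by linarith)] at h4
    linarith
  rcases le_total θ (22 * om) with h4 | h4
  · have h5 := gp_ge1 θ
    rw [abs_of_nonneg (by linarith)] at h5
    linarith
  rcases le_total θ (38 * om) with h5 | h5
  · have h6 := gp_ge4 θ
    have : dI (22 * om) (38 * om) θ = 0 := by
      unfold dI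
      rw [max_eq_right (by linarith : θ - 38 * om ≤ 0), max_eq_right (by linarith)]
    linarith
  · have h6 := gp_ge2 θ
    have : max (42 * om - θ) 0 ≤ 4 * om := max_le (by linarith) (by linarith)
    linarith

lemma sin_ge_lin {x : ℝ} (h0 : 0 ≤ x) (h1 : x ≤ π / 9) : 3 / π * x ≤ sin x := by
  have h2 := sin_ge3 h0
  have hp3 : (3.14 : ℝ) < π := pi_gt_d2
  have hp4 : π < 3.15 := pi_lt_d2
  have h3 : x ≤ 0.35 := by linarith
  have h4 : 3 / π ≤ 0.96 := by
    rw [div_le_iff₀ pi_pos]; linarith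
  have h5 : 3 / π * x ≤ 0.96 * x := mul_le_mul_of_nonneg_right h4 h0
  nlinarith [mul_nonneg h0 (by nlinarith : 0 ≤ 0.35 ^ 2 - x ^ 2)]

theorem neg_gp_le {θ : ℝ} (h0 : 0 ≤ θ) (h1 : θ ≤ π) : -gp θ ≤ π / 3 * sin θ := by
  have ho := om_pos
  have hpi := pi_pos
  have hpo : π = 45 * om := by unfold om; ring
  rcases le_total θ (π / 9) with h | h
  · have h2 := sin_ge_lin h0 h
    have h3 := gp_ge0 θ
    have h4 : π / 3 * (3 / π * θ) ≤ π / 3 * sin θ := mul_le_mul_of_nonneg_left h2 (by positivity)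
    have h5 : π / 3 * (3 / π * θ) = θ := by field_simp
    linarith
  rcases le_total θ (π - π / 9) with h2 | h2
  · have h3 : 1 / 3 ≤ sin θ := by
      have h4 := sin_ge_lin (x := π / 9) (by positivity) le_rfl
      have h5 : 3 / π * (π / 9) = 1 / 3 := by field_simp; norm_num
      rw [h5] at h4
      refine h4.trans ?_
      rcases le_total θ (π / 2) with h6 | h6
      · exact sin_le_sin_of_le_of_le_pi_div_two (by linarith) h6 h
      · rw [← sin_pi_sub θ]
        exact sin_le_sin_of_le_of_le_pi_div_two (by linarith) (by linarith) (by linarith)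
    have h4 := gp_lb (θ := θ)
    have h5 : π / 3 * (1 / 3) ≤ π / 3 * sin θ := mul_le_mul_of_nonneg_left h3 (by positivity)
    linarith
  · have h3 := sin_ge_lin (x := π - θ) (by linarith) (by linarith)
    rw [sin_pi_sub] at h3
    have h4 : π / 3 * (3 / π * (π - θ)) ≤ π / 3 * sin θ := mul_le_mul_of_nonneg_left h3 (by positivity)
    have h5 : π / 3 * (3 / π * (π - θ)) = π - θ := by field_simp
    have h6 := gp_ge2 θ
    have h7 : max (42 * om - θ) 0 ≤ π - θ := max_le (by linarith) (by linarith)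
    linarith

end BccO
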