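import Pool.Agent.MP_bf7174_co.O.H2
import Pool.Agent.MP_bf7174_co.O.P1

/-!
# the sines of the dihedral angles are bounded by the solid angles
-/

set_option autoImplicit false

open MeasureTheory Real
open scoped InnerProductSpace Pointwise

namespace BccO

open BccCov BccCov.W2

lemma sd_pos {x y : E3} (h : x ≠ y) : 0 < sd x y := by
  rw [sd]; exact pow_pos (dist_pos.2 h) _

lemma dih_bd (x y z w : E3) : 0 ≤ dih x y z w ∧ dih x y z w ≤ π :=
  ⟨InnerProductGeometry.angle_nonneg _ _, InnerProductGeometry.angle_le_pi _ _⟩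

lemma SS_swap12 (x y z w : E3) (hxy : x ≠ y) : SS y x z w = SS x y z w := by
  unfold SS
  rw [BccCov.S.dih_swap_left x y z w hxy, BccCov.S.dih_swap_right z w y x]
  ring

lemma SS_swap34 (x y z w : E3) (hzw : z ≠ w) : SS x y w z = SS x y z w := by
  unfold SS
  rw [BccCov.S.dih_swap_right x y w z, BccCov.S.dih_swap_left z w x y hzw]
  ring

lemma SS_swap23 (x y z w : E3) (hyz : y ≠ z) : SS x z y w = SS x y z w := by
  unfold SS
  rw [BccCov.S.dih_swap_right x w z y, BccCov.S.dih_swap_left y z x w hyz]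
  ring

/-- the four solid angles -/
theorem omegas {x y z w : E3} (h : det3 x y z w ≠ 0) : ∃ w1 w2 w3 w4 : ℝ,
    SS x y z w = w1 + w2 + w3 + w4 ∧
    w1 = dih x y z w + dih x z y w + dih x w y z - π ∧
    w2 = dih x y z w + dih y z x w + dih y w x z - π ∧
    w3 = dih x z y w + dih y z x w + dih z w x y - π ∧
    w4 = dih x w y z + dih y w x z + dih z w x y - π ∧
    |det3 x y z w| ≤ 2 * (dist x y * dist x z * dist x w) * w1 ∧
    |det3 x y z w| ≤ 2 * (dist x y * dist y z * dist y w) * w2 ∧
    |det3 x y z w| ≤ 2 * (dist x z * dist y z * dist z w) * w3 ∧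
    |det3 x y z w| ≤ 2 * (dist x w * dist y w * dist z w) * w4 := by
  obtain ⟨hxy, hxz, hxw, hyz, hyw, hzw⟩ := ne_of_det h
  have hpi := pi_pos
  have main : ∀ a b c d : E3, det3 a b c d ≠ 0 →
      |det3 a b c d| ≤ 2 * (dist a b * dist a c * dist a d) * (dih a b c d + dih a c b d + dih a d b c - π) := by
    intro a b c d hd
    obtain ⟨hab, hac, had, -, -, -⟩ := ne_of_det hd
    have h1 := frac_ge hd
    rw [girard hd] at h1
    have hP : 0 < dist a b * dist a c * dist a d :=
      mul_pos (mul_pos (dist_pos.2 hab) (dist_pos.2 hac)) (dist_pos.2 had)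
    rw [div_le_iff₀ hP] at h1
    have h2 : 4 / 3 * π * ((dih a b c d + dih a c b d + dih a d b c - π) / (4 * π)) =
      (dih a b c d + dih a c b d + dih a d b c - π) / 3 := by field_simp
    rw [h2] at h1
    linarith
  have h1 := main x y z w h
  have h2 := main y x z w (by rw [det3_swap01]; exact neg_ne_zero.2 h)
  have h3 := main z x y w (by rw [det3_swap01, det3_swap12, neg_neg]; exact h)
  have h4 := main w x y z (by
      rw [det3_swap01, det3_swap12, det3_swap23, neg_neg]; exact neg_ne_zero.2 h)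
  rw [det3_swap01, abs_neg, dist_comm y x, BccCov.S.dih_swap_left x y z w hxy] at h2
  rw [det3_swap01, det3_swap12, neg_neg, dist_comm z x, dist_comm z y,
    BccCov.S.dih_swap_left x z y w hxz, BccCov.S.dih_swap_left y z x w hyz] at h3
  rw [det3_swap01, det3_swap12, det3_swap23, neg_neg, abs_neg, dist_comm w x, dist_comm w y,
    dist_comm w z, BccCov.S.dih_swap_left x w y z hxw, BccCov.S.dih_swap_left y w x z hyw,
    BccCov.S.dih_swap_left z w x y hzw] at h4
  exact ⟨_, _, _, _, by rw [SS]; ring, rfl, rfl, rfl, rfl, h1, h2, h3, h4⟩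

lemma sin_dih_le {x y z w o : E3} {ρ : ℝ} (h : det3 x y z w ≠ 0) (hx : dist x o = ρ)
    (hy : dist y o = ρ) (hz : dist z o = ρ) (hw : dist w o = ρ) (hρ : ρ ≤ 1) :
    sin (dih x y z w) * (dist x y * dist x z * dist x w * dist y z * dist y w) ≤
      4 * |det3 x y z w| := by
  obtain ⟨hxy, hxz, hxw, hyz, hyw, hzw⟩ := ne_of_det h
  have a0 := sd_pos hxy
  have b0 := sd_pos hxz
  have c0 := sd_pos hxw
  have d0 := sd_pos hyz
  have e0 := sd_pos hyw
  have h1 := A4_ge hx hy hz hρ (by norm_num)
  have h2 := A4_ge hx hy hw hρ (by norm_num)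
  rw [one_pow, one_mul] at h1 h2
  have p1 : 0 < A4 (sd x y) (sd x z) (sd y z) := lt_of_lt_of_le (by positivity) h1
  have p2 : 0 < A4 (sd x y) (sd x w) (sd y w) := lt_of_lt_of_le (by positivity) h2
  have h3 := sin_sq_dih x y z w hxy p1 p2
  apply abs_le_of_sq_le_sq' _ (by positivity) |>.2
  rw [mul_pow, h3]
  have h4 : (dist x y * dist x z * dist x w * dist y z * dist y w) ^ 2 =
      sd x y * sd x z * sd x w * sd y z * sd y w := by
    unfold sd; ring
  rw [h4, mul_pow, sq_abs, div_mul_eq_mul_div, div_le_iff₀ (by positivity)]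
  have h5 : (sd x y * sd x z * sd y z) * (sd x y * sd x w * sd y w) ≤
      A4 (sd x y) (sd x z) (sd y z) * A4 (sd x y) (sd x w) (sd y w) :=
    mul_le_mul h1 h2 (by positivity) p1.le
  have h6 : 0 ≤ 16 * det3 x y z w ^ 2 := by positivity
  calc _ = (16 * det3 x y z w ^ 2) * ((sd x y * sd x z * sd y z) * (sd x y * sd x w * sd y w)) := by ring
    _ ≤ (16 * det3 x y z w ^ 2) * (A4 (sd x y) (sd x z) (sd y z) * A4 (sd x y) (sd x w) (sd y w)) :=
      mul_le_mul_of_nonneg_left h5 h6
    _ = _ := by ring

lemma sin_sub_le (s t : ℝ) : sin s ≤ sin t + |s - t| := by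
  have h1 := abs_sin_sub_sin_le s t
  have h2 := le_abs_self (sin s - sin t)
  linarith

lemma abs_sin_le : ∀ s t : ℝ, |sin s - sin t| ≤ |s - t| := by
  intro s t
  exact abs_sin_sub_sin_le s t

/-- **sine bound** -/
theorem sin_bound {x y z w o : E3} {ρ : ℝ} (h : det3 x y z w ≠ 0) (hx : dist x o = ρ)
    (hy : dist y o = ρ) (hz : dist z o = ρ) (hw : dist w o = ρ) (hρ : ρ ≤ 1) :
    sin (dih x y z w) * ((dist x z + dist y w) * (dist x w + dist y z)) ≤
      (8 + (dist x z + dist y w) * (dist x w + dist y z) / 2) * SS x y z w := by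
  obtain ⟨hxy, hxz, hxw, hyz, hyw, hzw⟩ := ne_of_det h
  have hA := dist_pos.2 hxy
  have hB := dist_pos.2 hxz
  have hC := dist_pos.2 hxw
  have hD := dist_pos.2 hyz
  have hE := dist_pos.2 hyw
  have hF := dist_pos.2 hzw
  have s1 := sin_dih_le h hx hy hz hw hρ
  have s2 := sin_dih_le (x := z) (y := w) (z := x) (w := y) (by
    rw [show det3 z w x y = det3 x y z w by unfold det3; ring]; exact h) hz hw hx hy hρ
  rw [show det3 z w x y = det3 x y z w by unfold det3; ring, dist_comm z x, dist_comm z y,
    dist_comm w x, dist_comm w y] at s2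
  obtain ⟨w1, w2, w3, w4, hS, e1, e2, e3, e4, o1, o2, o3, o4⟩ := omegas h
  have hdet : 0 < |det3 x y z w| := abs_pos.2 h
  set A := dist x y
  set B := dist x z
  set C := dist x w
  set D := dist y z
  set E := dist y w
  set F := dist z w
  have p1 : 0 < w1 := by
    by_contra hc; push Not at hc
    have : 2 * (A * B * C) * w1 ≤ 0 := mul_nonpos_of_nonneg_of_nonpos (by positivity) hc
    linarith
  have p2 : 0 < w2 := by
    by_contra hc; push Not at hc
    have : 2 * (A * D * E) * w2 ≤ 0 := mul_nonpos_of_nonneg_of_nonpos (by positivity) hc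
    linarith
  have p3 : 0 < w3 := by
    by_contra hc; push Not at hc
    have : 2 * (B * D * F) * w3 ≤ 0 := mul_nonpos_of_nonneg_of_nonpos (by positivity) hc
    linarith
  have p4 : 0 < w4 := by
    by_contra hc; push Not at hc
    have : 2 * (C * E * F) * w4 ≤ 0 := mul_nonpos_of_nonneg_of_nonpos (by positivity) hc
    linarith
  -- sin at the edge `xy`
  have k1 : sin (dih x y z w) * (D * E + B * C) ≤ 8 * (w1 + w2) := by
    have h1 : sin (dih x y z w) * (D * E + B * C) * (A * B * C * D * E) ≤
        8 * (w1 + w2) * (A * B * C * D * E) := by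
      have g1 : |det3 x y z w| * (D * E) ≤ 2 * (A * B * C * D * E) * w1 := by
        calc _ ≤ (2 * (A * B * C) * w1) * (D * E) := mul_le_mul_of_nonneg_right o1 (by positivity)
          _ = _ := by ring
      have g2 : |det3 x y z w| * (B * C) ≤ 2 * (A * B * C * D * E) * w2 := by
        calc _ ≤ (2 * (A * D * E) * w2) * (B * C) := mul_le_mul_of_nonneg_right o2 (by positivity)
          _ = _ := by ring
      have g3 : sin (dih x y z w) * (A * B * C * D * E) * (D * E + B * C) ≤
          4 * |det3 x y z w| * (D * E + B * C) := mul_le_mul_of_nonneg_right s1 (by positivity)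
      calc _ = sin (dih x y z w) * (A * B * C * D * E) * (D * E + B * C) := by ring
        _ ≤ _ := g3
        _ = 4 * (|det3 x y z w| * (D * E)) + 4 * (|det3 x y z w| * (B * C)) := by ring
        _ ≤ 4 * (2 * (A * B * C * D * E) * w1) + 4 * (2 * (A * B * C * D * E) * w2) := by linarith
        _ = _ := by ring
    exact le_of_mul_le_mul_right h1 (by positivity)
  have k2 : sin (dih z w x y) * (C * E + B * D) ≤ 8 * (w3 + w4) := by
    have h1 : sin (dih z w x y) * (C * E + B * D) * (F * B * D * C * E) ≤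
        8 * (w3 + w4) * (F * B * D * C * E) := by
      have g1 : |det3 x y z w| * (C * E) ≤ 2 * (F * B * D * C * E) * w3 := by
        calc _ ≤ (2 * (B * D * F) * w3) * (C * E) := mul_le_mul_of_nonneg_right o3 (by positivity)
          _ = _ := by ring
      have g2 : |det3 x y z w| * (B * D) ≤ 2 * (F * B * D * C * E) * w4 := by
        calc _ ≤ (2 * (C * E * F) * w4) * (B * D) := mul_le_mul_of_nonneg_right o4 (by positivity)
          _ = _ := by ring
      have g3 : sin (dih z w x y) * (F * B * D * C * E) * (C * E + B * D) ≤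
          4 * |det3 x y z w| * (C * E + B * D) := mul_le_mul_of_nonneg_right s2 (by positivity)
      calc _ = sin (dih z w x y) * (F * B * D * C * E) * (C * E + B * D) := by ring
        _ ≤ _ := g3
        _ = 4 * (|det3 x y z w| * (C * E)) + 4 * (|det3 x y z w| * (B * D)) := by ring
        _ ≤ 4 * (2 * (F * B * D * C * E) * w3) + 4 * (2 * (F * B * D * C * E) * w4) := by linarith
        _ = _ := by ring
    exact le_of_mul_le_mul_right h1 (by positivity)
  have k3 : |dih x y z w - dih z w x y| ≤ SS x y z w / 2 := by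
    rw [abs_le, SS]
    constructor <;> linarith
  have k4 := sin_sub_le (dih x y z w) (dih z w x y)
  have hSp : 0 < SS x y z w := by rw [hS]; positivity
  have k5 : sin (dih x y z w) * (C * E + B * D) ≤ 8 * (w3 + w4) + SS x y z w / 2 * (C * E + B * D) := by
    have : sin (dih x y z w) * (C * E + B * D) ≤
        (sin (dih z w x y) + SS x y z w / 2) * (C * E + B * D) :=
      mul_le_mul_of_nonneg_right (by linarith) (by positivity)
    linarith
  have k6 : SS x y z w / 2 * (C * E + B * D) ≤ SS x y z w / 2 * ((B + E) * (C + D)) :=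
    mul_le_mul_of_nonneg_left (by nlinarith [mul_pos hB hC, mul_pos hE hD]) (by positivity)
  calc sin (dih x y z w) * ((B + E) * (C + D)) =
        sin (dih x y z w) * (D * E + B * C) + sin (dih x y z w) * (C * E + B * D) := by ring
    _ ≤ 8 * (w1 + w2) + (8 * (w3 + w4) + SS x y z w / 2 * ((B + E) * (C + D))) := by linarith
    _ = _ := by rw [hS]; ring

end BccO
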