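import Pool.Agent.MP_bf7174_co.O.H3

/-!
# dihedral angles of nearly regular tetrahedra
-/

set_option autoImplicit false

open MeasureTheory Real
open scoped InnerProductSpace Pointwise

namespace BccO

open BccCov BccCov.W2

lemma cos17 : (0.3746 : ℝ) ≤ cos (17 * om) := by
  have h1 : 17 * om ≤ 1.186825 := by
    unfold om; have := pi_lt_d6; linarith
  have h2 := om_pos
  have h3 : cos 1.186825 ≤ cos (17 * om) :=
    cos_le_cos_of_nonneg_of_le_pi (by positivity) (by linarith [pi_gt_three]) h1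
  refine le_trans ?_ h3
  refine le_trans ?_ (cos_ge10 (by norm_num))
  norm_num

lemma sin17 : (0.927 : ℝ) ≤ sin (17 * om) := by
  have h1 : 1.18682 ≤ 17 * om := by
    unfold om; have := pi_gt_d6; linarith
  have h0 : 17 * om ≤ 1.186825 := by
    unfold om; have := pi_lt_d6; linarith
  have h3 : sin 1.18682 ≤ sin (17 * om) :=
    sin_le_sin_of_le_of_le_pi_div_two (by linarith [pi_gt_three]) (by linarith [pi_gt_three]) h1
  refine le_trans ?_ h3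
  refine le_trans ?_ (sin_ge11 (by norm_num))
  norm_num

lemma cos_shift {L : ℝ} (h0 : 0 ≤ L) (h1 : L ≤ 0.0015) :
    0.3746 + 98 * L ≤ cos (17 * om - 110 * L) := by
  rw [cos_sub]
  have hc := cos17
  have hs := sin17
  have h2 := cos_ge2 (x := 110 * L) (by positivity)
  have h3 := sin_ge3 (x := 110 * L) (by positivity)
  have h4 : 0 ≤ 1 - (110 * L) ^ 2 / 2 := by nlinarith
  have h5 : 0 ≤ 110 * L - (110 * L) ^ 3 / 6 := by
    have : 110 * L - (110 * L) ^ 3 / 6 = 110 * L * (1 - (110 * L) ^ 2 / 6) := by ring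
    rw [this]
    apply mul_nonneg (by positivity)
    nlinarith
  have h6 : 0.3746 * (1 - (110 * L) ^ 2 / 2) ≤ cos (17 * om) * cos (110 * L) :=
    mul_le_mul hc h2 h4 (by linarith)
  have h7 : 0.927 * (110 * L - (110 * L) ^ 3 / 6) ≤ sin (17 * om) * sin (110 * L) :=
    mul_le_mul hs h3 h5 (by linarith)
  nlinarith [mul_nonneg h0 (by linarith : 0 ≤ 0.0015 - L),
    mul_nonneg (mul_nonneg h0 h0) (by linarith : 0 ≤ 0.0015 - L)]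

/-- constraints for nearly regular tetrahedra -/
structure Near (m1 m2 m3 d1 d2 d3 L : ℝ) : Prop where
  L0 : 0 ≤ L
  L1 : L ≤ 0.0015
  hm : m1 + m2 + m3 = 0
  h1 : m1 ^ 2 ≤ 2 * L
  h2 : m2 ^ 2 ≤ 2 * L
  h3 : m3 ^ 2 ≤ 2 * L
  hd : d1 ^ 2 + d2 ^ 2 + d3 ^ 2 ≤ 5 * L

lemma sqrt_GH {G H : ℝ} (h1 : 1.5 ≤ G) (h2 : H ^ 2 ≤ 1) : G - H ^ 2 / 2 ≤ √((G + H) * (G - H)) := by
  apply le_sqrt_of_sq_le
  have := mul_nonneg (sq_nonneg H) (by linarith : 0 ≤ G - 1 - H ^ 2 / 4)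
  have e : (G + H) * (G - H) - (G - H ^ 2 / 2) ^ 2 = H ^ 2 * (G - 1 - H ^ 2 / 4) := by ring
  linarith

lemma near_q3 {A D Dl mu L : ℝ} (L0 : 0 ≤ L) (L1 : L ≤ 0.0015) (A0 : 0 ≤ A) (A1 : A ≤ 1.142)
    (q1 : D ^ 2 + Dl ^ 2 ≤ 10 * L) (q2 : mu ^ 2 ≤ 8 * L) :
    (2 * (A * Dl - D * mu)) ^ 2 / 2 ≤ 27 * L := by
  have c1 : (A * Dl - D * mu) ^ 2 ≤ (A ^ 2 + mu ^ 2) * (Dl ^ 2 + D ^ 2) := by
    nlinarith [sq_nonneg (A * D + mu * Dl)]
  have c0 : A ^ 2 ≤ 1.142 ^ 2 := pow_le_pow_left₀ A0 A1 2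
  have c2 : A ^ 2 + mu ^ 2 ≤ 1.317 := by
    norm_num at c0
    linarith
  have c3 : (A ^ 2 + mu ^ 2) * (Dl ^ 2 + D ^ 2) ≤ 1.317 * (10 * L) :=
    mul_le_mul c2 (by linarith) (by positivity) (by norm_num)
  have e : (2 * (A * Dl - D * mu)) ^ 2 / 2 = 2 * (A * Dl - D * mu) ^ 2 := by ring
  rw [e]
  linarith

lemma near_g1 {A m1 d1 : ℝ} (A0 : 0.858 ≤ A) (h1 : -0.055 ≤ m1) (h2 : m1 ≤ 0.055)
    (h3 : -0.087 ≤ d1) (h4 : d1 ≤ 0.087) : 2 ≤ A * (3 - 3 * m1 - d1) := by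
  have : (0.858 : ℝ) * 2.748 ≤ A * (3 - 3 * m1 - d1) :=
    mul_le_mul A0 (by linarith) (by norm_num) (by linarith)
  linarith

lemma near_k3 {m1 d1 L : ℝ} (L0 : 0 ≤ L) (y0 : m1 ^ 2 ≤ 2 * L) (y1 : d1 ^ 2 ≤ 5 * L)
    (h2 : m1 ≤ 0.055) (h4 : d1 ≤ 0.087) :
    36.8 * L ≤ (0.3746 + 98 * L) * (3 - 3 * m1 - d1) - (1 - 5 * m1 + d1) := by
  have x1 : (3.8762 * m1 - 1.3746 * d1) ^ 2 ≤ 79 * L := by
    nlinarith [sq_nonneg (5 * 1.3746 * m1 + 2 * 3.8762 * d1)]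
  have x2 : 98 * L * (2.748 : ℝ) ≤ 98 * L * (3 - 3 * m1 - d1) :=
    mul_le_mul_of_nonneg_left (by linarith) (by positivity)
  have x3 := sq_nonneg (3.8762 * m1 - 1.3746 * d1 + 0.2)
  have e : (0.3746 + 98 * L) * (3 - 3 * m1 - d1) - (1 - 5 * m1 + d1) =
    98 * L * (3 - 3 * m1 - d1) + 0.1238 + (3.8762 * m1 - 1.3746 * d1) := by ring
  rw [e]
  have e2 : (3.8762 * m1 - 1.3746 * d1 + 0.2) ^ 2 = (3.8762 * m1 - 1.3746 * d1) ^ 2 +
    0.4 * (3.8762 * m1 - 1.3746 * d1) + 0.04 := by ring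
  rw [e2] at x3
  linarith

lemma near_core {m1 m2 m3 d1 d2 d3 L : ℝ} (h : Near m1 m2 m3 d1 d2 d3 L) :
    N4 (1 + m1 + d1) (1 + m2 + d2) (1 + m3 + d3) (1 + m3 - d3) (1 + m2 - d2) (1 + m1 - d1) /
      √(A4 (1 + m1 + d1) (1 + m2 + d2) (1 + m3 - d3) * A4 (1 + m1 + d1) (1 + m3 + d3) (1 + m2 - d2))
      ≤ 0.3746 + 98 * L := by
  obtain ⟨L0, L1, hm, h1, h2, h3, hd⟩ := h
  have b1 : |m1| ≤ 0.055 := by
    apply abs_le_of_sq_le_sq _ (by norm_num)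
    linarith
  have y1 : d1 ^ 2 ≤ 5 * L := by linarith [sq_nonneg d2, sq_nonneg d3]
  have e1 : |d1| ≤ 0.087 := by
    apply abs_le_of_sq_le_sq _ (by norm_num)
    linarith
  rw [abs_le] at b1 e1
  obtain ⟨A, hA⟩ : ∃ A, A = 1 + m1 + d1 := ⟨_, rfl⟩
  have A0 : 0.858 ≤ A := by linarith [b1.1, e1.1]
  have A1 : A ≤ 1.142 := by linarith [b1.2, e1.2]
  obtain ⟨D, hD⟩ : ∃ D, D = d2 + d3 := ⟨_, rfl⟩
  obtain ⟨Dl, hDl⟩ : ∃ Dl, Dl = d2 - d3 := ⟨_, rfl⟩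
  obtain ⟨mu, hmu⟩ : ∃ mu, mu = m2 - m3 := ⟨_, rfl⟩
  have m3e : m3 = -m1 - m2 := by linarith
  have eN : N4 (1 + m1 + d1) (1 + m2 + d2) (1 + m3 + d3) (1 + m3 - d3) (1 + m2 - d2) (1 + m1 - d1) =
      A * (1 - 5 * m1 + d1) - D ^ 2 + mu ^ 2 := by
    rw [hA, hD, hmu, m3e]; unfold N4; ring
  have eA : A4 (1 + m1 + d1) (1 + m2 + d2) (1 + m3 - d3) =
      (A * (3 - 3 * m1 - d1) - D ^ 2 - mu ^ 2) + 2 * (A * Dl - D * mu) := by
    rw [hA, hD, hmu, hDl, m3e]; unfold A4; ring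
  have eA' : A4 (1 + m1 + d1) (1 + m3 + d3) (1 + m2 - d2) =
      (A * (3 - 3 * m1 - d1) - D ^ 2 - mu ^ 2) - 2 * (A * Dl - D * mu) := by
    rw [hA, hD, hmu, hDl, m3e]; unfold A4; ring
  rw [eN, eA, eA']
  have q1 : D ^ 2 + Dl ^ 2 ≤ 10 * L := by
    have : D ^ 2 + Dl ^ 2 = 2 * (d2 ^ 2 + d3 ^ 2) := by rw [hD, hDl]; ring
    linarith [sq_nonneg d1]
  have q2 : mu ^ 2 ≤ 8 * L := by
    have : mu ^ 2 + (m2 + m3) ^ 2 = 2 * (m2 ^ 2 + m3 ^ 2) := by rw [hmu]; ring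
    linarith [sq_nonneg (m2 + m3)]
  have q3 := near_q3 L0 L1 (by linarith) A1 q1 q2
  have q1' : D ^ 2 ≤ 10 * L := by linarith [sq_nonneg Dl]
  have g1 := near_g1 A0 b1.1 b1.2 e1.1 e1.2
  have k3 := near_k3 L0 h1 y1 b1.2 e1.2
  clear hmu hDl hD m3e hd h3 h2 hm eN eA eA' q1 hA
  obtain ⟨H, hH⟩ : ∃ H, H = 2 * (A * Dl - D * mu) := ⟨_, rfl⟩
  obtain ⟨G, hG⟩ : ∃ G, G = A * (3 - 3 * m1 - d1) - D ^ 2 - mu ^ 2 := ⟨_, rfl⟩
  rw [← hH] at q3 ⊢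
  rw [← hG]
  have q4 : D ^ 2 + mu ^ 2 + H ^ 2 / 2 ≤ 45 * L := by linarith
  have G1 : 1.5 ≤ G := by linarith
  have S0 : 0 ≤ G - H ^ 2 / 2 := by linarith
  have hH2 : H ^ 2 ≤ 54 * L := by linarith
  have hsq : G - H ^ 2 / 2 ≤ √((G + H) * (G - H)) := sqrt_GH G1 (by linarith)
  have hK : 0.3746 + 98 * L ≤ 0.522 := by linarith
  have hpos : 0 < √((G + H) * (G - H)) := lt_of_lt_of_le (by linarith) hsq
  rw [div_le_iff₀ hpos]
  have hfin : A * (1 - 5 * m1 + d1) - D ^ 2 + mu ^ 2 ≤ (0.3746 + 98 * L) * (G - H ^ 2 / 2) := by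
    have k1 : (0.3746 + 98 * L) * (A * (3 - 3 * m1 - d1) - 45 * L) ≤
        (0.3746 + 98 * L) * (G - H ^ 2 / 2) :=
      mul_le_mul_of_nonneg_left (by linarith) (by linarith)
    refine le_trans ?_ k1
    have k2 : (0.3746 + 98 * L) * (45 * L) ≤ 0.522 * (45 * L) :=
      mul_le_mul_of_nonneg_right hK (by positivity)
    have k4 : 0.858 * (36.8 * L) ≤ A * ((0.3746 + 98 * L) * (3 - 3 * m1 - d1) - (1 - 5 * m1 + d1)) :=
      mul_le_mul A0 k3 (by positivity) (by linarith)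
    have e3 : (0.3746 + 98 * L) * (A * (3 - 3 * m1 - d1) - 45 * L) =
      A * ((0.3746 + 98 * L) * (3 - 3 * m1 - d1) - (1 - 5 * m1 + d1)) +
      A * (1 - 5 * m1 + d1) - (0.3746 + 98 * L) * (45 * L) := by ring
    rw [e3]
    linarith [sq_nonneg D]
  refine hfin.trans ?_
  exact mul_le_mul_of_nonneg_left hsq (by linarith)

lemma near_angle {m1 m2 m3 d1 d2 d3 L s a b c d e f : ℝ} (h : Near m1 m2 m3 d1 d2 d3 L)
    (hs : 0 < s) (ha : a = s * (1 + m1 + d1)) (hb : b = s * (1 + m2 + d2))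
    (hc : c = s * (1 + m3 + d3)) (hd : d = s * (1 + m3 - d3)) (he : e = s * (1 + m2 - d2))
    (hf : f = s * (1 + m1 - d1)) :
    17 * om - 110 * L ≤ arccos (N4 a b c d e f / √(A4 a b d * A4 a c e)) := by
  have h1 := near_core h
  have L0 := h.L0
  have L1 := h.L1
  have h2 := cos_shift L0 L1
  have e1 : N4 a b c d e f / √(A4 a b d * A4 a c e) =
    N4 (1 + m1 + d1) (1 + m2 + d2) (1 + m3 + d3) (1 + m3 - d3) (1 + m2 - d2) (1 + m1 - d1) /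
      √(A4 (1 + m1 + d1) (1 + m2 + d2) (1 + m3 - d3) *
        A4 (1 + m1 + d1) (1 + m3 + d3) (1 + m2 - d2)) := by
    have n1 : N4 a b c d e f = s ^ 2 * N4 (1 + m1 + d1) (1 + m2 + d2) (1 + m3 + d3) (1 + m3 - d3)
        (1 + m2 - d2) (1 + m1 - d1) := by
      rw [ha, hb, hc, hd, he, hf]; unfold N4; ring
    have n2 : A4 a b d = s ^ 2 * A4 (1 + m1 + d1) (1 + m2 + d2) (1 + m3 - d3) := by
      rw [ha, hb, hd]; unfold A4; ring
    have n3 : A4 a c e = s ^ 2 * A4 (1 + m1 + d1) (1 + m3 + d3) (1 + m2 - d2) := by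
      rw [ha, hc, he]; unfold A4; ring
    rw [n1, n2, n3]
    rw [show ∀ p q : ℝ, s ^ 2 * p * (s ^ 2 * q) = (s ^ 2) ^ 2 * (p * q) by intro p q; ring]
    rw [sqrt_mul (by positivity), sqrt_sq (by positivity), mul_div_mul_left _ _ (by positivity)]
  rw [e1]
  have h3 := arccos_le_arccos (h1.trans h2)
  have ho : 17 * om ≤ π := by unfold om; have := pi_pos; linarith
  have ho2 : 1.18 ≤ 17 * om := by
    unfold om; have := pi_gt_d2; linarith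
  rwa [arccos_cos (by linarith) (by linarith)] at h3

end BccO
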