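import Pool.Agent.MP_bf7174_co.O.N1

/-!
# normal data of a tetrahedron
-/

set_option autoImplicit false

open MeasureTheory Real
open scoped InnerProductSpace Pointwise

namespace BccO

open BccCov BccCov.W2

/-- normal data -/
structure Nrm (x y z w : E3) (s m1 m2 m3 d1 d2 d3 v L : ℝ) : Prop where
  s0 : 0 < s
  hm : m1 + m2 + m3 = 0
  a : sd x y = s * (1 + m1 + d1)
  b : sd x z = s * (1 + m2 + d2)
  c : sd x w = s * (1 + m3 + d3)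
  d : sd y z = s * (1 + m3 - d3)
  e : sd y w = s * (1 + m2 - d2)
  f : sd z w = s * (1 + m1 - d1)
  v0 : 0 < v
  v2 : v ^ 2 = (1 - 2 * m1) * (1 - 2 * m2) * (1 - 2 * m3) - (1 - 2 * m1) * d1 ^ 2 -
      (1 - 2 * m2) * d2 ^ 2 - (1 - 2 * m3) * d3 ^ 2 + 2 * d1 * d2 * d3
  det : |det3 x y z w| = v * √(s ^ 3) / √2
  L0 : 0 ≤ L
  L1 : L ≤ 1 / 20
  lb : Sr * v * (1 + L) ≤ SS x y z w
  alt : L = 1 / 20 ∨ (m1 ^ 2 ≤ 2 * L ∧ m2 ^ 2 ≤ 2 * L ∧ m3 ^ 2 ≤ 2 * L ∧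
    d1 ^ 2 + d2 ^ 2 + d3 ^ 2 ≤ 5 * L)

theorem exists_nrm {x y z w : E3} (h : det3 x y z w ≠ 0) :
    ∃ s m1 m2 m3 d1 d2 d3 v L : ℝ, Nrm x y z w s m1 m2 m3 d1 d2 d3 v L := by
  obtain ⟨hxy, hxz, hxw, hyz, hyw, hzw⟩ := ne_of_det h
  have a0 := sd_pos hxy
  have b0 := sd_pos hxz
  have c0 := sd_pos hxw
  have d0 := sd_pos hyz
  have e0 := sd_pos hyw
  have f0 := sd_pos hzw
  have hP := PosF_of_det h
  have hS := SS_eq h
  have hD := det3_sq x y z w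
  obtain ⟨a, ha⟩ : ∃ a, a = sd x y := ⟨_, rfl⟩
  obtain ⟨b, hb⟩ : ∃ a, a = sd x z := ⟨_, rfl⟩
  obtain ⟨c, hc⟩ : ∃ a, a = sd x w := ⟨_, rfl⟩
  obtain ⟨d, hd⟩ : ∃ a, a = sd y z := ⟨_, rfl⟩
  obtain ⟨e, he⟩ : ∃ a, a = sd y w := ⟨_, rfl⟩
  obtain ⟨f, hf⟩ : ∃ a, a = sd z w := ⟨_, rfl⟩
  rw [← ha, ← hb, ← hc, ← hd, ← he, ← hf] at hP hS hD
  rw [← ha] at a0
  rw [← hb] at b0
  rw [← hc] at c0
  rw [← hd] at d0
  rw [← he] at e0
  rw [← hf] at f0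
  obtain ⟨s, hs⟩ : ∃ s, s = (a + b + c + d + e + f) / 6 := ⟨_, rfl⟩
  have s0 : 0 < s := by rw [hs]; positivity
  obtain ⟨m1, hm1⟩ : ∃ m, m = (a + f) / (2 * s) - 1 := ⟨_, rfl⟩
  obtain ⟨m2, hm2⟩ : ∃ m, m = (b + e) / (2 * s) - 1 := ⟨_, rfl⟩
  obtain ⟨m3, hm3⟩ : ∃ m, m = (c + d) / (2 * s) - 1 := ⟨_, rfl⟩
  obtain ⟨d1, hd1⟩ : ∃ m, m = (a - f) / (2 * s) := ⟨_, rfl⟩
  obtain ⟨d2, hd2⟩ : ∃ m, m = (b - e) / (2 * s) := ⟨_, rfl⟩
  obtain ⟨d3, hd3⟩ : ∃ m, m = (c - d) / (2 * s) := ⟨_, rfl⟩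
  have ea : a = s * (1 + m1 + d1) := by rw [hm1, hd1]; field_simp; ring
  have eb : b = s * (1 + m2 + d2) := by rw [hm2, hd2]; field_simp; ring
  have ec : c = s * (1 + m3 + d3) := by rw [hm3, hd3]; field_simp; ring
  have ed : d = s * (1 + m3 - d3) := by rw [hm3, hd3]; field_simp; ring
  have ee : e = s * (1 + m2 - d2) := by rw [hm2, hd2]; field_simp; ring
  have ef : f = s * (1 + m1 - d1) := by rw [hm1, hd1]; field_simp; ring
  have hm : m1 + m2 + m3 = 0 := by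
    have h1 : s * (m1 + m2 + m3) = 0 := by linarith
    rcases mul_eq_zero.1 h1 with h2 | h2
    · exact absurd h2 s0.ne'
    · exact h2
  have hall := all_lb (s := s) (m1 := m1) (m2 := m2) (m3 := m3) (x1 := (d1 + d2 + d3) / 3)
    (x2 := (d1 - d2 - d3) / 3) (x3 := (-d1 + d2 - d3) / 3) (x4 := (-d1 - d2 + d3) / 3) hP hs s0
    (by linarith) (by linarith) (by linarith)
    (by linear_combination (1 / 3) * ea + (1 / 3) * eb + (1 / 3) * ec + (s / 3) * hm)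
    (by linear_combination (1 / 3) * ea + (1 / 3) * ed + (1 / 3) * ee + (s / 3) * hm)
    (by linear_combination (1 / 3) * eb + (1 / 3) * ed + (1 / 3) * ef + (s / 3) * hm)
    (by linear_combination (1 / 3) * ec + (1 / 3) * ee + (1 / 3) * ef + (s / 3) * hm)
  obtain ⟨l1, l2, l3, l4, l5, l6, l7⟩ := hall
  -- the maximum
  obtain ⟨T, hT, t1, t2, t3, t4, t5, t6, t7⟩ : ∃ T : ℝ, QQ s * (1 + min (1 / 20) T) ≤ FF a b c d e f ∧
      m1 ^ 2 / 2 ≤ T ∧ m2 ^ 2 / 2 ≤ T ∧ m3 ^ 2 / 2 ≤ T ∧ 9 / 5 * ((d1 + d2 + d3) / 3) ^ 2 ≤ T ∧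
      9 / 5 * ((d1 - d2 - d3) / 3) ^ 2 ≤ T ∧ 9 / 5 * ((-d1 + d2 - d3) / 3) ^ 2 ≤ T ∧
      9 / 5 * ((-d1 - d2 + d3) / 3) ^ 2 ≤ T := by
    let t : Fin 7 → ℝ := ![m1 ^ 2 / 2, m2 ^ 2 / 2, m3 ^ 2 / 2, 9 / 5 * ((d1 + d2 + d3) / 3) ^ 2,
      9 / 5 * ((d1 - d2 - d3) / 3) ^ 2, 9 / 5 * ((-d1 + d2 - d3) / 3) ^ 2,
      9 / 5 * ((-d1 - d2 + d3) / 3) ^ 2]
    obtain ⟨i, -, hi⟩ := Finset.exists_max_image (Finset.univ : Finset (Fin 7)) t ⟨0, Finset.mem_univ _⟩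
    refine ⟨t i, ?_, hi 0 (Finset.mem_univ _), hi 1 (Finset.mem_univ _), hi 2 (Finset.mem_univ _),
      hi 3 (Finset.mem_univ _), hi 4 (Finset.mem_univ _), hi 5 (Finset.mem_univ _),
      hi 6 (Finset.mem_univ _)⟩
    fin_cases i
    · exact l1
    · exact l2
    · exact l3
    · exact l4
    · exact l5
    · exact l6
    · exact l7
  have T0 : 0 ≤ T := le_trans (by positivity) t1
  have hdet0 : 0 < |det3 x y z w| := abs_pos.2 h
  have hs3 : 0 < √(s ^ 3) := sqrt_pos.2 (by positivity)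
  have h2 : 0 < √(2 : ℝ) := sqrt_pos.2 (by norm_num)
  have h22 : √(2 : ℝ) ^ 2 = 2 := sq_sqrt (by norm_num)
  have hs32 : √(s ^ 3) ^ 2 = s ^ 3 := sq_sqrt (by positivity)
  obtain ⟨v, hv⟩ : ∃ v, v = √2 * |det3 x y z w| / √(s ^ 3) := ⟨_, rfl⟩
  have v0 : 0 < v := by rw [hv]; positivity
  refine ⟨s, m1, m2, m3, d1, d2, d3, v, min (1 / 20) T, ?_⟩
  refine ⟨s0, hm, by rw [← ha]; exact ea, by rw [← hb]; exact eb, by rw [← hc]; exact ec,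
    by rw [← hd]; exact ed, by rw [← he]; exact ee, by rw [← hf]; exact ef, v0, ?_, ?_,
    le_min (by norm_num) T0, min_le_left _ _, ?_, ?_⟩
  · have h3 : v ^ 2 = 2 * det3 x y z w ^ 2 / s ^ 3 := by
      rw [hv, div_pow, mul_pow, h22, hs32, sq_abs]
    have h4 := CM_norm s m1 m2 m3 d1 d2 d3 hm
    rw [← ea, ← eb, ← ec, ← ed, ← ee, ← ef] at h4
    rw [h3, hD, h4]
    field_simp
  · rw [hv]; field_simp
  · have hc0 := cG_pos
    have h5 : cG * |det3 x y z w| * (QQ s * (1 + min (1 / 20) T)) ≤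
        cG * |det3 x y z w| * FF a b c d e f := mul_le_mul_of_nonneg_left hT (by positivity)
    rw [hS]
    refine le_trans (le_of_eq ?_) h5
    rw [hv, QQ]
    field_simp
  · rcases le_or_gt (1 / 20) T with hcase | hcase
    · left; exact min_eq_left hcase
    · right
      rw [min_eq_right hcase.le]
      refine ⟨by linarith, by linarith, by linarith, ?_⟩
      have e1 : d1 ^ 2 + d2 ^ 2 + d3 ^ 2 = ((d1 + d2 + d3) ^ 2 + (d1 - d2 - d3) ^ 2 +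
        (-d1 + d2 - d3) ^ 2 + (-d1 - d2 + d3) ^ 2) / 4 := by ring
      rw [e1]
      have f4 : (d1 + d2 + d3) ^ 2 ≤ 5 * T := by
        have : 9 / 5 * ((d1 + d2 + d3) / 3) ^ 2 = (d1 + d2 + d3) ^ 2 / 5 := by ring
        linarith
      have f5 : (d1 - d2 - d3) ^ 2 ≤ 5 * T := by
        have : 9 / 5 * ((d1 - d2 - d3) / 3) ^ 2 = (d1 - d2 - d3) ^ 2 / 5 := by ring
        linarith
      have f6 : (-d1 + d2 - d3) ^ 2 ≤ 5 * T := by
        have : 9 / 5 * ((-d1 + d2 - d3) / 3) ^ 2 = (-d1 + d2 - d3) ^ 2 / 5 := by ring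
        linarith
      have f7 : (-d1 - d2 + d3) ^ 2 ≤ 5 * T := by
        have : 9 / 5 * ((-d1 - d2 + d3) / 3) ^ 2 = (-d1 - d2 + d3) ^ 2 / 5 := by ring
        linarith
      linarith

/-- `V_r`, the volume of the regular tetrahedron in the unit sphere -/
noncomputable def Vr : ℝ := 8 * √3 / 27

lemma Vr_lb : (0.51319 : ℝ) ≤ Vr := by
  unfold Vr
  have : (1.73205 : ℝ) ≤ √3 := by apply le_sqrt_of_sq_le; norm_num
  linarith

lemma Vr_ub : Vr ≤ (0.51321 : ℝ) := by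
  unfold Vr
  have : √3 ≤ (1.73206 : ℝ) := by
    rw [sqrt_le_left (by norm_num)]; norm_num
  linarith

lemma Vr_eq : Vr = √((8 / 3) ^ 3) / (6 * √2) := by
  have h2 : 0 < √(2 : ℝ) := sqrt_pos.2 (by norm_num)
  have h22 : √(2 : ℝ) ^ 2 = 2 := sq_sqrt (by norm_num)
  have h33 : √(3 : ℝ) ^ 2 = 3 := sq_sqrt (by norm_num)
  rw [eq_div_iff (by positivity)]
  symm
  apply sqrt_of_sq
  · unfold Vr; positivity
  · unfold Vr
    rw [mul_pow, div_pow, mul_pow, mul_pow, h22, h33]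
    norm_num

/-- volume in terms of the normal data -/
lemma vol_nrm {x y z w : E3} {s m1 m2 m3 d1 d2 d3 v L : ℝ}
    (h : Nrm x y z w s m1 m2 m3 d1 d2 d3 v L) :
    |det3 x y z w| / 6 = Vr * v * √((3 * s / 8) ^ 3) := by
  have s0 := h.s0
  have h2 : 0 < √(2 : ℝ) := sqrt_pos.2 (by norm_num)
  rw [h.det, Vr_eq]
  have e1 : s ^ 3 = (8 / 3) ^ 3 * (3 * s / 8) ^ 3 := by ring
  rw [e1, sqrt_mul (by positivity)]
  field_simp

lemma e3_help {p q r L : ℝ} (h : p + q + r = 0) (hp : p ≤ 0) (hq : q ≤ 0) (hr : r ^ 2 ≤ 2 * L)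
    (hL : L ≤ 1 / 20) : 8 * (p * q * r) ≤ 1.3 * L := by
  have hr0 : 0 ≤ r := by linarith
  have h1 : p * q ≤ r ^ 2 / 4 := by
    have : r = -p - q := by linarith
    rw [this]
    nlinarith [sq_nonneg (p - q)]
  have h2 : p * q * r ≤ r ^ 2 / 4 * r := mul_le_mul_of_nonneg_right h1 hr0
  have h3 : r ≤ 0.32 := by
    have : r ^ 2 ≤ 0.32 ^ 2 := by norm_num; linarith
    exact le_of_sq_le_sq this (by norm_num)
  have h4 : r ^ 2 / 4 * r ≤ r ^ 2 / 4 * 0.32 := mul_le_mul_of_nonneg_left h3 (by positivity)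
  nlinarith

lemma e3_bound {p q r L : ℝ} (h : p + q + r = 0) (h1 : p ^ 2 ≤ 2 * L) (h2 : q ^ 2 ≤ 2 * L)
    (h3 : r ^ 2 ≤ 2 * L) (hL : L ≤ 1 / 20) : 8 * (p * q * r) ≤ 1.3 * L := by
  have L0 : 0 ≤ L := by nlinarith [sq_nonneg p]
  rcases le_total p 0 with hp | hp <;> rcases le_total q 0 with hq | hq
  · exact e3_help h hp hq h3 hL
  · rcases le_total r 0 with hr | hr
    · have := e3_help (p := p) (q := r) (r := q) (by linarith) hp hr h2 hL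
      linarith
    · have : p * q * r ≤ 0 :=
        mul_nonpos_of_nonpos_of_nonneg (mul_nonpos_of_nonpos_of_nonneg hp hq) hr
      linarith
  · rcases le_total r 0 with hr | hr
    · have := e3_help (p := q) (q := r) (r := p) (by linarith) hq hr h1 hL
      linarith
    · have : p * q * r ≤ 0 :=
        mul_nonpos_of_nonpos_of_nonneg (mul_nonpos_of_nonneg_of_nonpos hp hq) hr
      linarith
  · have hr : r ≤ 0 := by linarith
    have : p * q * r ≤ 0 := mul_nonpos_of_nonneg_of_nonpos (mul_nonneg hp hq) hr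
    linarith

lemma sum_sq_bound {p q r L : ℝ} (h : p + q + r = 0) (h1 : p ^ 2 ≤ 2 * L) (h2 : q ^ 2 ≤ 2 * L)
    (h3 : r ^ 2 ≤ 2 * L) : p ^ 2 + q ^ 2 + r ^ 2 ≤ 4 * L := by
  have hr : r = -p - q := by linarith
  subst hr
  rcases le_total 0 (p * q) with h4 | h4
  · nlinarith
  · rcases le_or_gt (p ^ 2 + p * q) 0 with h5 | h5
    · nlinarith
    · rcases le_or_gt (q ^ 2 + p * q) 0 with h6 | h6
      · nlinarith
      · exfalso
        have h7 := mul_pos h5 h6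
        have h8 : (p ^ 2 + p * q) * (q ^ 2 + p * q) = p * q * (p + q) ^ 2 := by ring
        rw [h8] at h7
        have h9 : p * q * (p + q) ^ 2 ≤ 0 := mul_nonpos_of_nonpos_of_nonneg h4 (sq_nonneg _)
        linarith

lemma ddd_bound {p q r K : ℝ} (h1 : |p| ≤ K) (h2 : |q| ≤ K) (h3 : |r| ≤ K) :
    |2 * p * q * r| ≤ 2 / 3 * K * (p ^ 2 + q ^ 2 + r ^ 2) := by
  have e : |2 * p * q * r| = 2 * (|p| * |q| * |r|) := by
    rw [abs_mul, abs_mul, abs_mul, abs_two]; ring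
  rw [e, ← sq_abs p, ← sq_abs q, ← sq_abs r]
  have a1 := abs_nonneg p
  have a2 := abs_nonneg q
  have a3 := abs_nonneg r
  set P := |p|
  set Q := |q|
  set R := |r|
  have k1 : P * Q * R ≤ (P ^ 2 + Q ^ 2) / 2 * K :=
    mul_le_mul (by nlinarith [sq_nonneg (P - Q)]) h3 a3 (by positivity)
  have k2 : P * Q * R ≤ (P ^ 2 + R ^ 2) / 2 * K := by
    calc P * Q * R = (P * R) * Q := by ring
      _ ≤ _ := mul_le_mul (by nlinarith [sq_nonneg (P - R)]) h2 a2 (by positivity)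
  have k3 : P * Q * R ≤ (Q ^ 2 + R ^ 2) / 2 * K := by
    calc P * Q * R = (Q * R) * P := by ring
      _ ≤ _ := mul_le_mul (by nlinarith [sq_nonneg (Q - R)]) h1 a1 (by positivity)
  linarith

/-- lower bound for `v` -/
lemma v_lb {x y z w : E3} {s m1 m2 m3 d1 d2 d3 v L : ℝ}
    (h : Nrm x y z w s m1 m2 m3 d1 d2 d3 v L)
    (hc : m1 ^ 2 ≤ 2 * L ∧ m2 ^ 2 ≤ 2 * L ∧ m3 ^ 2 ≤ 2 * L ∧ d1 ^ 2 + d2 ^ 2 + d3 ^ 2 ≤ 5 * L) :
    1 - 19.2 * L ≤ v ^ 2 := by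
  obtain ⟨h1, h2, h3, h4⟩ := hc
  have L0 := h.L0
  have L1 := h.L1
  have hm := h.hm
  rw [h.v2]
  have e3 := e3_bound hm h1 h2 h3 L1
  have ss := sum_sq_bound hm h1 h2 h3
  have bm : ∀ m : ℝ, m ^ 2 ≤ 2 * L → |m| ≤ 0.3165 := by
    intro m hm
    apply abs_le_of_sq_le_sq _ (by norm_num)
    norm_num; linarith
  have b1 := (abs_le.1 (bm m1 h1)).1
  have b2 := (abs_le.1 (bm m2 h2)).1
  have b3 := (abs_le.1 (bm m3 h3)).1
  have bd : ∀ m : ℝ, m ^ 2 ≤ 5 * L → |m| ≤ 0.501 := by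
    intro m hm
    apply abs_le_of_sq_le_sq _ (by norm_num)
    norm_num; linarith
  have c1 := bd d1 (by linarith [sq_nonneg d2, sq_nonneg d3])
  have c2 := bd d2 (by linarith [sq_nonneg d1, sq_nonneg d3])
  have c3 := bd d3 (by linarith [sq_nonneg d2, sq_nonneg d1])
  have hddd := (abs_le.1 (ddd_bound c1 c2 c3)).1
  have g1 : (1 - 2 * m1) * d1 ^ 2 ≤ 1.633 * d1 ^ 2 := mul_le_mul_of_nonneg_right (by linarith) (sq_nonneg _)
  have g2 : (1 - 2 * m2) * d2 ^ 2 ≤ 1.633 * d2 ^ 2 := mul_le_mul_of_nonneg_right (by linarith) (sq_nonneg _)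
  have g3 : (1 - 2 * m3) * d3 ^ 2 ≤ 1.633 * d3 ^ 2 := mul_le_mul_of_nonneg_right (by linarith) (sq_nonneg _)
  have e4 : (1 - 2 * m1) * (1 - 2 * m2) * (1 - 2 * m3) =
      1 - 2 * (m1 ^ 2 + m2 ^ 2 + m3 ^ 2) - 8 * (m1 * m2 * m3) := by
    have : m3 = -m1 - m2 := by linarith
    rw [this]; ring
  rw [e4]
  linarith

/-- upper bound for `v` -/
lemma v_ub {x y z w : E3} {s m1 m2 m3 d1 d2 d3 v L : ℝ}
    (h : Nrm x y z w s m1 m2 m3 d1 d2 d3 v L)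
    (hc : m1 ^ 2 ≤ 2 * L ∧ m2 ^ 2 ≤ 2 * L ∧ m3 ^ 2 ≤ 2 * L ∧ d1 ^ 2 + d2 ^ 2 + d3 ^ 2 ≤ 5 * L)
    (hL : L ≤ 0.0015) : v ≤ 1 := by
  obtain ⟨h1, h2, h3, h4⟩ := hc
  have L0 := h.L0
  have hm := h.hm
  have v0 := h.v0
  have hv : v ^ 2 ≤ 1 ^ 2 := by
    rw [h.v2]
    have bm : ∀ m : ℝ, m ^ 2 ≤ 2 * L → |m| ≤ 0.1 := by
      intro m hm
      apply abs_le_of_sq_le_sq _ (by norm_num)
      norm_num; linarith
    have b1 := bm m1 h1
    have b2 := bm m2 h2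
    have b3 := bm m3 h3
    have bd : ∀ m : ℝ, m ^ 2 ≤ 5 * L → |m| ≤ 0.1 := by
      intro m hm
      apply abs_le_of_sq_le_sq _ (by norm_num)
      norm_num; linarith
    have c1 := bd d1 (by linarith [sq_nonneg d2, sq_nonneg d3])
    have c2 := bd d2 (by linarith [sq_nonneg d1, sq_nonneg d3])
    have c3 := bd d3 (by linarith [sq_nonneg d2, sq_nonneg d1])
    have hddd := (abs_le.1 (ddd_bound c1 c2 c3)).2
    have hmmm := (abs_le.1 (ddd_bound b1 b2 b3)).1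
    rw [abs_le] at b1 b2 b3
    have g1 : 0.8 * d1 ^ 2 ≤ (1 - 2 * m1) * d1 ^ 2 := mul_le_mul_of_nonneg_right (by linarith [b1.2]) (sq_nonneg _)
    have g2 : 0.8 * d2 ^ 2 ≤ (1 - 2 * m2) * d2 ^ 2 := mul_le_mul_of_nonneg_right (by linarith [b2.2]) (sq_nonneg _)
    have g3 : 0.8 * d3 ^ 2 ≤ (1 - 2 * m3) * d3 ^ 2 := mul_le_mul_of_nonneg_right (by linarith [b3.2]) (sq_nonneg _)
    have e4 : (1 - 2 * m1) * (1 - 2 * m2) * (1 - 2 * m3) =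
        1 - 2 * (m1 ^ 2 + m2 ^ 2 + m3 ^ 2) - 4 * (2 * m1 * m2 * m3) := by
      have : m3 = -m1 - m2 := by linarith
      rw [this]; ring
    rw [e4]
    linarith [sq_nonneg d1, sq_nonneg d2, sq_nonneg d3, sq_nonneg m1, sq_nonneg m2, sq_nonneg m3]
  exact le_of_sq_le_sq hv (by norm_num)

end BccO
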