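import Pool.Agent.MP_bf7174_co.O.N2

/-!
# the tetrahedron inequality
-/

set_option autoImplicit false

open MeasureTheory Real
open scoped InnerProductSpace Pointwise

namespace BccO

open BccCov BccCov.W2

noncomputable def al : ℝ := 3 / 10000
noncomputable def kap : ℝ := Vr / Sr
noncomputable def eps : ℝ := al * (2 * π / 5 - Sr / 2) / Vr

lemma kap_lb : (0.2327 : ℝ) ≤ kap := by
  unfold kap
  have := Sr_ub
  have := Vr_lb
  rw [le_div_iff₀ Sr_pos]
  linarith

lemma kap_ub : kap ≤ (0.2328 : ℝ) := by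
  unfold kap
  have := Sr_lb
  have := Vr_ub
  rw [div_le_iff₀ Sr_pos]
  linarith

lemma kap_Sr : kap * Sr = Vr := by
  unfold kap
  exact div_mul_cancel₀ _ Sr_pos.ne'

lemma Vr_pos : 0 < Vr := by have := Vr_lb; linarith

lemma eps_Vr : eps * Vr = al * (2 * π / 5 - Sr / 2) := by
  unfold eps
  exact div_mul_cancel₀ _ Vr_pos.ne'

lemma eps_ub : eps ≤ (0.0000902 : ℝ) := by
  unfold eps al
  rw [div_le_iff₀ Vr_pos]
  have := Sr_lb
  have := Vr_lb
  have := pi_lt_d6
  linarith

lemma eps_lb : (0.00009 : ℝ) ≤ eps := by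
  unfold eps al
  rw [le_div_iff₀ Vr_pos]
  have := Sr_ub
  have := Vr_ub
  have := pi_gt_d6
  linarith

/-- potential on long edges -/
noncomputable def G (A₀ θ l : ℝ) : ℝ := if A₀ ≤ l then gp θ else 0

/-- total potential of a tetrahedron -/
noncomputable def PW (A₀ : ℝ) (x y z w : E3) : ℝ :=
  G A₀ (dih x y z w) (dist x y) + G A₀ (dih x z y w) (dist x z) + G A₀ (dih x w y z) (dist x w) +
  G A₀ (dih y z x w) (dist y z) + G A₀ (dih y w x z) (dist y w) + G A₀ (dih z w x y) (dist z w)

lemma G_lb (A₀ θ l : ℝ) : -(5 * om) ≤ G A₀ θ l := by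
  unfold G
  have := om_pos
  split_ifs
  · exact gp_lb
  · linarith

lemma term_lb {θ l A₀ w W1 S : ℝ} (h0 : 0 ≤ θ) (h1 : θ ≤ π) (hS : 0 ≤ S)
    (hsin : sin θ * w ≤ (8 + w / 2) * S) (hW : 0 < W1) (hw : A₀ ≤ l → W1 ≤ w) :
    -(π / 3 * ((8 / W1 + 1 / 2) * S)) ≤ G A₀ θ l := by
  have hpi := pi_pos
  unfold G
  split_ifs with hl
  · have h2 := neg_gp_le h0 h1
    have hw' := hw hl
    have hw0 : 0 < w := lt_of_lt_of_le hW hw'
    have h3 : sin θ ≤ (8 / w + 1 / 2) * S := by
      have h4 : sin θ ≤ (8 + w / 2) * S / w := by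
        rw [le_div_iff₀ hw0]; exact hsin
      refine h4.trans (le_of_eq ?_)
      field_simp
    have h5 : 8 / w ≤ 8 / W1 := div_le_div_of_nonneg_left (by norm_num) hW hw'
    have h6 : (8 / w + 1 / 2) * S ≤ (8 / W1 + 1 / 2) * S := mul_le_mul_of_nonneg_right (by linarith) hS
    have h7 : π / 3 * sin θ ≤ π / 3 * ((8 / W1 + 1 / 2) * S) :=
      mul_le_mul_of_nonneg_left (by linarith) (by positivity)
    linarith
  · have : 0 ≤ π / 3 * ((8 / W1 + 1 / 2) * S) := by positivity
    linarith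

lemma SS_perm (x y z w : E3) (h : det3 x y z w ≠ 0) : SS z w x y = SS x y z w ∧
    SS x z y w = SS x y z w ∧ SS x w y z = SS x y z w ∧ SS y z x w = SS x y z w ∧
    SS y w x z = SS x y z w := by
  obtain ⟨hxy, hxz, hxw, hyz, hyw, hzw⟩ := ne_of_det h
  have e1 : SS x z y w = SS x y z w := SS_swap23 x y z w hyz
  have e2 : SS x w y z = SS x y z w := by
    rw [SS_swap23 x y w z hyw, SS_swap34 x y z w hzw]
  have e3 : SS y z x w = SS x y z w := by
    rw [SS_swap23 y x z w hxz, SS_swap12 x y z w hxy]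
  have e4 : SS y w x z = SS x y z w := by
    rw [SS_swap23 y x w z hxw, SS_swap12 x y w z hxy, SS_swap34 x y z w hzw]
  have e5 : SS z w x y = SS x y z w := by
    rw [SS_swap23 z x w y hxw, SS_swap12 x z w y hxz, SS_swap34 x z y w hyw, e1]
  exact ⟨e5, e1, e2, e3, e4⟩

/-- all six sine bounds -/
lemma six_sines {x y z w o : E3} {ρ : ℝ} (h : det3 x y z w ≠ 0) (hx : dist x o = ρ)
    (hy : dist y o = ρ) (hz : dist z o = ρ) (hw : dist w o = ρ) (hρ : ρ ≤ 1) :
    sin (dih x y z w) * ((dist x z + dist y w) * (dist x w + dist y z)) ≤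
      (8 + (dist x z + dist y w) * (dist x w + dist y z) / 2) * SS x y z w ∧
    sin (dih z w x y) * ((dist x z + dist y w) * (dist x w + dist y z)) ≤
      (8 + (dist x z + dist y w) * (dist x w + dist y z) / 2) * SS x y z w ∧
    sin (dih x z y w) * ((dist x y + dist z w) * (dist x w + dist y z)) ≤
      (8 + (dist x y + dist z w) * (dist x w + dist y z) / 2) * SS x y z w ∧
    sin (dih y w x z) * ((dist x y + dist z w) * (dist x w + dist y z)) ≤
      (8 + (dist x y + dist z w) * (dist x w + dist y z) / 2) * SS x y z w ∧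
    sin (dih x w y z) * ((dist x y + dist z w) * (dist x z + dist y w)) ≤
      (8 + (dist x y + dist z w) * (dist x z + dist y w) / 2) * SS x y z w ∧
    sin (dih y z x w) * ((dist x y + dist z w) * (dist x z + dist y w)) ≤
      (8 + (dist x y + dist z w) * (dist x z + dist y w) / 2) * SS x y z w := by
  obtain ⟨p1, p2, p3, p4, p5⟩ := SS_perm x y z w h
  refine ⟨sin_bound h hx hy hz hw hρ, ?_, ?_, ?_, ?_, ?_⟩
  · have := sin_bound (x := z) (y := w) (z := x) (w := y) (by
      rw [show det3 z w x y = det3 x y z w by unfold det3; ring]; exact h) hz hw hx hy hρ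
    rw [p1, dist_comm z x, dist_comm w y, dist_comm z y, dist_comm w x,
      add_comm (dist y z) (dist x w)] at this
    exact this
  · have := sin_bound (x := x) (y := z) (z := y) (w := w) (by
      rw [show det3 x z y w = -det3 x y z w by unfold det3; ring]; exact neg_ne_zero.2 h) hx hz hy hw hρ
    rw [p2, dist_comm z y] at this
    exact this
  · have := sin_bound (x := y) (y := w) (z := x) (w := z) (by
      rw [show det3 y w x z = -det3 x y z w by unfold det3; ring]; exact neg_ne_zero.2 h) hy hw hx hz hρ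
    rw [p5, dist_comm y x, dist_comm w z, dist_comm w x, add_comm (dist y z) (dist x w)] at this
    exact this
  · have := sin_bound (x := x) (y := w) (z := y) (w := z) (by
      rw [show det3 x w y z = det3 x y z w by unfold det3; ring]; exact h) hx hw hy hz hρ
    rw [p3, dist_comm w z, dist_comm w y] at this
    exact this
  · have := sin_bound (x := y) (y := z) (z := x) (w := w) (by
      rw [show det3 y z x w = det3 x y z w by unfold det3; ring]; exact h) hy hz hx hw hρ
    rw [p4, dist_comm y x, dist_comm z x, add_comm (dist y w) (dist x z)] at this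
    exact this

lemma far_one {S V P : ℝ} (hS : 0 ≤ S) (hV0 : 0 ≤ V) (hV : V * (21 / 20) ≤ kap * S)
    (hP : -(6 * (π / 3 * ((8 / 2.02 + 1 / 2) * S))) ≤ P) : (1 + eps) * V ≤ kap * S + al * P := by
  have hk := kap_lb
  have he := eps_ub
  have hp := pi_lt_d2
  have e1 : eps * V ≤ 0.0000902 * V := mul_le_mul_of_nonneg_right he hV0
  have e2 : al * (-(6 * (π / 3 * ((8 / 2.02 + 1 / 2) * S)))) ≤ al * P :=
    mul_le_mul_of_nonneg_left hP (by unfold al; norm_num)
  have e3 : π * S ≤ 3.15 * S := mul_le_mul_of_nonneg_right hp.le hS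
  have e4 : al * (-(6 * (π / 3 * ((8 / 2.02 + 1 / 2) * S)))) =
    -(3 / 10000 * 2 * (8 / 2.02 + 1 / 2) * (π * S)) := by unfold al; ring
  have e5 : 0.2327 * S ≤ kap * S := mul_le_mul_of_nonneg_right hk hS
  rw [e4] at e2
  norm_num at e2
  nlinarith

lemma far_two {x A₀ S V P : ℝ} (hS : 0 ≤ S) (hV0 : 0 ≤ V) (hV : V * (21 / 20) ≤ kap * S)
    (hx0 : 0.038 ≤ x) (hx1 : x < A₀) (hA : 1.4215 ≤ A₀) (hA' : A₀ ≤ 1.45) (hVx : 6 * V ≤ x * S)
    (hP : -(4 * (π / 3 * ((8 / (x * (2 * A₀ - x)) + 1 / 2) * S))) ≤ P) :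
    (1 + eps) * V ≤ kap * S + al * P := by
  have hk := kap_lb
  have he := eps_ub
  have hp := pi_lt_d2
  have e1 : eps * V ≤ 0.0000902 * V := mul_le_mul_of_nonneg_right he hV0
  have e2 : al * (-(4 * (π / 3 * ((8 / (x * (2 * A₀ - x)) + 1 / 2) * S)))) ≤ al * P :=
    mul_le_mul_of_nonneg_left hP (by unfold al; norm_num)
  have e5 : 0.2327 * S ≤ kap * S := mul_le_mul_of_nonneg_right hk hS
  have x0 : 0 < x := by linarith
  rcases le_total x 1 with h1 | h1
  · -- `x ≤ 1`
    have w1 : 1.843 * x ≤ x * (2 * A₀ - x) := by nlinarith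
    have w2 : 8 / (x * (2 * A₀ - x)) ≤ 8 / (1.843 * x) :=
      div_le_div_of_nonneg_left (by norm_num) (by positivity) w1
    have w3 : 8 / (1.843 * x) = (8 / 1.843) * x⁻¹ := by field_simp
    have w4 : x⁻¹ ≤ 27.4 - 26.4 * x := by
      rw [inv_le_iff_one_le_mul₀ x0]
      nlinarith
    have w5 : π / 3 * ((8 / (x * (2 * A₀ - x)) + 1 / 2) * S) ≤
        3.15 / 3 * (((8 / 1.843) * (27.4 - 26.4 * x) + 1 / 2) * S) := by
      have : 8 / (x * (2 * A₀ - x)) ≤ (8 / 1.843) * (27.4 - 26.4 * x) := by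
        rw [w3] at w2
        refine w2.trans ?_
        exact mul_le_mul_of_nonneg_left w4 (by norm_num)
      have h3 : (8 / (x * (2 * A₀ - x)) + 1 / 2) * S ≤ ((8 / 1.843) * (27.4 - 26.4 * x) + 1 / 2) * S :=
        mul_le_mul_of_nonneg_right (by linarith) hS
      have h4 : 0 ≤ (8 / (x * (2 * A₀ - x)) + 1 / 2) * S := by
        have : 0 < 2 * A₀ - x := by linarith
        positivity
      exact mul_le_mul (by linarith) h3 h4 (by norm_num)
    have w6 : al * P ≥ -(3 / 10000 * 4 * (3.15 / 3 * (((8 / 1.843) * (27.4 - 26.4 * x) + 1 / 2) * S))) := by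
      have : al * (-(4 * (π / 3 * ((8 / (x * (2 * A₀ - x)) + 1 / 2) * S)))) =
        -(3 / 10000 * 4 * (π / 3 * ((8 / (x * (2 * A₀ - x)) + 1 / 2) * S))) := by unfold al; ring
      rw [this] at e2
      linarith
    have w7 : 0 ≤ x * S := by positivity
    have w8 : x * S ≤ 1 * S := mul_le_mul_of_nonneg_right h1 hS
    have w9 : 0.038 * S ≤ x * S := mul_le_mul_of_nonneg_right hx0 hS
    norm_num at w6 ⊢
    nlinarith
  · have w1 : 1.843 ≤ x * (2 * A₀ - x) := by nlinarith
    have w2 : 8 / (x * (2 * A₀ - x)) ≤ 8 / 1.843 :=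
      div_le_div_of_nonneg_left (by norm_num) (by positivity) w1
    have w5 : π / 3 * ((8 / (x * (2 * A₀ - x)) + 1 / 2) * S) ≤
        3.15 / 3 * ((8 / 1.843 + 1 / 2) * S) := by
      have h3 : (8 / (x * (2 * A₀ - x)) + 1 / 2) * S ≤ (8 / 1.843 + 1 / 2) * S :=
        mul_le_mul_of_nonneg_right (by linarith) hS
      have h4 : 0 ≤ (8 / (x * (2 * A₀ - x)) + 1 / 2) * S := by
        have : 0 < 2 * A₀ - x := by linarith
        positivity
      exact mul_le_mul (by linarith) h3 h4 (by norm_num)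
    have w6 : al * P ≥ -(3 / 10000 * 4 * (3.15 / 3 * ((8 / 1.843 + 1 / 2) * S))) := by
      have : al * (-(4 * (π / 3 * ((8 / (x * (2 * A₀ - x)) + 1 / 2) * S)))) =
        -(3 / 10000 * 4 * (π / 3 * ((8 / (x * (2 * A₀ - x)) + 1 / 2) * S))) := by unfold al; ring
      rw [this] at e2
      linarith
    norm_num at w6 ⊢
    nlinarith

/-- the far case -/
theorem TI_far {x y z w o : E3} {ρ A₀ : ℝ} (h : det3 x y z w ≠ 0) (hx : dist x o = ρ)
    (hy : dist y o = ρ) (hz : dist z o = ρ) (hw : dist w o = ρ) (hρ : ρ ≤ 1)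
    (hA : 1.4215 ≤ A₀) (hA' : A₀ ≤ 1.45) (h1 : 0.019 ≤ dist x y) (h2 : 0.019 ≤ dist x z)
    (h3 : 0.019 ≤ dist x w) (h4 : 0.019 ≤ dist y z) (h5 : 0.019 ≤ dist y w)
    (h6 : 0.019 ≤ dist z w) (hV : |det3 x y z w| / 6 * (21 / 20) ≤ kap * SS x y z w) :
    (1 + eps) * (|det3 x y z w| / 6) ≤ kap * SS x y z w + al * PW A₀ x y z w := by
  obtain ⟨s1, s6, s2, s5, s3, s4⟩ := six_sines h hx hy hz hw hρ
  obtain ⟨w1, w2, w3, w4, hS, -, -, -, -, o1, o2, o3, o4⟩ := omegas h
  have t1 := dist_triangle x z y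
  have t2 := dist_triangle x w y
  have t3 := dist_triangle x y z
  have t4 := dist_triangle x w z
  have t5 := dist_triangle x y w
  have t6 := dist_triangle x z w
  have t7 := dist_triangle y x z
  have t8 := dist_triangle y w z
  have t9 := dist_triangle y x w
  have t10 := dist_triangle y z w
  have t11 := dist_triangle z x w
  have t12 := dist_triangle z y w
  rw [dist_comm z y] at t1 t12
  rw [dist_comm w y] at t2
  rw [dist_comm w z] at t4 t8
  rw [dist_comm y x] at t7 t9
  rw [dist_comm z x] at t11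
  have b1 := dih_bd x y z w
  have b2 := dih_bd x z y w
  have b3 := dih_bd x w y z
  have b4 := dih_bd y z x w
  have b5 := dih_bd y w x z
  have b6 := dih_bd z w x y
  have two : ∀ p q : E3, dist p o = ρ → dist q o = ρ → dist p q ≤ 2 := by
    intro p q hp hq
    have := dist_triangle_right p q o
    linarith
  have m1 := two x y hx hy
  have m2 := two x z hx hz
  have m3 := two x w hx hw
  have m4 := two y z hy hz
  have m5 := two y w hy hw
  have m6 := two z w hz hw
  have hdet : 0 < |det3 x y z w| := abs_pos.2 h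
  unfold PW
  set S := SS x y z w
  set A := dist x y
  set B := dist x z
  set C := dist x w
  set D := dist y z
  set E := dist y w
  set F := dist z w
  set Δ := |det3 x y z w|
  have pos : ∀ p q r t : ℝ, 0 < p → 0 < q → 0 < r → Δ ≤ 2 * (p * q * r) * t → 0 < t := by
    intro p q r t hp hq hr ht
    by_contra hc
    push Not at hc
    have : 2 * (p * q * r) * t ≤ 0 := mul_nonpos_of_nonneg_of_nonpos (by positivity) hc
    linarith
  have A0 : 0 < A := by linarith
  have B0 : 0 < B := by linarith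
  have C0 : 0 < C := by linarith
  have D0 : 0 < D := by linarith
  have E0 : 0 < E := by linarith
  have F0 : 0 < F := by linarith
  have p1 := pos _ _ _ _ A0 B0 C0 o1
  have p2 := pos _ _ _ _ A0 D0 E0 o2
  have p3 := pos _ _ _ _ B0 D0 F0 o3
  have p4 := pos _ _ _ _ C0 E0 F0 o4
  have hS0 : 0 < S := by rw [hS]; positivity
  have hV0 : 0 ≤ Δ / 6 := by positivity
  -- volume and short edges
  have short : ∀ p q r t : ℝ, 0 < p → 0 < q → 0 < r → 0 < t → q ≤ 2 → r ≤ 2 →
      Δ ≤ 2 * (p * q * r) * t → Δ ≤ 8 * p * t := by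
    intro p q r t hp hq hr ht hq2 hr2 h
    refine h.trans ?_
    have : q * r ≤ 2 * 2 := mul_le_mul hq2 hr2 hr.le (by norm_num)
    have h8 : p * t * (q * r) ≤ p * t * (2 * 2) := mul_le_mul_of_nonneg_left this (by positivity)
    linarith
  have comb : ∀ p q t1 t2 t3 t4 : ℝ, 0 < p → 0 < q → 0 < t1 → 0 < t2 → 0 < t3 → 0 < t4 →
      Δ ≤ 8 * p * t1 → Δ ≤ 8 * p * t2 → Δ ≤ 8 * q * t3 → Δ ≤ 8 * q * t4 →
      6 * (Δ / 6) ≤ (p + q) * (t1 + t2 + t3 + t4) := by
    intro p q t1 t2 t3 t4 hp hq h1 h2 h3 h4 k1 k2 k3 k4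
    have g1 : Δ / (4 * p) ≤ t1 + t2 := by
      rw [div_le_iff₀ (by positivity)]; linarith
    have g2 : Δ / (4 * q) ≤ t3 + t4 := by
      rw [div_le_iff₀ (by positivity)]; linarith
    have g3 : Δ ≤ (p + q) * (Δ / (4 * p) + Δ / (4 * q)) := by
      have : (p + q) * (Δ / (4 * p) + Δ / (4 * q)) = Δ + Δ * (p - q) ^ 2 / (4 * (p * q)) := by
        field_simp; ring
      rw [this]
      have : 0 ≤ Δ * (p - q) ^ 2 / (4 * (p * q)) := by positivity
      linarith
    have g4 : (p + q) * (Δ / (4 * p) + Δ / (4 * q)) ≤ (p + q) * (t1 + t2 + t3 + t4) :=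
      mul_le_mul_of_nonneg_left (by linarith) (by positivity)
    linarith
  rcases lt_or_ge (A + F) A₀ with c1 | c1
  · -- pair `xy, zw`
    have hVx : 6 * (Δ / 6) ≤ (A + F) * S := by
      rw [hS]
      exact comb A F w1 w2 w3 w4 A0 F0 p1 p2 p3 p4 (short A B C w1 A0 B0 C0 p1 m2 m3 o1)
        (short A D E w2 A0 D0 E0 p2 m4 m5 o2)
        (short F B D w3 F0 B0 D0 p3 m2 m4 (by rw [show F * B * D = B * D * F by ring]; exact o3))
        (short F C E w4 F0 C0 E0 p4 m3 m5 (by rw [show F * C * E = C * E * F by ring]; exact o4))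
    have hW : 0 < (A + F) * (2 * A₀ - (A + F)) := mul_pos (by positivity) (by linarith)
    have g1 : G A₀ (dih x y z w) A = 0 := by unfold G; rw [if_neg (by linarith)]
    have g6 : G A₀ (dih z w x y) F = 0 := by unfold G; rw [if_neg (by linarith)]
    have g2 := term_lb b2.1 b2.2 hS0.le s2 hW (A₀ := A₀) (l := B)
      (fun hl => mul_le_mul_of_nonneg_left (by linarith) (by positivity))
    have g5 := term_lb b5.1 b5.2 hS0.le s5 hW (A₀ := A₀) (l := E)
      (fun hl => mul_le_mul_of_nonneg_left (by linarith) (by positivity))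
    have g3 := term_lb b3.1 b3.2 hS0.le s3 hW (A₀ := A₀) (l := C)
      (fun hl => mul_le_mul_of_nonneg_left (by linarith) (by positivity))
    have g4 := term_lb b4.1 b4.2 hS0.le s4 hW (A₀ := A₀) (l := D)
      (fun hl => mul_le_mul_of_nonneg_left (by linarith) (by positivity))
    exact far_two hS0.le hV0 hV (by linarith) c1 hA hA' hVx (by linarith)
  rcases lt_or_ge (B + E) A₀ with c2 | c2
  · have hVx : 6 * (Δ / 6) ≤ (B + E) * S := by
      have := comb B E w1 w3 w2 w4 B0 E0 p1 p3 p2 p4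
        (short B A C w1 B0 A0 C0 p1 m1 m3 (by rw [show B * A * C = A * B * C by ring]; exact o1))
        (short B D F w3 B0 D0 F0 p3 m4 m6 o3)
        (short E A D w2 E0 A0 D0 p2 m1 m4 (by rw [show E * A * D = A * D * E by ring]; exact o2))
        (short E C F w4 E0 C0 F0 p4 m3 m6 (by rw [show E * C * F = C * E * F by ring]; exact o4))
      rw [hS]
      refine this.trans (le_of_eq (by ring))
    have hW : 0 < (B + E) * (2 * A₀ - (B + E)) := mul_pos (by positivity) (by linarith)
    have g2 : G A₀ (dih x z y w) B = 0 := by unfold G; rw [if_neg (by linarith)]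
    have g5 : G A₀ (dih y w x z) E = 0 := by unfold G; rw [if_neg (by linarith)]
    have g1 := term_lb b1.1 b1.2 hS0.le s1 hW (A₀ := A₀) (l := A)
      (fun hl => mul_le_mul_of_nonneg_left (by linarith) (by positivity))
    have g6 := term_lb b6.1 b6.2 hS0.le s6 hW (A₀ := A₀) (l := F)
      (fun hl => mul_le_mul_of_nonneg_left (by linarith) (by positivity))
    have g3 := term_lb b3.1 b3.2 hS0.le s3 hW (A₀ := A₀) (l := C)
      (fun hl => by
        rw [mul_comm (A + F)]
        exact mul_le_mul_of_nonneg_left (by linarith) (by positivity))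
    have g4 := term_lb b4.1 b4.2 hS0.le s4 hW (A₀ := A₀) (l := D)
      (fun hl => by
        rw [mul_comm (A + F)]
        exact mul_le_mul_of_nonneg_left (by linarith) (by positivity))
    exact far_two hS0.le hV0 hV (by linarith) c2 hA hA' hVx (by linarith)
  rcases lt_or_ge (C + D) A₀ with c3 | c3
  · have hVx : 6 * (Δ / 6) ≤ (C + D) * S := by
      have := comb C D w1 w4 w2 w3 C0 D0 p1 p4 p2 p3
        (short C A B w1 C0 A0 B0 p1 m1 m2 (by rw [show C * A * B = A * B * C by ring]; exact o1))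
        (short C E F w4 C0 E0 F0 p4 m5 m6 o4)
        (short D A E w2 D0 A0 E0 p2 m1 m5 (by rw [show D * A * E = A * D * E by ring]; exact o2))
        (short D B F w3 D0 B0 F0 p3 m2 m6 (by rw [show D * B * F = B * D * F by ring]; exact o3))
      rw [hS]
      refine this.trans (le_of_eq (by ring))
    have hW : 0 < (C + D) * (2 * A₀ - (C + D)) := mul_pos (by positivity) (by linarith)
    have g3 : G A₀ (dih x w y z) C = 0 := by unfold G; rw [if_neg (by linarith)]
    have g4 : G A₀ (dih y z x w) D = 0 := by unfold G; rw [if_neg (by linarith)]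
    have g1 := term_lb b1.1 b1.2 hS0.le s1 hW (A₀ := A₀) (l := A)
      (fun hl => by
        rw [mul_comm (B + E)]
        exact mul_le_mul_of_nonneg_left (by linarith) (by positivity))
    have g6 := term_lb b6.1 b6.2 hS0.le s6 hW (A₀ := A₀) (l := F)
      (fun hl => by
        rw [mul_comm (B + E)]
        exact mul_le_mul_of_nonneg_left (by linarith) (by positivity))
    have g2 := term_lb b2.1 b2.2 hS0.le s2 hW (A₀ := A₀) (l := B)
      (fun hl => by
        rw [mul_comm (A + F)]
        exact mul_le_mul_of_nonneg_left (by linarith) (by positivity))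
    have g5 := term_lb b5.1 b5.2 hS0.le s5 hW (A₀ := A₀) (l := E)
      (fun hl => by
        rw [mul_comm (A + F)]
        exact mul_le_mul_of_nonneg_left (by linarith) (by positivity))
    exact far_two hS0.le hV0 hV (by linarith) c3 hA hA' hVx (by linarith)
  · have hW : (0 : ℝ) < 2.02 := by norm_num
    have w12 : 2.02 ≤ (A + F) * (B + E) :=
      le_trans (by norm_num : (2.02 : ℝ) ≤ 1.4215 * 1.4215)
        (mul_le_mul (hA.trans c1) (hA.trans c2) (by norm_num) (by positivity))
    have w13 : 2.02 ≤ (A + F) * (C + D) :=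
      le_trans (by norm_num : (2.02 : ℝ) ≤ 1.4215 * 1.4215)
        (mul_le_mul (hA.trans c1) (hA.trans c3) (by norm_num) (by positivity))
    have w23 : 2.02 ≤ (B + E) * (C + D) :=
      le_trans (by norm_num : (2.02 : ℝ) ≤ 1.4215 * 1.4215)
        (mul_le_mul (hA.trans c2) (hA.trans c3) (by norm_num) (by positivity))
    have g1 := term_lb b1.1 b1.2 hS0.le s1 hW (A₀ := A₀) (l := A) (fun hl => w23)
    have g6 := term_lb b6.1 b6.2 hS0.le s6 hW (A₀ := A₀) (l := F) (fun hl => w23)
    have g2 := term_lb b2.1 b2.2 hS0.le s2 hW (A₀ := A₀) (l := B) (fun hl => w13)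
    have g5 := term_lb b5.1 b5.2 hS0.le s5 hW (A₀ := A₀) (l := E) (fun hl => w13)
    have g3 := term_lb b3.1 b3.2 hS0.le s3 hW (A₀ := A₀) (l := C) (fun hl => w12)
    have g4 := term_lb b4.1 b4.2 hS0.le s4 hW (A₀ := A₀) (l := D) (fun hl => w12)
    exact far_one hS0.le hV0 hV (by linarith)

end BccO
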