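import Pool.Agent.MP_bf7174_co.O.N3

/-!
# the tetrahedron inequality, near and middle cases
-/

set_option autoImplicit false

open MeasureTheory Real
open scoped InnerProductSpace Pointwise

namespace BccO

open BccCov BccCov.W2

lemma PW_lb (A₀ : ℝ) (x y z w : E3) : -(30 * om) ≤ PW A₀ x y z w := by
  unfold PW
  have := G_lb A₀ (dih x y z w) (dist x y)
  have := G_lb A₀ (dih x z y w) (dist x z)
  have := G_lb A₀ (dih x w y z) (dist x w)
  have := G_lb A₀ (dih y z x w) (dist y z)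
  have := G_lb A₀ (dih y w x z) (dist y w)
  have := G_lb A₀ (dih z w x y) (dist z w)
  linarith

/-- middle case -/
lemma TI_mid {v L g S P : ℝ} (v0 : 0 < v) (L0 : 0 ≤ L) (L1 : L ≤ 1 / 20) (g0 : 0 ≤ g) (g1 : g ≤ 1)
    (hv : 1 - 19.2 * L ≤ v ^ 2) (hE : 0.0015 ≤ 1 + L - g) (hS : Vr * v * (1 + L) ≤ kap * S)
    (hP : -(30 * om) ≤ P) : (1 + eps) * (Vr * v * g) ≤ kap * S + al * P := by
  have hr := Vr_lb
  have he := eps_ub
  have he0 := eps_lb
  have hom : 30 * om ≤ 2.0944 := by unfold om; have := pi_lt_d4; linarith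
  have h1 : -(0.00062832) ≤ al * P := by
    have : al * (-(30 * om)) ≤ al * P := mul_le_mul_of_nonneg_left hP (by unfold al; norm_num)
    unfold al at this ⊢
    linarith
  have h2 : 0.00062832 ≤ Vr * v * (1 + L - g - 0.0000902) := by
    rcases le_total L 0.01 with h | h
    · have v1 : 0.898 ≤ v := by
        apply le_of_sq_le_sq _ v0.le
        norm_num; linarith
      have h3 : 0.51319 * 0.898 * 0.0014098 ≤ Vr * v * (1 + L - g - 0.0000902) :=
        mul_le_mul (mul_le_mul hr v1 (by norm_num) (by linarith)) (by linarith) (by norm_num)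
          (mul_nonneg (by linarith) v0.le)
      norm_num at h3 ⊢
      linarith
    · have v1 : 0.2 ≤ v := by
        apply le_of_sq_le_sq _ v0.le
        norm_num; linarith
      have h3 : 0.51319 * 0.2 * 0.0099 ≤ Vr * v * (1 + L - g - 0.0000902) :=
        mul_le_mul (mul_le_mul hr v1 (by norm_num) (by linarith)) (by linarith) (by norm_num)
          (mul_nonneg (by linarith) v0.le)
      norm_num at h3 ⊢
      linarith
  have hVv : 0 ≤ Vr * v := mul_nonneg (by linarith) v0.le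
  have h4 : eps * (Vr * v * g) ≤ Vr * v * 0.0000902 := by
    have : eps * (Vr * v * g) = (Vr * v) * (eps * g) := by ring
    rw [this]
    apply mul_le_mul_of_nonneg_left _ hVv
    calc eps * g ≤ 0.0000902 * 1 := mul_le_mul he g1 g0 (by norm_num)
      _ = _ := by norm_num
  have h5 : Vr * v * (1 + L) - Vr * v * g - Vr * v * 0.0000902 = Vr * v * (1 + L - g - 0.0000902) := by
    ring
  linarith

/-- near case, numbers -/
lemma TI_near_num {v L g S P : ℝ} (v0 : 0 < v) (L0 : 0 ≤ L) (g0 : 0 ≤ g) (g1 : g ≤ 1)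
    (hv : 0.98 ≤ v) (hv1 : v ≤ 1) (hS : Sr * v * (1 + L) ≤ S)
    (hP : 2 * π / 5 - S / 2 - 1320 * L ≤ P) : (1 + eps) * (Vr * v * g) ≤ kap * S + al * P := by
  have hr := Vr_lb
  have hSr := Sr_ub
  have hSr0 := Sr_lb
  have hk := kap_lb
  have hpi := pi_pos
  have ha : al * (2 * π / 5 - S / 2 - 1320 * L) ≤ al * P :=
    mul_le_mul_of_nonneg_left hP (by unfold al; norm_num)
  have h1 : (kap - al / 2) * (Sr * v * (1 + L)) ≤ (kap - al / 2) * S :=
    mul_le_mul_of_nonneg_left hS (by unfold al; linarith)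
  have h2 : (kap - al / 2) * (Sr * v * (1 + L)) = (Vr - al / 2 * Sr) * v * (1 + L) := by
    rw [← kap_Sr]; ring
  have h3 : (1 + eps) * (Vr * v * g) = (Vr + (al * (2 * π / 5 - Sr / 2))) * v * g := by
    rw [← eps_Vr]; ring
  have h4 : v * g ≤ 1 := by
    calc v * g ≤ 1 * 1 := mul_le_mul hv1 g1 g0 (by norm_num)
      _ = 1 := by norm_num
  have h5 : al * (2 * π / 5) * (v * g) ≤ al * (2 * π / 5) * 1 :=
    mul_le_mul_of_nonneg_left h4 (by unfold al; positivity)
  have h6 : (0.5 : ℝ) ≤ Vr - al / 2 * Sr := by unfold al; linarith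
  have h7 : 0.5 * 0.98 * L ≤ (Vr - al / 2 * Sr) * v * (1 + L - g) := by
    have : 0.5 * 0.98 ≤ (Vr - al / 2 * Sr) * v := mul_le_mul h6 hv (by norm_num) (by linarith)
    exact mul_le_mul this (by linarith) L0 (mul_nonneg (by linarith) v0.le)
  have h8 : al * (1320 * L) = 0.396 * L := by unfold al; ring
  have h9 : (Vr - al / 2 * Sr) * v * (1 + L - g) = (Vr - al / 2 * Sr) * v * (1 + L) -
    (Vr - al / 2 * Sr) * v * g := by ring
  have h10 : (Vr + (al * (2 * π / 5 - Sr / 2))) * v * g = (Vr - al / 2 * Sr) * v * g +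
    al * (2 * π / 5) * (v * g) := by ring
  have h11 : al * (2 * π / 5 - S / 2 - 1320 * L) = al * (2 * π / 5) - al / 2 * S - al * (1320 * L) := by
    ring
  rw [h3, h10]
  rw [h2] at h1
  rw [h11, h8] at ha
  rw [h9] at h7
  have h12 : (kap - al / 2) * S = kap * S - al / 2 * S := by ring
  rw [h12] at h1
  linarith

lemma gp_near {θ h : ℝ} (hh : 0 ≤ h) (h1 : 17 * om - h ≤ θ) : 18 * om - θ - 2 * h ≤ gp θ := by
  have h2 := gp_ge1 θ
  have h3 : |θ - 17 * om| ≤ θ - 17 * om + 2 * h := by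
    rw [abs_le]; constructor <;> linarith
  linarith

/-- near case -/
theorem TI_near {x y z w : E3} {A₀ s m1 m2 m3 d1 d2 d3 v L : ℝ} (h : det3 x y z w ≠ 0)
    (hn : Nrm x y z w s m1 m2 m3 d1 d2 d3 v L)
    (hc : m1 ^ 2 ≤ 2 * L ∧ m2 ^ 2 ≤ 2 * L ∧ m3 ^ 2 ≤ 2 * L ∧ d1 ^ 2 + d2 ^ 2 + d3 ^ 2 ≤ 5 * L)
    (hA' : A₀ ≤ 1.45) (g1 : √((3 * s / 8) ^ 3) ≤ 1) (hE : 1 + L - √((3 * s / 8) ^ 3) ≤ 0.0015) :
    (1 + eps) * (|det3 x y z w| / 6) ≤ kap * SS x y z w + al * PW A₀ x y z w := by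
  obtain ⟨hxy, hxz, hxw, hyz, hyw, hzw⟩ := ne_of_det h
  have hvlb := v_lb hn hc
  have hL : L ≤ 0.0015 := by linarith
  have hvub := v_ub hn hc hL
  have s0 := hn.s0
  have L0 := hn.L0
  have v0 := hn.v0
  rw [vol_nrm hn]
  have g0 : 0 ≤ √((3 * s / 8) ^ 3) := sqrt_nonneg _
  have g2 : √((3 * s / 8) ^ 3) ^ 2 = (3 * s / 8) ^ 3 := sq_sqrt (by positivity)
  -- lower bound for `s`
  have hs : 2.64 ≤ s := by
    by_contra hcon
    push Not at hcon
    have h3 : (3 * s / 8) ^ 3 ≤ 0.99 ^ 3 := pow_le_pow_left₀ (by positivity) (by linarith) 3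
    have h4 : (0.9985 : ℝ) ^ 2 ≤ √((3 * s / 8) ^ 3) ^ 2 := pow_le_pow_left₀ (by norm_num) (by linarith) 2
    rw [g2] at h4
    norm_num at h3 h4
    linarith
  obtain ⟨c1, c2, c3, c4⟩ := hc
  have bm : ∀ m : ℝ, m ^ 2 ≤ 2 * L → |m| ≤ 0.055 := by
    intro m hm
    apply abs_le_of_sq_le_sq _ (by norm_num)
    norm_num; linarith
  have b1 := abs_le.1 (bm m1 c1)
  have b2 := abs_le.1 (bm m2 c2)
  have b3 := abs_le.1 (bm m3 c3)
  have bd : ∀ m : ℝ, m ^ 2 ≤ 5 * L → |m| ≤ 0.087 := by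
    intro m hm
    apply abs_le_of_sq_le_sq _ (by norm_num)
    norm_num; linarith
  have e1 := abs_le.1 (bd d1 (by linarith [sq_nonneg d2, sq_nonneg d3]))
  have e2 := abs_le.1 (bd d2 (by linarith [sq_nonneg d1, sq_nonneg d3]))
  have e3 := abs_le.1 (bd d3 (by linarith [sq_nonneg d2, sq_nonneg d1]))
  have long : ∀ p q : E3, ∀ t : ℝ, sd p q = s * t → 0.858 ≤ t → A₀ ≤ dist p q := by
    intro p q t h1 h2
    have h3 : 2.64 * 0.858 ≤ s * t := mul_le_mul hs h2 (by norm_num) s0.le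
    have h4 : (1.45 : ℝ) ≤ dist p q := by
      apply le_of_sq_le_sq _ dist_nonneg
      rw [show dist p q ^ 2 = sd p q from rfl, h1]
      norm_num at h3 ⊢
      linarith
    linarith
  have l1 := long x y _ hn.a (by linarith [b1.1, e1.1])
  have l2 := long x z _ hn.b (by linarith [b2.1, e2.1])
  have l3 := long x w _ hn.c (by linarith [b3.1, e3.1])
  have l4 := long y z _ hn.d (by linarith [b3.1, e3.2])
  have l5 := long y w _ hn.e (by linarith [b2.1, e2.2])
  have l6 := long z w _ hn.f (by linarith [b1.1, e1.2])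
  have hm := hn.hm
  -- the angles
  have n1 : Near m1 m2 m3 d1 d2 d3 L := ⟨L0, hL, hm, c1, c2, c3, c4⟩
  have a1 : 17 * om - 110 * L ≤ dih x y z w := by
    rw [dih_eq x y z w hxy]
    exact near_angle n1 s0 hn.a hn.b hn.c hn.d hn.e hn.f
  have a6 : 17 * om - 110 * L ≤ dih z w x y := by
    rw [dih_eq z w x y hzw, sd_comm z x, sd_comm z y, sd_comm w x, sd_comm w y]
    exact near_angle (m1 := m1) (m2 := m2) (m3 := m3) (d1 := -d1) (d2 := d2) (d3 := -d3)
      ⟨L0, hL, hm, c1, c2, c3, by linarith [c4, neg_sq d1, neg_sq d3]⟩ s0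
      (by rw [hn.f]; ring) (by rw [hn.b]) (by rw [hn.d]; ring) (by rw [hn.c]; ring) (by rw [hn.e])
      (by rw [hn.a]; ring)
  have a2 : 17 * om - 110 * L ≤ dih x z y w := by
    rw [dih_eq x z y w hxz, sd_comm z y]
    exact near_angle (m1 := m2) (m2 := m1) (m3 := m3) (d1 := d2) (d2 := d1) (d3 := d3)
      ⟨L0, hL, by linarith, c2, c1, c3, by linarith⟩ s0
      hn.b hn.a hn.c hn.d hn.f hn.e
  have a3 : 17 * om - 110 * L ≤ dih x w y z := by
    rw [dih_eq x w y z hxw, sd_comm w y, sd_comm w z]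
    exact near_angle (m1 := m3) (m2 := m1) (m3 := m2) (d1 := d3) (d2 := d1) (d3 := d2)
      ⟨L0, hL, by linarith, c3, c1, c2, by linarith⟩ s0
      hn.c hn.a hn.b hn.e hn.f hn.d
  have a4 : 17 * om - 110 * L ≤ dih y z x w := by
    rw [dih_eq y z x w hyz, sd_comm y x, sd_comm z x]
    exact near_angle (m1 := m3) (m2 := m1) (m3 := m2) (d1 := -d3) (d2 := d1) (d3 := -d2)
      ⟨L0, hL, by linarith, c3, c1, c2, by linarith [neg_sq d3, neg_sq d2]⟩ s0
      (by rw [hn.d]; ring) hn.a (by rw [hn.e]; ring) (by rw [hn.b]; ring) hn.f (by rw [hn.c]; ring)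
  have a5 : 17 * om - 110 * L ≤ dih y w x z := by
    rw [dih_eq y w x z hyw, sd_comm y x, sd_comm w x, sd_comm w z]
    exact near_angle (m1 := m2) (m2 := m1) (m3 := m3) (d1 := -d2) (d2 := d1) (d3 := -d3)
      ⟨L0, hL, by linarith, c2, c1, c3, by linarith [neg_sq d3, neg_sq d2]⟩ s0
      (by rw [hn.e]; ring) hn.a (by rw [hn.d]; ring) (by rw [hn.c]; ring) hn.f (by rw [hn.b]; ring)
  have hP : 2 * π / 5 - SS x y z w / 2 - 1320 * L ≤ PW A₀ x y z w := by
    unfold PW G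
    rw [if_pos l1, if_pos l2, if_pos l3, if_pos l4, if_pos l5, if_pos l6]
    have k1 := gp_near (by positivity) a1
    have k2 := gp_near (by positivity) a2
    have k3 := gp_near (by positivity) a3
    have k4 := gp_near (by positivity) a4
    have k5 := gp_near (by positivity) a5
    have k6 := gp_near (by positivity) a6
    have ho : π = 45 * om := by unfold om; ring
    unfold SS
    linarith
  exact TI_near_num v0 L0 g0 g1 (by
    apply le_of_sq_le_sq _ v0.le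
    norm_num; linarith) hvub hn.lb hP

/-- **the tetrahedron inequality** -/
theorem TI {x y z w o : E3} {ρ A₀ : ℝ} (h : det3 x y z w ≠ 0) (hx : dist x o = ρ)
    (hy : dist y o = ρ) (hz : dist z o = ρ) (hw : dist w o = ρ) (hρ : ρ ≤ 1)
    (hA : 1.4215 ≤ A₀) (hA' : A₀ ≤ 1.45) (h1 : 0.019 ≤ dist x y) (h2 : 0.019 ≤ dist x z)
    (h3 : 0.019 ≤ dist x w) (h4 : 0.019 ≤ dist y z) (h5 : 0.019 ≤ dist y w)
    (h6 : 0.019 ≤ dist z w) :
    (1 + eps) * (|det3 x y z w| / 6) ≤ kap * SS x y z w + al * PW A₀ x y z w := by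
  obtain ⟨s, m1, m2, m3, d1, d2, d3, v, L, hn⟩ := exists_nrm h
  have s0 := hn.s0
  have L0 := hn.L0
  have L1 := hn.L1
  have v0 := hn.v0
  have hsum := sum_sd_le hx hy hz hw hρ
  rw [hn.a, hn.b, hn.c, hn.d, hn.e, hn.f] at hsum
  have hm := hn.hm
  have hs : 3 * s / 8 ≤ 1 := by
    have : s * (1 + m1 + d1) + s * (1 + m2 + d2) + s * (1 + m3 + d3) + s * (1 + m3 - d3) +
      s * (1 + m2 - d2) + s * (1 + m1 - d1) = 6 * s + 2 * s * (m1 + m2 + m3) := by ring
    rw [this, hm] at hsum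
    linarith
  have g0 : 0 ≤ √((3 * s / 8) ^ 3) := sqrt_nonneg _
  have g1 : √((3 * s / 8) ^ 3) ≤ 1 := by
    rw [sqrt_le_left (by norm_num), one_pow]
    exact pow_le_one₀ (by positivity) hs
  have hV := vol_nrm hn
  have hS : Vr * v * (1 + L) ≤ kap * SS x y z w := by
    have := mul_le_mul_of_nonneg_left hn.lb (by have := kap_lb; linarith : 0 ≤ kap)
    rw [← kap_Sr]
    linarith
  rcases hn.alt with hL | hc
  · apply TI_far h hx hy hz hw hρ hA hA' h1 h2 h3 h4 h5 h6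
    rw [hV]
    refine le_trans ?_ hS
    rw [hL]
    have hVv : 0 ≤ Vr * v := mul_nonneg Vr_pos.le v0.le
    have : Vr * v * √((3 * s / 8) ^ 3) ≤ Vr * v * 1 := mul_le_mul_of_nonneg_left g1 hVv
    linarith
  · rcases le_total 0.0015 (1 + L - √((3 * s / 8) ^ 3)) with hE | hE
    · rw [hV]
      exact TI_mid v0 L0 L1 g0 g1 (v_lb hn hc) hE hS (PW_lb _ _ _ _ _)
    · exact TI_near h hn hc hA' g1 hE

end BccO
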