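import Pool.Agent.MP_bf7174_co.LA
import Pool.Agent.MP_bf7174_co.LP
import Pool.Agent.MP_bf7174_co.S

/-!
# existence of the Delaunay triangulation of a generic set
-/

set_option autoImplicit false

open MeasureTheory Real
open scoped InnerProductSpace Pointwise

namespace BccO

open BccCov

theorem affInd_of_det3 (P : Fin 4 → E3) (h : det3 (P 0) (P 1) (P 2) (P 3) ≠ 0) :
    AffineIndependent ℝ P := by
  rw [affineIndependent_iff_of_fintype]
  intro w hw hs
  rw [Finset.weightedVSub_eq_weightedVSubOfPoint_of_sum_eq_zero (h := hw) (b := P 0),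
    Finset.weightedVSubOfPoint_apply] at hs
  simp only [Fin.sum_univ_four, vsub_eq_sub, sub_self, smul_zero, zero_add] at hs hw
  have c0 := congrArg (fun v : E3 => v 0) hs
  have c1 := congrArg (fun v : E3 => v 1) hs
  have c2 := congrArg (fun v : E3 => v 2) hs
  simp only [PiLp.add_apply, PiLp.smul_apply, PiLp.sub_apply, smul_eq_mul, PiLp.zero_apply]
    at c0 c1 c2
  have w1 : w 1 * det3 (P 0) (P 1) (P 2) (P 3) = 0 := by
    rw [det3]
    linear_combination
      ((P 2 1 - P 0 1) * (P 3 2 - P 0 2) - (P 2 2 - P 0 2) * (P 3 1 - P 0 1)) * c0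
      - ((P 2 0 - P 0 0) * (P 3 2 - P 0 2) - (P 2 2 - P 0 2) * (P 3 0 - P 0 0)) * c1
      + ((P 2 0 - P 0 0) * (P 3 1 - P 0 1) - (P 2 1 - P 0 1) * (P 3 0 - P 0 0)) * c2
  have w2 : w 2 * det3 (P 0) (P 1) (P 2) (P 3) = 0 := by
    rw [det3]
    linear_combination
      -((P 1 1 - P 0 1) * (P 3 2 - P 0 2) - (P 1 2 - P 0 2) * (P 3 1 - P 0 1)) * c0
      + ((P 1 0 - P 0 0) * (P 3 2 - P 0 2) - (P 1 2 - P 0 2) * (P 3 0 - P 0 0)) * c1
      - ((P 1 0 - P 0 0) * (P 3 1 - P 0 1) - (P 1 1 - P 0 1) * (P 3 0 - P 0 0)) * c2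
  have w3 : w 3 * det3 (P 0) (P 1) (P 2) (P 3) = 0 := by
    rw [det3]
    linear_combination
      ((P 1 1 - P 0 1) * (P 2 2 - P 0 2) - (P 1 2 - P 0 2) * (P 2 1 - P 0 1)) * c0
      - ((P 1 0 - P 0 0) * (P 2 2 - P 0 2) - (P 1 2 - P 0 2) * (P 2 0 - P 0 0)) * c1
      + ((P 1 0 - P 0 0) * (P 2 1 - P 0 1) - (P 1 1 - P 0 1) * (P 2 0 - P 0 0)) * c2
  have w1' := (mul_eq_zero.1 w1).resolve_right h
  have w2' := (mul_eq_zero.1 w2).resolve_right h
  have w3' := (mul_eq_zero.1 w3).resolve_right h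
  have w0' : w 0 = 0 := by rw [w1', w2', w3'] at hw; linarith
  intro i
  fin_cases i
  · exact w0'
  · exact w1'
  · exact w2'
  · exact w3'

theorem affInd_image (P : Fin 4 → E3) (h : det3 (P 0) (P 1) (P 2) (P 3) ≠ 0) (t : Finset E3)
    (ht : (t : Set E3) = Set.range P) :
    AffineIndependent ℝ (Subtype.val : {x // x ∈ t} → E3) := by
  have h1 := (affInd_of_det3 P h).range
  have h2 : ∀ x : {x // x ∈ t}, x.1 ∈ Set.range P := fun x => by
    rw [← ht]; exact x.2
  have h3 := h1.comp_embedding (⟨fun x : {x // x ∈ t} => (⟨x.1, h2 x⟩ : Set.range P),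
    fun a b hab => by
      have := congrArg Subtype.val hab
      exact Subtype.ext this⟩)
  exact h3

/-- genericity: no four coplanar points, no five cospherical points -/
structure Gen (X : Set E3) : Prop where
  plane : ∀ x ∈ X, ∀ y ∈ X, ∀ z ∈ X, ∀ w ∈ X, x ≠ y → x ≠ z → x ≠ w → y ≠ z → y ≠ w → z ≠ w →
    det3 x y z w ≠ 0
  sphere : ∀ (o : E3) (ρ : ℝ) (s : Finset E3), (∀ x ∈ s, x ∈ X) → (∀ x ∈ s, dist x o = ρ) →
    s.card ≤ 4

/-- the Delaunay tetrahedra -/
def Del (X : Set E3) : Set (Finset E3) :=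
  {t | t.card = 4 ∧ (∀ x ∈ t, x ∈ X) ∧ ∃ (o : E3) (ρ : ℝ), (∀ x ∈ t, dist x o = ρ) ∧
    ∀ x ∈ X, x ∉ t → ρ < dist x o}

/-- from an empty sphere with at least four points -/
lemma Del_of_empty {X : Set E3} (hG : Gen X) (hfin : ∀ R : ℝ, (X ∩ Metric.closedBall (0 : E3) R).Finite)
    {o : E3} {ρ : ℝ} (h1 : ∀ x ∈ X, ρ ≤ dist x o) {s : Finset E3} (hs : 4 ≤ s.card)
    (hsX : ∀ x ∈ s, x ∈ X) (hso : ∀ x ∈ s, dist x o = ρ) : s ∈ Del X := by
  classical
  have h4 : s.card = 4 := le_antisymm (hG.sphere o ρ s hsX hso) hs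
  refine ⟨h4, hsX, o, ρ, hso, fun x hx hxs => lt_of_le_of_ne (h1 x hx) fun he => ?_⟩
  have h5 := hG.sphere o ρ (insert x s) (fun y hy => by
      rcases Finset.mem_insert.1 hy with h | h
      · rw [h]; exact hx
      · exact hsX y h) (fun y hy => by
      rcases Finset.mem_insert.1 hy with h | h
      · rw [h]; exact he.symm
      · exact hso y h)
  rw [Finset.card_insert_of_notMem hxs, h4] at h5
  omega

/-- a nonzero vector orthogonal to two given vectors -/
lemma exists_orth (p q : E3) : ∃ v : E3, v ≠ 0 ∧ ⟪v, p⟫_ℝ = 0 ∧ ⟪v, q⟫_ℝ = 0 := by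
  have h : (Submodule.span ℝ {p, q})ᗮ ≠ ⊥ := by
    intro h
    have h1 : Submodule.span ℝ {p, q} = ⊤ := by
      rwa [Submodule.orthogonal_eq_bot_iff] at h
    have h2 : Module.finrank ℝ (Submodule.span ℝ ({p, q} : Set E3)) ≤ 2 := by
      classical
      have := finrank_span_finset_le_card (R := ℝ) ({p, q} : Finset E3)
      have h3 : ((({p, q} : Finset E3) : Set E3)) = {p, q} := by simp
      unfold Set.finrank at this
      rw [h3] at this
      exact this.trans Finset.card_le_two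
    rw [h1, finrank_top, finrank_euclideanSpace, Fintype.card_fin] at h2
    omega
  obtain ⟨v, hv, hv0⟩ := Submodule.exists_mem_ne_zero_of_ne_bot h
  refine ⟨v, hv0, ?_, ?_⟩
  · rw [real_inner_comm]
    exact (Submodule.mem_orthogonal _ _).1 hv p (Submodule.subset_span (by simp))
  · rw [real_inner_comm]
    exact (Submodule.mem_orthogonal _ _).1 hv q (Submodule.subset_span (by simp))

end BccO
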