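import Pool.Agent.MP_bf7174_co.O.N4
import Pool.Agent.MP_bf7174_co.A
import Pool.Agent.MP_bf7174_co.F
import Pool.Agent.MP_bf7174_co.N

/-!
# solid angles at the vertices of a triangulation
-/

set_option autoImplicit false

open MeasureTheory Real
open scoped InnerProductSpace Pointwise Topology

namespace BccO

open BccCov BccCov.W2

lemma pair_ne {a b c d : E3} (h : a ≠ c) (h' : a ≠ d) : ({a, b} : Finset E3) ≠ {c, d} := by
  intro he
  have : a ∈ ({c, d} : Finset E3) := he ▸ (by simp)
  simp only [Finset.mem_insert, Finset.mem_singleton] at this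
  tauto

lemma pair_ne' {a b c d : E3} (h : b ≠ c) (h' : b ≠ d) : ({a, b} : Finset E3) ≠ {c, d} := by
  intro he
  have : b ∈ ({c, d} : Finset E3) := he ▸ (by simp)
  simp only [Finset.mem_insert, Finset.mem_singleton] at this
  tauto

/-- the six pairs of a four-point set -/
theorem six_sum {x y z w : E3} {t : Finset E3} (hc : t.card = 4) (ht : (t : Set E3) = {x, y, z, w})
    (f : Finset E3 → ℝ) : ∑ m ∈ t.powersetCard 2, f m =
      f {x, y} + f {x, z} + f {x, w} + f {y, z} + f {y, w} + f {z, w} := by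
  classical
  obtain ⟨hxy, hxz, hxw, hyz, hyw, hzw⟩ := BccCov.S.distinct hc ht
  have hmem : ∀ v, v ∈ t ↔ v = x ∨ v = y ∨ v = z ∨ v = w := by
    intro v
    rw [← Finset.mem_coe, ht]
    simp
  have hset : t.powersetCard 2 =
      ({{x, y}, {x, z}, {x, w}, {y, z}, {y, w}, {z, w}} : Finset (Finset E3)) := by
    ext m
    rw [Finset.mem_powersetCard]
    simp only [Finset.mem_insert, Finset.mem_singleton]
    constructor
    · rintro ⟨hm, hmc⟩
      obtain ⟨a, b, hab, rfl⟩ := Finset.card_eq_two.1 hmc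
      have ha := (hmem a).1 (hm (by simp))
      have hb := (hmem b).1 (hm (by simp))
      rcases ha with rfl | rfl | rfl | rfl <;> rcases hb with rfl | rfl | rfl | rfl <;>
        first
        | exact absurd rfl hab
        | simp
        | (rw [Finset.pair_comm]; simp)
    · rintro (rfl | rfl | rfl | rfl | rfl | rfl)
      all_goals
        refine ⟨?_, Finset.card_pair (by assumption)⟩
        intro v hv
        rw [hmem]
        simp only [Finset.mem_insert, Finset.mem_singleton] at hv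
        tauto
  rw [hset]
  rw [Finset.sum_insert, Finset.sum_insert, Finset.sum_insert, Finset.sum_insert, Finset.sum_insert,
    Finset.sum_singleton]
  · ring
  · simp only [Finset.mem_singleton]
    exact pair_ne hyz hyw
  · simp only [Finset.mem_insert, Finset.mem_singleton, not_or]
    exact ⟨pair_ne' hyz.symm hzw, pair_ne hyz hyw⟩
  · simp only [Finset.mem_insert, Finset.mem_singleton, not_or]
    exact ⟨pair_ne hxy hxz, pair_ne hxy hxw, pair_ne hxz hxw⟩
  · simp only [Finset.mem_insert, Finset.mem_singleton, not_or]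
    exact ⟨pair_ne' hxz.symm hzw, pair_ne hxy hxz, pair_ne hxy hxw, pair_ne hxz hxw⟩
  · simp only [Finset.mem_insert, Finset.mem_singleton, not_or]
    exact ⟨pair_ne' hxy.symm hyz, pair_ne' hxy.symm hyw, pair_ne hxy hxz, pair_ne hxy hxw,
      pair_ne hxz hxw⟩

/-- solid angle of the tetrahedron `t` at the vertex `v` -/
noncomputable def tsol (t : Finset E3) (v : E3) : ℝ :=
  ∑ m ∈ t.powersetCard 2, (open Classical in if v ∈ m then tdih t m else 0) - π

/-- sum of the solid angles -/
noncomputable def tSS (t : Finset E3) : ℝ := 2 * ∑ m ∈ t.powersetCard 2, tdih t m - 4 * π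

/-- labelled data -/
lemma six_dih {x y z w : E3} {t : Finset E3} (hc : t.card = 4) (ht : (t : Set E3) = {x, y, z, w}) :
    tdih t {x, y} = dih x y z w ∧ tdih t {x, z} = dih x z y w ∧ tdih t {x, w} = dih x w y z ∧
    tdih t {y, z} = dih y z x w ∧ tdih t {y, w} = dih y w x z ∧ tdih t {z, w} = dih z w x y := by
  have h : ∀ a b c d : E3, ({x, y, z, w} : Set E3) = {a, b, c, d} → tdih t {a, b} = dih a b c d := by
    intro a b c d he
    exact tdih_facts.1 a b c d t {a, b} hc (by simp) (ht.trans he)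
  refine ⟨h _ _ _ _ rfl, h _ _ _ _ ?_, h _ _ _ _ ?_, h _ _ _ _ ?_, h _ _ _ _ ?_, h _ _ _ _ ?_⟩
  all_goals
    ext v
    simp only [Set.mem_insert_iff, Set.mem_singleton_iff]
    tauto

lemma tSS_eq {x y z w : E3} {t : Finset E3} (hc : t.card = 4) (ht : (t : Set E3) = {x, y, z, w}) :
    tSS t = SS x y z w := by
  obtain ⟨h1, h2, h3, h4, h5, h6⟩ := six_dih hc ht
  rw [tSS, six_sum hc ht, h1, h2, h3, h4, h5, h6, SS]

lemma tsol_eq {x y z w : E3} {t : Finset E3} (hc : t.card = 4) (ht : (t : Set E3) = {x, y, z, w}) :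
    tsol t x = dih x y z w + dih x z y w + dih x w y z - π := by
  classical
  obtain ⟨hxy, hxz, hxw, hyz, hyw, hzw⟩ := BccCov.S.distinct hc ht
  obtain ⟨h1, h2, h3, h4, h5, h6⟩ := six_dih hc ht
  rw [tsol, six_sum hc ht]
  simp only [Finset.mem_insert, Finset.mem_singleton, hxy, hxz, hxw, true_or, or_self, if_true,
    if_false, h1, h2, h3, add_zero]

lemma exists_label {t : Finset E3} (hc : t.card = 4) {x : E3} (hx : x ∈ t) :
    ∃ y z w : E3, (t : Set E3) = {x, y, z, w} := by
  classical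
  obtain ⟨y, z, w, hyz, hyw, hzw, he⟩ := Finset.card_eq_three.1
    (by rw [Finset.card_erase_of_mem hx, hc] : (t.erase x).card = 3)
  refine ⟨y, z, w, ?_⟩
  ext v
  have h1 : v ∈ (t : Set E3) ↔ v = x ∨ v ∈ t.erase x := by
    rw [Finset.mem_coe, Finset.mem_erase]
    by_cases h : v = x
    · simp [h, hx]
    · simp [h]
  rw [h1, he]
  simp

lemma set_perm1 (x y z w : E3) : ({x, y, z, w} : Set E3) = {y, x, z, w} := by
  ext v; simp only [Set.mem_insert_iff, Set.mem_singleton_iff]; tauto
lemma set_perm2 (x y z w : E3) : ({x, y, z, w} : Set E3) = {z, x, y, w} := by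
  ext v; simp only [Set.mem_insert_iff, Set.mem_singleton_iff]; tauto
lemma set_perm3 (x y z w : E3) : ({x, y, z, w} : Set E3) = {w, x, y, z} := by
  ext v; simp only [Set.mem_insert_iff, Set.mem_singleton_iff]; tauto

lemma sum_four {x y z w : E3} {t : Finset E3} (hc : t.card = 4) (ht : (t : Set E3) = {x, y, z, w})
    (f : E3 → ℝ) : ∑ v ∈ t, f v = f x + f y + f z + f w := by
  classical
  obtain ⟨hxy, hxz, hxw, hyz, hyw, hzw⟩ := BccCov.S.distinct hc ht
  have h1 : t = {x, y, z, w} := by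
    ext a
    rw [← Finset.mem_coe, ht]
    simp
  rw [h1, Finset.sum_insert (by simp [hxy, hxz, hxw]), Finset.sum_insert (by simp [hyz, hyw]),
    Finset.sum_insert (by simp [hzw]), Finset.sum_singleton]
  ring

/-- the solid angles of a tetrahedron add up to `tSS` -/
theorem sum_tsol {t : Finset E3} (hc : t.card = 4) : ∑ v ∈ t, tsol t v = tSS t := by
  have hpos : 0 < t.card := by omega
  obtain ⟨x, hx⟩ := Finset.card_pos.1 hpos
  obtain ⟨y, z, w, ht⟩ := exists_label hc hx
  obtain ⟨hxy, hxz, hxw, hyz, hyw, hzw⟩ := BccCov.S.distinct hc ht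
  rw [sum_four hc ht, tSS_eq hc ht, tsol_eq hc ht, tsol_eq hc (ht.trans (set_perm1 x y z w)),
    tsol_eq hc (ht.trans (set_perm2 x y z w)), tsol_eq hc (ht.trans (set_perm3 x y z w)), SS]
  rw [BccCov.S.dih_swap_left x y z w hxy, BccCov.S.dih_swap_left x z y w hxz,
    BccCov.S.dih_swap_left y z x w hyz, BccCov.S.dih_swap_left x w y z hxw,
    BccCov.S.dih_swap_left y w x z hyw, BccCov.S.dih_swap_left z w x y hzw]
  ring

/-- near a vertex a tetrahedron contains its cone -/
theorem local_cone {x y z w : E3} (h : det3 x y z w ≠ 0) : ∃ ε₀ > 0, ∀ ε, 0 < ε → ε ≤ ε₀ →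
    ENNReal.ofReal (frac (ocone (y - x) (z - x) (w - x))) * volume (Metric.ball x ε) ≤
      volume (convexHull ℝ ({x, y, z, w} : Set E3) ∩ Metric.ball x ε) := by
  have h' := h
  rw [← det_LL] at h'
  obtain ⟨Le, hLe⟩ := exists_equiv h'
  have hcont : ContinuousAt Le.symm 0 := Le.symm.continuous.continuousAt
  obtain ⟨ε₀, hε₀, hε₀'⟩ := Metric.continuousAt_iff.1 hcont (1 / 6) (by norm_num)
  refine ⟨ε₀, hε₀, fun ε hε hεε => ?_⟩
  set C := ocone (y - x) (z - x) (w - x) with hC
  have hB : volume (Metric.ball (0 : E3) 1) ≠ 0 := (Metric.measure_ball_pos volume _ one_pos).ne'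
  have hBt : volume (Metric.ball (0 : E3) 1) ≠ ⊤ := measure_ball_lt_top.ne
  have hCt : volume (C ∩ Metric.ball (0 : E3) 1) ≠ ⊤ :=
    ((measure_mono Set.inter_subset_right).trans_lt measure_ball_lt_top).ne
  have e1 : ENNReal.ofReal (frac C) * volume (Metric.ball (0 : E3) 1) =
      volume (C ∩ Metric.ball (0 : E3) 1) := by
    rw [frac, ENNReal.ofReal_div_of_pos (ENNReal.toReal_pos hB hBt), ENNReal.ofReal_toReal hCt,
      ENNReal.ofReal_toReal hBt, ENNReal.div_mul_cancel hB hBt]
  have e2 : volume (Metric.ball x ε) = ENNReal.ofReal (ε ^ 3) * volume (Metric.ball (0 : E3) 1) := by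
    rw [Measure.addHaar_ball_of_pos volume x hε]
    simp
  have e3 : ENNReal.ofReal (frac C) * volume (Metric.ball x ε) = volume (C ∩ Metric.ball (0 : E3) ε) := by
    rw [e2, cone_ball (isCone_ocone _ _ _) hε, ← e1]
    ring
  rw [e3]
  have e4 : volume (C ∩ Metric.ball (0 : E3) ε) =
      volume ((fun v => x + v) '' (C ∩ Metric.ball (0 : E3) ε)) := by
    rw [Set.image_add_left, measure_preimage_add]
  rw [e4]
  apply measure_mono
  rintro _ ⟨v, ⟨⟨u, hu, rfl⟩, hvb⟩, rfl⟩
  rw [mem_ball_zero_iff] at hvb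
  refine ⟨?_, ?_⟩
  · rw [BccCov.V.hull_eq]
    refine ⟨LL (y - x) (z - x) (w - x) u, ⟨u, ?_, rfl⟩, rfl⟩
    have h1 : dist (LL (y - x) (z - x) (w - x) u) 0 < ε₀ := by
      rw [dist_zero_right]; exact lt_of_lt_of_le hvb hεε
    have h2 := hε₀' h1
    rw [map_zero, dist_zero_right, ← hLe, Le.symm_apply_apply] at h2
    have h3 := fun i => (BccCov.W2.coord_le u i).trans h2.le
    have h30 := (abs_le.1 (h3 0)).2
    have h31 := (abs_le.1 (h3 1)).2
    have h32 := (abs_le.1 (h3 2)).2
    exact ⟨(hu 0).le, (hu 1).le, (hu 2).le, by linarith⟩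
  · rw [Metric.mem_ball, dist_eq_norm, add_sub_cancel_left]
    exact hvb

/-- **the solid angles at a vertex** add up to at most `4π` -/
theorem vertex_sum {X : Set E3} {D : Set (Finset E3)} (hT : IsTriangulation X D) (v : E3)
    (s : Finset (Finset E3)) (hs : ∀ t ∈ s, t ∈ D ∧ v ∈ t) : ∑ t ∈ s, tsol t v ≤ 4 * π := by
  classical
  have hpi := pi_pos
  have hev : ∀ᶠ ε in 𝓝[>] (0 : ℝ), ∀ t ∈ s,
      ENNReal.ofReal (tsol t v / (4 * π)) * volume (Metric.ball v ε) ≤
        volume (convexHull ℝ (t : Set E3) ∩ Metric.ball v ε) := by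
    rw [Filter.eventually_all_finset]
    intro t ht
    obtain ⟨htD, hv⟩ := hs t ht
    have hc := hT.card_eq t htD
    obtain ⟨y, z, w, hl⟩ := exists_label hc hv
    have hdet : det3 v y z w ≠ 0 := BccCov.S.det3_ne_zero v y z w t hc hl (hT.indep t htD)
    obtain ⟨ε₀, hε₀, hw⟩ := local_cone hdet
    filter_upwards [Ioo_mem_nhdsGT hε₀] with ε hε
    rw [hl, tsol_eq hc hl, ← girard hdet]
    exact hw ε hε.1 hε.2.le
  obtain ⟨ε, h1, hε⟩ := (hev.and (self_mem_nhdsWithin (a := (0 : ℝ)) (s := Set.Ioi 0))).exists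
  have hε : 0 < ε := hε
  have hsum : ∑ t ∈ s, volume (convexHull ℝ (t : Set E3) ∩ Metric.ball v ε) ≤
      volume (Metric.ball v ε) := by
    rw [← measure_biUnion_finset₀]
    · apply measure_mono
      intro u hu
      rw [Set.mem_iUnion₂] at hu
      obtain ⟨t, _, hu⟩ := hu
      exact hu.2
    · intro t ht t' ht' hne
      have h3 := null_inter hT t t' (hs t ht).1 (hs t' ht').1 hne
      refine measure_mono_null ?_ h3
      rintro u ⟨hu, hu'⟩
      exact ⟨hu.1, hu'.1⟩
    · intro t _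
      have hclosed : IsClosed (convexHull ℝ (t : Set E3)) :=
        (Set.Finite.isCompact_convexHull ℝ t.finite_toSet).isClosed
      exact (hclosed.measurableSet.inter measurableSet_ball).nullMeasurableSet
  have h2 := (Finset.sum_le_sum h1).trans hsum
  rw [← Finset.sum_mul] at h2
  have hv0 : volume (Metric.ball v ε) ≠ 0 := (Metric.measure_ball_pos volume v hε).ne'
  have hvt : volume (Metric.ball v ε) ≠ ⊤ := measure_ball_lt_top.ne
  have hone : ∑ t ∈ s, ENNReal.ofReal (tsol t v / (4 * π)) ≤ 1 := by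
    have h3 : (∑ t ∈ s, ENNReal.ofReal (tsol t v / (4 * π))) * volume (Metric.ball v ε) ≤
        1 * volume (Metric.ball v ε) := by rw [one_mul]; exact h2
    exact (ENNReal.mul_le_mul_iff_left hv0 hvt).1 h3
  have hpos : ∀ t ∈ s, 0 ≤ tsol t v / (4 * π) := by
    intro t ht
    obtain ⟨htD, hv⟩ := hs t ht
    have hc := hT.card_eq t htD
    obtain ⟨y, z, w, hl⟩ := exists_label hc hv
    have hdet : det3 v y z w ≠ 0 := BccCov.S.det3_ne_zero v y z w t hc hl (hT.indep t htD)
    rw [tsol_eq hc hl, ← girard hdet]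
    exact frac_nonneg _
  rw [← ENNReal.ofReal_sum_of_nonneg hpos, ENNReal.ofReal_le_one, ← Finset.sum_div,
    div_le_one (by positivity)] at hone
  exact hone

end BccO
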