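import Pool.Agent.MP_bf7174_co.O.R1

/-!
# the tetrahedron inequality for finite sets
-/

set_option autoImplicit false

open MeasureTheory Real
open scoped InnerProductSpace Pointwise Topology

namespace BccO

open BccCov BccCov.W2

/-- weight of an edge -/
noncomputable def wtt (t m : Finset E3) : ℝ :=
  if 1.45 ≤ Metric.diam (m : Set E3) then gp (tdih t m) else 0

/-- volume -/
noncomputable def vol (t : Finset E3) : ℝ := (volume (convexHull ℝ (t : Set E3))).toReal

lemma vol_eq {x y z w : E3} {t : Finset E3} (ht : (t : Set E3) = {x, y, z, w}) :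
    vol t = |det3 x y z w| / 6 := by
  rw [vol, ht, BccCov.V.vol_tet, ENNReal.toReal_ofReal (by positivity)]

lemma wtt_sum {x y z w : E3} {t : Finset E3} (hc : t.card = 4) (ht : (t : Set E3) = {x, y, z, w}) :
    ∑ m ∈ t.powersetCard 2, wtt t m = PW 1.45 x y z w := by
  obtain ⟨h1, h2, h3, h4, h5, h6⟩ := six_dih hc ht
  have hd : ∀ a b : E3, Metric.diam (({a, b} : Finset E3) : Set E3) = dist a b := by
    intro a b
    rw [Finset.coe_pair, Metric.diam_pair]
  rw [six_sum hc ht]
  unfold wtt PW G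
  rw [hd, hd, hd, hd, hd, hd, h1, h2, h3, h4, h5, h6]

lemma dih_smul {c : ℝ} (hc : 0 < c) (x y z w : E3) :
    dih (c • x) (c • y) (c • z) (c • w) = dih x y z w := by
  unfold dih
  have hp : ∀ u v : E3, perp (c • u) (c • v) = c • perp u v := by
    intro u v
    unfold perp
    rw [inner_smul_left, inner_smul_right, inner_smul_left, inner_smul_right, smul_sub, smul_smul,
      smul_smul]
    congr 2
    simp only [RCLike.conj_to_real]
    by_cases h : ⟪u, u⟫_ℝ = 0
    · rw [h, mul_zero, mul_zero, div_zero, div_zero, zero_mul, mul_zero]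
    · field_simp
  rw [← smul_sub, ← smul_sub, ← smul_sub, hp, hp, InnerProductGeometry.angle_smul_smul hc.ne']

lemma dist_smul' {c : ℝ} (hc : 0 < c) (x y : E3) : dist (c • x) (c • y) = c * dist x y := by
  rw [dist_smul₀, norm_eq_abs, abs_of_pos hc]

lemma SS_smul {c : ℝ} (hc : 0 < c) (x y z w : E3) :
    SS (c • x) (c • y) (c • z) (c • w) = SS x y z w := by
  unfold SS
  simp only [dih_smul hc]

lemma PW_smul {c A : ℝ} (hc : 0 < c) (x y z w : E3) :
    PW (A * c) (c • x) (c • y) (c • z) (c • w) = PW A x y z w := by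
  have hG : ∀ θ l : ℝ, G (A * c) θ (c * l) = G A θ l := by
    intro θ l
    unfold G
    have : A * c ≤ c * l ↔ A ≤ l := by
      rw [mul_comm]; exact mul_le_mul_iff_right₀ hc
    simp only [this]
  unfold PW
  simp only [dih_smul hc, dist_smul' hc, hG]

lemma det3_smul (c : ℝ) (x y z w : E3) :
    det3 (c • x) (c • y) (c • z) (c • w) = c ^ 3 * det3 x y z w := by
  unfold det3
  simp only [PiLp.smul_apply, smul_eq_mul]
  ring

theorem TI_fin {t : Finset E3} (hc : t.card = 4)
    (hi : AffineIndependent ℝ (Subtype.val : {x // x ∈ t} → E3)) {o : E3} {ρ : ℝ}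
    (hto : ∀ x ∈ t, dist x o = ρ) (hρ : ρ ≤ 1.02)
    (hsep : ∀ x ∈ t, ∀ y ∈ t, x ≠ y → 0.0195 ≤ dist x y) :
    (1 + eps) * vol t ≤ kap * tSS t + al * ∑ m ∈ t.powersetCard 2, wtt t m +
      (if 1 < ρ then 0.0577 * vol t else 0) := by
  have hpos : 0 < t.card := by omega
  obtain ⟨x, hx⟩ := Finset.card_pos.1 hpos
  obtain ⟨y, z, w, ht⟩ := exists_label hc hx
  obtain ⟨hxy, hxz, hxw, hyz, hyw, hzw⟩ := BccCov.S.distinct hc ht
  have hdet : det3 x y z w ≠ 0 := BccCov.S.det3_ne_zero x y z w t hc ht hi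
  have mem : ∀ v, v ∈ ({x, y, z, w} : Set E3) → v ∈ t := by
    intro v hv
    rw [← Finset.mem_coe, ht]; exact hv
  have my : y ∈ t := mem y (by simp)
  have mz : z ∈ t := mem z (by simp)
  have mw : w ∈ t := mem w (by simp)
  rw [tSS_eq hc ht, wtt_sum hc ht, vol_eq ht]
  have s1 := hsep x hx y my hxy
  have s2 := hsep x hx z mz hxz
  have s3 := hsep x hx w mw hxw
  have s4 := hsep y my z mz hyz
  have s5 := hsep y my w mw hyw
  have s6 := hsep z mz w mw hzw
  split_ifs with h1
  · -- scaling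
    have hρ0 : 0 < ρ := by linarith
    obtain ⟨c, hcdef⟩ : ∃ c, c = ρ⁻¹ := ⟨_, rfl⟩
    have hc0 : 0 < c := by rw [hcdef]; positivity
    have hcρ : c * ρ = 1 := by rw [hcdef]; exact inv_mul_cancel₀ hρ0.ne'
    have hc1 : 0.9803 ≤ c := by
      by_contra hcon
      push Not at hcon
      nlinarith
    have hc2 : c ≤ 1 := by
      by_contra hcon
      push Not at hcon
      nlinarith
    have hsc : ∀ v ∈ t, dist (c • v) (c • o) = c * ρ := by
      intro v hv
      rw [dist_smul' hc0, hto v hv]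
    have hds : ∀ p q : E3, 0.0195 ≤ dist p q → 0.019 ≤ dist (c • p) (c • q) := by
      intro p q h
      rw [dist_smul' hc0]
      nlinarith
    have hA : 1.4215 ≤ 1.45 * c := by
      have : 1 ≤ 1.02 * c := by nlinarith
      linarith
    have key := TI (x := c • x) (y := c • y) (z := c • z) (w := c • w) (o := c • o) (ρ := c * ρ)
      (A₀ := 1.45 * c) (by rw [det3_smul]; exact mul_ne_zero (by positivity) hdet)
      (hsc x hx) (hsc y my) (hsc z mz) (hsc w mw) hcρ.le hA (by linarith)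
      (hds _ _ s1) (hds _ _ s2) (hds _ _ s3) (hds _ _ s4) (hds _ _ s5) (hds _ _ s6)
    rw [PW_smul hc0, SS_smul hc0, det3_smul, abs_mul, abs_of_pos (by positivity : 0 < c ^ 3)] at key
    have he := eps_ub
    have he0 := eps_lb
    have hc3 : 0.9423 ≤ c ^ 3 := by
      have h2 : (1 / 1.02 : ℝ) ≤ c := by
        rw [div_le_iff₀ (by norm_num)]; nlinarith
      have : (1 / 1.02 : ℝ) ^ 3 ≤ c ^ 3 := pow_le_pow_left₀ (by norm_num) h2 3
      refine le_trans ?_ this
      norm_num
    have hV : 0 ≤ |det3 x y z w| / 6 := by positivity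
    have e1 : (1 + eps) * (1 - c ^ 3) ≤ 0.0577 * 1 := by
      have h5 : 1 - c ^ 3 ≤ 0.0577 := by linarith
      have h6 : 0 ≤ 1 - c ^ 3 := by
        have : c ^ 3 ≤ 1 := pow_le_one₀ hc0.le hc2
        linarith
      have h7 : 0.94232 ≤ c ^ 3 := by
        have h2 : (1 / 1.02 : ℝ) ≤ c := by
          rw [div_le_iff₀ (by norm_num)]; nlinarith
        have : (1 / 1.02 : ℝ) ^ 3 ≤ c ^ 3 := pow_le_pow_left₀ (by norm_num) h2 3
        refine le_trans ?_ this
        norm_num
      have h8 : eps * (1 - c ^ 3) ≤ 0.0000902 * 1 := mul_le_mul he (by linarith [pow_pos hc0 3]) h6 (by norm_num)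
      have h9 : (1 + eps) * (1 - c ^ 3) = (1 - c ^ 3) + eps * (1 - c ^ 3) := by ring
      rw [h9]
      norm_num at h8 h7 ⊢
      nlinarith
    have e2 : (1 + eps) * (1 - c ^ 3) * (|det3 x y z w| / 6) ≤ 0.0577 * (|det3 x y z w| / 6) := by
      have := mul_le_mul_of_nonneg_right e1 hV
      linarith
    have e3 : (1 + eps) * (|det3 x y z w| / 6) = (1 + eps) * (c ^ 3 * |det3 x y z w| / 6) +
      (1 + eps) * (1 - c ^ 3) * (|det3 x y z w| / 6) := by ring
    rw [e3]
    linarith
  · push Not at h1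
    have key := TI (A₀ := 1.45) hdet (hto x hx) (hto y my) (hto z mz) (hto w mw) h1 (by norm_num)
      (by norm_num) (by linarith) (by linarith) (by linarith) (by linarith) (by linarith)
      (by linarith)
    linarith

lemma wtt_le {t m : Finset E3} : wtt t m ≤ om := by
  unfold wtt
  have := om_pos
  split_ifs
  · exact gp_le (tdih_facts.2.1 t m).1
  · linarith

/-- around an edge the weights add up to a nonpositive number -/
theorem wtt_edge {X : Set E3} {D : Set (Finset E3)} {r : ℝ} (hT : IsTriangulation X D)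
    (hI : ∀ t ∈ D, Inscribed t r) (hfin : ∀ R : ℝ, (X ∩ Metric.closedBall (0 : E3) R).Finite)
    (m : Finset E3) (s : Finset (Finset E3)) (hm : m.card = 2) (hmD : ∃ t ∈ D, m ⊆ t)
    (hs : ∀ t, t ∈ s ↔ t ∈ D ∧ m ⊆ t) : ∑ t ∈ s, wtt t m ≤ 0 := by
  unfold wtt
  split_ifs with h
  · exact gp_sum s (fun t => tdih t m) (fun t _ => (tdih_facts.2.1 t m).1)
      (fun t _ => (tdih_facts.2.1 t m).2) (angle_sum hT hI hfin m hm hmD s hs)
  · simp

end BccO
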