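import Mathlib

/-!
# Taylor bounds for the cosine, numerical value of `12 arccos (1/3) - 4 π`
-/

set_option autoImplicit false

open Real

namespace BccO

lemma nonneg_of_deriv {f f' : ℝ → ℝ} (h : ∀ y, HasDerivAt f (f' y) y) (h0 : f 0 = 0)
    (h1 : ∀ y, 0 ≤ y → 0 ≤ f' y) {x : ℝ} (hx : 0 ≤ x) : 0 ≤ f x := by
  have hm : MonotoneOn f (Set.Ici 0) := by
    apply monotoneOn_of_deriv_nonneg (convex_Ici 0)
    · exact fun y _ => (h y).continuousAt.continuousWithinAt
    · exact fun y _ => (h y).differentiableAt.differentiableWithinAt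
    · intro y hy
      rw [(h y).deriv]
      rw [interior_Ici] at hy
      exact h1 y (le_of_lt hy)
  have := hm (Set.mem_Ici.2 le_rfl) (Set.mem_Ici.2 hx) hx
  rwa [h0] at this

lemma sin_le1 {x : ℝ} (hx : 0 ≤ x) : sin x ≤ x := by
  have := nonneg_of_deriv (f := fun x => x - sin x) (f' := fun x => 1 - cos x)
    (fun y => (hasDerivAt_id y).sub (hasDerivAt_sin y)) (by simp)
    (fun y _ => by linarith [cos_le_one y]) hx
  linarith

lemma cos_ge2 {x : ℝ} (hx : 0 ≤ x) : 1 - x ^ 2 / 2 ≤ cos x := by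
  have := nonneg_of_deriv (f := fun x => cos x - (1 - x ^ 2 / 2)) (f' := fun x => x - sin x)
    (fun y => by
      have h1 := ((hasDerivAt_pow 2 y).div_const 2).const_sub 1
      exact ((hasDerivAt_cos y).sub h1).congr_deriv (by push_cast; ring)) (by simp)
    (fun y hy => by linarith [sin_le1 hy]) hx
  linarith

lemma sin_ge3 {x : ℝ} (hx : 0 ≤ x) : x - x ^ 3 / 6 ≤ sin x := by
  have := nonneg_of_deriv (f := fun x => sin x - (x - x ^ 3 / 6))
    (f' := fun x => cos x - (1 - x ^ 2 / 2))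
    (fun y => by
      have h1 := (hasDerivAt_id y).sub ((hasDerivAt_pow 3 y).div_const 6)
      exact ((hasDerivAt_sin y).sub h1).congr_deriv (by push_cast; ring)) (by simp)
    (fun y hy => by linarith [cos_ge2 hy]) hx
  linarith

lemma cos_le4 {x : ℝ} (hx : 0 ≤ x) : cos x ≤ 1 - x ^ 2 / 2 + x ^ 4 / 24 := by
  have := nonneg_of_deriv (f := fun x => 1 - x ^ 2 / 2 + x ^ 4 / 24 - cos x)
    (f' := fun x => sin x - (x - x ^ 3 / 6))
    (fun y => by
      have h1 := (((hasDerivAt_pow 2 y).div_const 2).const_sub 1).add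
        ((hasDerivAt_pow 4 y).div_const 24)
      exact (h1.sub (hasDerivAt_cos y)).congr_deriv (by push_cast; ring)) (by simp)
    (fun y hy => by linarith [sin_ge3 hy]) hx
  linarith

lemma sin_le5 {x : ℝ} (hx : 0 ≤ x) : sin x ≤ x - x ^ 3 / 6 + x ^ 5 / 120 := by
  have := nonneg_of_deriv (f := fun x => x - x ^ 3 / 6 + x ^ 5 / 120 - sin x)
    (f' := fun x => 1 - x ^ 2 / 2 + x ^ 4 / 24 - cos x)
    (fun y => by
      have h1 := ((hasDerivAt_id y).sub ((hasDerivAt_pow 3 y).div_const 6)).add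
        ((hasDerivAt_pow 5 y).div_const 120)
      exact (h1.sub (hasDerivAt_sin y)).congr_deriv (by push_cast; ring)) (by simp)
    (fun y hy => by linarith [cos_le4 hy]) hx
  linarith

lemma cos_ge6 {x : ℝ} (hx : 0 ≤ x) : 1 - x ^ 2 / 2 + x ^ 4 / 24 - x ^ 6 / 720 ≤ cos x := by
  have := nonneg_of_deriv (f := fun x => cos x - (1 - x ^ 2 / 2 + x ^ 4 / 24 - x ^ 6 / 720))
    (f' := fun x => x - x ^ 3 / 6 + x ^ 5 / 120 - sin x)
    (fun y => by
      have h1 := ((((hasDerivAt_pow 2 y).div_const 2).const_sub 1).add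
        ((hasDerivAt_pow 4 y).div_const 24)).sub ((hasDerivAt_pow 6 y).div_const 720)
      exact ((hasDerivAt_cos y).sub h1).congr_deriv (by push_cast; ring)) (by simp)
    (fun y hy => by linarith [sin_le5 hy]) hx
  linarith

lemma sin_ge7 {x : ℝ} (hx : 0 ≤ x) : x - x ^ 3 / 6 + x ^ 5 / 120 - x ^ 7 / 5040 ≤ sin x := by
  have := nonneg_of_deriv (f := fun x => sin x - (x - x ^ 3 / 6 + x ^ 5 / 120 - x ^ 7 / 5040))
    (f' := fun x => cos x - (1 - x ^ 2 / 2 + x ^ 4 / 24 - x ^ 6 / 720))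
    (fun y => by
      have h1 := (((hasDerivAt_id y).sub ((hasDerivAt_pow 3 y).div_const 6)).add
        ((hasDerivAt_pow 5 y).div_const 120)).sub ((hasDerivAt_pow 7 y).div_const 5040)
      exact ((hasDerivAt_sin y).sub h1).congr_deriv (by push_cast; ring)) (by simp)
    (fun y hy => by linarith [cos_ge6 hy]) hx
  linarith

lemma cos_le8 {x : ℝ} (hx : 0 ≤ x) :
    cos x ≤ 1 - x ^ 2 / 2 + x ^ 4 / 24 - x ^ 6 / 720 + x ^ 8 / 40320 := by
  have := nonneg_of_deriv
    (f := fun x => 1 - x ^ 2 / 2 + x ^ 4 / 24 - x ^ 6 / 720 + x ^ 8 / 40320 - cos x)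
    (f' := fun x => sin x - (x - x ^ 3 / 6 + x ^ 5 / 120 - x ^ 7 / 5040)) (fun y => by
      have h1 := ((((hasDerivAt_pow 2 y).div_const 2).const_sub 1).add
        ((hasDerivAt_pow 4 y).div_const 24)).sub ((hasDerivAt_pow 6 y).div_const 720)
      have h2 := (h1.add ((hasDerivAt_pow 8 y).div_const 40320)).sub (hasDerivAt_cos y)
      exact h2.congr_deriv (by push_cast; ring)) (by simp)
    (fun y hy => by linarith [sin_ge7 hy]) hx
  linarith

lemma sin_le9 {x : ℝ} (hx : 0 ≤ x) :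
    sin x ≤ x - x ^ 3 / 6 + x ^ 5 / 120 - x ^ 7 / 5040 + x ^ 9 / 362880 := by
  have := nonneg_of_deriv
    (f := fun x => x - x ^ 3 / 6 + x ^ 5 / 120 - x ^ 7 / 5040 + x ^ 9 / 362880 - sin x)
    (f' := fun x => 1 - x ^ 2 / 2 + x ^ 4 / 24 - x ^ 6 / 720 + x ^ 8 / 40320 - cos x) (fun y => by
      have h1 := (((hasDerivAt_id y).sub ((hasDerivAt_pow 3 y).div_const 6)).add
        ((hasDerivAt_pow 5 y).div_const 120)).sub ((hasDerivAt_pow 7 y).div_const 5040)
      have h2 := (h1.add ((hasDerivAt_pow 9 y).div_const 362880)).sub (hasDerivAt_sin y)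
      exact h2.congr_deriv (by push_cast; ring)) (by simp)
    (fun y hy => by linarith [cos_le8 hy]) hx
  linarith

lemma cos_ge10 {x : ℝ} (hx : 0 ≤ x) :
    1 - x ^ 2 / 2 + x ^ 4 / 24 - x ^ 6 / 720 + x ^ 8 / 40320 - x ^ 10 / 3628800 ≤ cos x := by
  have := nonneg_of_deriv
    (f := fun x => cos x -
      (1 - x ^ 2 / 2 + x ^ 4 / 24 - x ^ 6 / 720 + x ^ 8 / 40320 - x ^ 10 / 3628800))
    (f' := fun x => x - x ^ 3 / 6 + x ^ 5 / 120 - x ^ 7 / 5040 + x ^ 9 / 362880 - sin x)
    (fun y => by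
      have h1 := ((((hasDerivAt_pow 2 y).div_const 2).const_sub 1).add
        ((hasDerivAt_pow 4 y).div_const 24)).sub ((hasDerivAt_pow 6 y).div_const 720)
      have h2 := (h1.add ((hasDerivAt_pow 8 y).div_const 40320)).sub
        ((hasDerivAt_pow 10 y).div_const 3628800)
      exact ((hasDerivAt_cos y).sub h2).congr_deriv (by push_cast; ring)) (by simp)
    (fun y hy => by linarith [sin_le9 hy]) hx
  linarith

lemma sin_ge11 {x : ℝ} (hx : 0 ≤ x) :
    x - x ^ 3 / 6 + x ^ 5 / 120 - x ^ 7 / 5040 + x ^ 9 / 362880 - x ^ 11 / 39916800 ≤ sin x := by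
  have := nonneg_of_deriv
    (f := fun x => sin x -
      (x - x ^ 3 / 6 + x ^ 5 / 120 - x ^ 7 / 5040 + x ^ 9 / 362880 - x ^ 11 / 39916800))
    (f' := fun x => cos x -
      (1 - x ^ 2 / 2 + x ^ 4 / 24 - x ^ 6 / 720 + x ^ 8 / 40320 - x ^ 10 / 3628800))
    (fun y => by
      have h1 := (((hasDerivAt_id y).sub ((hasDerivAt_pow 3 y).div_const 6)).add
        ((hasDerivAt_pow 5 y).div_const 120)).sub ((hasDerivAt_pow 7 y).div_const 5040)
      have h2 := (h1.add ((hasDerivAt_pow 9 y).div_const 362880)).sub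
        ((hasDerivAt_pow 11 y).div_const 39916800)
      exact ((hasDerivAt_sin y).sub h2).congr_deriv (by push_cast; ring)) (by simp)
    (fun y hy => by linarith [cos_ge10 hy]) hx
  linarith

lemma cos_le12 {x : ℝ} (hx : 0 ≤ x) :
    cos x ≤ 1 - x ^ 2 / 2 + x ^ 4 / 24 - x ^ 6 / 720 + x ^ 8 / 40320 - x ^ 10 / 3628800
      + x ^ 12 / 479001600 := by
  have := nonneg_of_deriv
    (f := fun x => 1 - x ^ 2 / 2 + x ^ 4 / 24 - x ^ 6 / 720 + x ^ 8 / 40320 - x ^ 10 / 3628800
      + x ^ 12 / 479001600 - cos x)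
    (f' := fun x => sin x -
      (x - x ^ 3 / 6 + x ^ 5 / 120 - x ^ 7 / 5040 + x ^ 9 / 362880 - x ^ 11 / 39916800))
    (fun y => by
      have h1 := ((((hasDerivAt_pow 2 y).div_const 2).const_sub 1).add
        ((hasDerivAt_pow 4 y).div_const 24)).sub ((hasDerivAt_pow 6 y).div_const 720)
      have h2 := (h1.add ((hasDerivAt_pow 8 y).div_const 40320)).sub
        ((hasDerivAt_pow 10 y).div_const 3628800)
      have h3 := (h2.add ((hasDerivAt_pow 12 y).div_const 479001600)).sub (hasDerivAt_cos y)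
      exact h3.congr_deriv (by push_cast; ring)) (by simp)
    (fun y hy => by linarith [sin_ge11 hy]) hx
  linarith

/-- four times the solid angle of the regular tetrahedron -/
noncomputable def Sr : ℝ := 12 * arccos (1 / 3) - 4 * π

lemma arccos_third_lb : (1.230959 : ℝ) ≤ arccos (1 / 3) := by
  have h := cos_ge10 (x := 1.230959) (by norm_num)
  have h1 : (1 / 3 : ℝ) ≤ cos 1.230959 := le_trans (by norm_num) h
  have h2 := arccos_le_arccos h1
  rw [arccos_cos (by norm_num) (by linarith [pi_gt_three])] at h2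
  exact h2

lemma arccos_third_ub : arccos (1 / 3) ≤ (1.23096 : ℝ) := by
  have h := cos_le12 (x := 1.23096) (by norm_num)
  have h1 : cos 1.23096 ≤ (1 / 3 : ℝ) := le_trans h (by norm_num)
  have h2 := arccos_le_arccos h1
  rw [arccos_cos (by norm_num) (by linarith [pi_gt_three])] at h2
  exact h2

lemma Sr_lb : (2.20513 : ℝ) ≤ Sr := by
  have h := arccos_third_lb
  have h2 := pi_lt_d6
  unfold Sr
  norm_num at h h2 ⊢
  linarith

lemma Sr_ub : Sr ≤ (2.20516 : ℝ) := by
  have h := arccos_third_ub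
  have h2 := pi_gt_d6
  unfold Sr
  norm_num at h h2 ⊢
  linarith

end BccO
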